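import Pool.Agent.KSM.P23
import Pool.Agent.KSM.P14

/-!
The complex volume of the critical point.
Proof of `cvol_eq`: as `Loc.cvol_eq` (KX/Cvol) with `FF_dilog`, `log_exp_strip`: the terms `-π ^ 2 u ^ 2` of a node
sum to `-π ^ 2 (8 Θ ^ 2 - 4 Θ + 1 + 2 τ j ^ 2 + 2 τ (j + 1) ^ 2)`; `log x = -2 π I Θ`, `log (-z) = -2 π I sg τ`;
`(a i : ℂ) = sg (decide (0 < a i)) * (a i).natAbs`; `2 π I * (2 π I (a τ ^ 2 - sg τ)) = a log (-z) ^ 2 +
2 π I log (-z)`; `n` terms `-π ^ 2`, and `2 π * π I (n + 1) * I` gives `-2 π ^ 2` for every region. The real parts of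
all arguments are in the strip by `t_pos`, `hθ`.
-/

namespace Pool.Agent.Kashaev.KC

open Finset Real
open Pool.Agent.Kashaev.KW
open Pool.Agent.Kashaev.KX (sg DD dilog)

private lemma int_eq_sg (m : ℤ) : (m : ℂ) = (sg (decide (0 < m)) : ℂ) * (m.natAbs : ℂ) := by
  by_cases h : 0 < m
  · have h1 : ((m.natAbs : ℕ) : ℤ) = m := Int.natAbs_of_nonneg h.le
    have h2 : ((m.natAbs : ℕ) : ℂ) = (m : ℂ) := by rw [← Int.cast_natCast, h1]
    rw [h2]
    simp [sg, h]
  · have h1 : ((m.natAbs : ℕ) : ℤ) = -m := by omega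
    have h2 : ((m.natAbs : ℕ) : ℂ) = -(m : ℂ) := by
      rw [← Int.cast_natCast, h1, Int.cast_neg]
    rw [h2]
    simp [sg, h]

private lemma sg_cases (e : Bool) : sg e = 1 ∨ sg e = -1 := by
  cases e <;> simp [sg]

/-- The two dilogarithms at a node and a region. -/
private lemma pair_eq (e : Bool) {Θ τ : ℂ} (h1 : |(Θ + τ).re| < 1 / 2) (h2 : |(Θ - τ).re| < 1 / 2) :
    dilog (Complex.exp (-(2 * π * Complex.I) * Θ) *
        -Complex.exp (-(2 * π * Complex.I) * (sg e * τ))) +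
      dilog (Complex.exp (-(2 * π * Complex.I) * Θ) /
        -Complex.exp (-(2 * π * Complex.I) * (sg e * τ))) =
      2 * π * Complex.I * (FF (Θ + τ) + FF (Θ - τ)) + 2 * dilog (-1) +
        π ^ 2 * (2 * Θ ^ 2 + 2 * τ ^ 2) := by
  have d1 := KX.FF_dilog h1
  have d2 := KX.FF_dilog h2
  have y3 : Complex.exp (-(2 * π * Complex.I) * Θ) *
        -Complex.exp (-(2 * π * Complex.I) * (sg e * τ)) =
      -Complex.exp (-(2 * π * Complex.I * (Θ + sg e * τ))) := by
    rw [mul_neg, ← Complex.exp_add]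
    congr 2
    ring
  have y4 : Complex.exp (-(2 * π * Complex.I) * Θ) /
        -Complex.exp (-(2 * π * Complex.I) * (sg e * τ)) =
      -Complex.exp (-(2 * π * Complex.I * (Θ - sg e * τ))) := by
    rw [div_neg, ← Complex.exp_sub]
    congr 2
    ring
  rw [y3, y4]
  have x34 : dilog (-Complex.exp (-(2 * π * Complex.I * (Θ + sg e * τ)))) +
      dilog (-Complex.exp (-(2 * π * Complex.I * (Θ - sg e * τ)))) =
      dilog (-Complex.exp (-(2 * π * Complex.I * (Θ + τ)))) +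
        dilog (-Complex.exp (-(2 * π * Complex.I * (Θ - τ)))) := by
    rcases sg_cases e with h | h
    · rw [h, Complex.ofReal_one, one_mul]
    · rw [h, Complex.ofReal_neg, Complex.ofReal_one, neg_one_mul, sub_neg_eq_add,
        ← sub_eq_add_neg]
      exact add_comm _ _
  linear_combination x34 - d1 - d2

private lemma inv_eq {Θ : ℂ} (h : |(1 / 2 - Θ).re| < 1 / 2) :
    dilog (1 / Complex.exp (-(2 * π * Complex.I) * Θ)) =
      2 * π * Complex.I * FF (1 / 2 - Θ) + dilog (-1) + π ^ 2 * (1 / 2 - Θ) ^ 2 := by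
  have d5 := KX.FF_dilog h
  have x5 : 1 / Complex.exp (-(2 * π * Complex.I) * Θ) =
      -Complex.exp (-(2 * π * Complex.I * (1 / 2 - Θ))) := by
    have h1 : -(2 * π * Complex.I * (1 / 2 - Θ)) = 2 * π * Complex.I * Θ - π * Complex.I := by
      ring
    rw [h1, Complex.exp_sub, Complex.exp_pi_mul_I, one_div, ← Complex.exp_neg]
    rw [div_neg, div_one, neg_neg]
    congr 1
    ring
  rw [x5]
  linear_combination -d5

namespace CP

variable {n : ℕ}

private lemma xf_even {e : ℕ → Bool} {p : ℕ → ℕ} (S : CP n e p) {i : ℕ} (hi : i ≤ n) :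
    xf S.x0N (2 * i) = S.t i := by
  have h : 2 * i < 2 * n + 1 := by omega
  unfold xf
  rw [dif_pos h]
  show S.x0 (2 * i) = S.t i
  unfold x0
  rw [if_pos (by omega)]
  congr 1
  omega

private lemma xf_odd {e : ℕ → Bool} {p : ℕ → ℕ} (S : CP n e p) {j : ℕ} (hj : j < n) :
    xf S.x0N (2 * j + 1) = S.θ j := by
  have h : 2 * j + 1 < 2 * n + 1 := by omega
  unfold xf
  rw [dif_pos h]
  show S.x0 (2 * j + 1) = S.θ j
  unfold x0
  rw [if_neg (by omega)]
  congr 1
  omega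

theorem cvol_eq {a : ℕ → ℤ} (S : CP n (fun i => decide (0 < a i)) (fun i => (a i).natAbs))
    (ha : ∀ i ≤ n, 1000 ≤ (a i).natAbs) :
    2 * π * (S.PhiN S.x0N + π * Complex.I * (n + 1) - π * Complex.I *
      (∑ i ∈ range (n + 1), (sg (decide (0 < a i)) : ℂ) * (a i).natAbs) / 2) =
        cvolN a n S.xx S.zz := by
  have ht := fun i (hi : i ≤ n) => S.t_pos ha hi
  have hθ := S.hθ
  set Θ : ℕ → ℂ := fun j => TheC (S.θ j) (S.h j) with hΘ
  set T : ℕ → ℂ := fun i => tauC (decide (0 < a i)) (S.t i) (S.y i) with hT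
  set g : ℕ → ℂ := fun i => (sg (decide (0 < a i)) : ℂ) with hg
  have rΘ : ∀ j, (Θ j).re = S.θ j := by
    intro j
    simp [hΘ, TheC]
  have rT : ∀ i, (T i).re = S.t i := by
    intro i
    simp only [hT, tauC]
    simp
  have hphi : S.PhiN S.x0N = ∑ i ∈ range (n + 1), g i * (2 * π * Complex.I *
      ((a i).natAbs * T i ^ 2 - T i)) + ∑ j ∈ range n, (FF (Θ j + T j) + FF (Θ j - T j) +
      (FF (Θ j + T (j + 1)) + FF (Θ j - T (j + 1))) + 4 * FF (1 / 2 - Θ j)) := by
    unfold PhiN Phi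
    congr 1
    · refine sum_congr rfl fun i hi => ?_
      rw [mem_range] at hi
      rw [xf_even S (by omega)]
      rfl
    · refine sum_congr rfl fun j hj => ?_
      rw [mem_range] at hj
      rw [xf_even S (by omega), xf_odd S hj, xf_even S (by omega)]
      rfl
  have hg2 : ∀ i, g i ^ 2 = 1 := by
    intro i
    rcases sg_cases (decide (0 < a i)) with h | h <;> simp [hg, h]
  -- the logarithms
  have lx : ∀ j < n, Complex.log (S.xx j) = -(2 * π * Complex.I) * Θ j := by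
    intro j hj
    refine KX.log_exp_strip ?_
    have h1 := abs_le.1 (hθ j hj)
    show |(Θ j).re| < 1 / 2
    rw [rΘ, abs_lt]
    constructor <;> linarith [h1.1, h1.2]
  have lz : ∀ i ≤ n, Complex.log (-S.zz i) = -(2 * π * Complex.I) * (g i * T i) := by
    intro i hi
    unfold zz
    rw [neg_neg]
    refine KX.log_exp_strip ?_
    show |((sg (decide (0 < a i)) : ℂ) * T i).re| < 1 / 2
    obtain ⟨h1, h2⟩ := ht i hi
    rw [Complex.re_ofReal_mul, rT, abs_mul]
    rcases sg_cases (decide (0 < a i)) with h | h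
    · rw [h, abs_one, one_mul, abs_lt]
      constructor <;> linarith
    · rw [h, abs_neg, abs_one, one_mul, abs_lt]
      constructor <;> linarith
  have hnode : ∀ j ∈ range n, dilog (S.xx j * S.zz j) + dilog (S.xx j / S.zz j) +
      dilog (S.xx j * S.zz (j + 1)) + dilog (S.xx j / S.zz (j + 1)) + 4 * dilog (1 / S.xx j) -
      8 * dilog (-1) + 2 * Complex.log (S.xx j) ^ 2 + 2 * π * Complex.I * Complex.log (S.xx j) +
      (Complex.log (-S.zz j) ^ 2 + Complex.log (-S.zz (j + 1)) ^ 2) / 2 - π ^ 2 =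
      2 * π * Complex.I * (FF (Θ j + T j) + FF (Θ j - T j) +
      (FF (Θ j + T (j + 1)) + FF (Θ j - T (j + 1))) + 4 * FF (1 / 2 - Θ j)) := by
    intro j hj
    rw [mem_range] at hj
    have hθj := abs_le.1 (hθ j hj)
    obtain ⟨a1, a2⟩ := ht j hj.le
    obtain ⟨b1, b2⟩ := ht (j + 1) hj
    have p1 := pair_eq (decide (0 < a j)) (Θ := Θ j) (τ := T j)
      (by rw [Complex.add_re, rΘ, rT, abs_lt]; constructor <;> linarith [hθj.1, hθj.2])
      (by rw [Complex.sub_re, rΘ, rT, abs_lt]; constructor <;> linarith [hθj.1, hθj.2])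
    have p2 := pair_eq (decide (0 < a (j + 1))) (Θ := Θ j) (τ := T (j + 1))
      (by rw [Complex.add_re, rΘ, rT, abs_lt]; constructor <;> linarith [hθj.1, hθj.2])
      (by rw [Complex.sub_re, rΘ, rT, abs_lt]; constructor <;> linarith [hθj.1, hθj.2])
    have p3 := inv_eq (Θ := Θ j) (by
      have : (1 / 2 - Θ j).re = 1 / 2 - S.θ j := by
        rw [Complex.sub_re, rΘ]
        norm_num
      rw [this, abs_lt]
      constructor <;> linarith [hθj.1, hθj.2])
    have q1 : dilog (S.xx j * S.zz j) + dilog (S.xx j / S.zz j) =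
      2 * π * Complex.I * (FF (Θ j + T j) + FF (Θ j - T j)) + 2 * dilog (-1) +
        π ^ 2 * (2 * Θ j ^ 2 + 2 * T j ^ 2) := p1
    have q2 : dilog (S.xx j * S.zz (j + 1)) + dilog (S.xx j / S.zz (j + 1)) =
      2 * π * Complex.I * (FF (Θ j + T (j + 1)) + FF (Θ j - T (j + 1))) + 2 * dilog (-1) +
        π ^ 2 * (2 * Θ j ^ 2 + 2 * T (j + 1) ^ 2) := p2
    have q3 : dilog (1 / S.xx j) =
      2 * π * Complex.I * FF (1 / 2 - Θ j) + dilog (-1) + π ^ 2 * (1 / 2 - Θ j) ^ 2 := p3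
    rw [lx j hj, lz j hj.le, lz (j + 1) hj]
    have hI := Complex.I_sq
    have g1 := hg2 j
    have g2 := hg2 (j + 1)
    linear_combination (exp := 1) q1 + q2 + 4 * q3 +
      (8 * π ^ 2 * Θ j ^ 2 - 4 * π ^ 2 * Θ j + 2 * π ^ 2 * (g j * T j) ^ 2 +
        2 * π ^ 2 * (g (j + 1) * T (j + 1)) ^ 2) * hI -
      2 * π ^ 2 * T j ^ 2 * g1 - 2 * π ^ 2 * T (j + 1) ^ 2 * g2
  have hreg : ∀ i ∈ range (n + 1), (a i : ℂ) * Complex.log (-S.zz i) ^ 2 +
      2 * π * Complex.I * Complex.log (-S.zz i) + π ^ 2 * (a i - 2) =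
      2 * π * Complex.I * (g i * (2 * π * Complex.I * ((a i).natAbs * T i ^ 2 - T i))) +
        (-(2 * π ^ 2) + π ^ 2 * (g i * (a i).natAbs)) := by
    intro i hi
    rw [mem_range] at hi
    rw [lz i (by omega)]
    have h1 : (a i : ℂ) = g i * ((a i).natAbs : ℂ) := int_eq_sg (a i)
    have hI := Complex.I_sq
    have g1 := hg2 i
    rw [h1]
    linear_combination (exp := 1) (4 * π ^ 2 * g i * ((a i).natAbs : ℂ) * T i ^ 2 *
      Complex.I ^ 2) * g1
  have hs1 : ∑ j ∈ range n, 2 * π * Complex.I * (FF (Θ j + T j) + FF (Θ j - T j) +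
      (FF (Θ j + T (j + 1)) + FF (Θ j - T (j + 1))) + 4 * FF (1 / 2 - Θ j)) =
      2 * π * Complex.I * ∑ j ∈ range n, (FF (Θ j + T j) + FF (Θ j - T j) +
      (FF (Θ j + T (j + 1)) + FF (Θ j - T (j + 1))) + 4 * FF (1 / 2 - Θ j)) :=
    (mul_sum _ _ _).symm
  have hs2 : ∑ i ∈ range (n + 1),
      (2 * π * Complex.I * (g i * (2 * π * Complex.I * ((a i).natAbs * T i ^ 2 - T i))) +
        (-(2 * π ^ 2) + π ^ 2 * (g i * (a i).natAbs))) =
      2 * π * Complex.I * ∑ i ∈ range (n + 1),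
        (g i * (2 * π * Complex.I * ((a i).natAbs * T i ^ 2 - T i))) +
        (-(2 * π ^ 2) * (n + 1) + π ^ 2 * ∑ i ∈ range (n + 1), g i * ((a i).natAbs : ℂ)) := by
    rw [sum_add_distrib, sum_add_distrib, mul_sum, mul_sum, sum_const, card_range, nsmul_eq_mul]
    push_cast
    ring
  have hs3 : ∑ i ∈ range (n + 1), (sg (decide (0 < a i)) : ℂ) * (a i).natAbs =
      ∑ i ∈ range (n + 1), g i * ((a i).natAbs : ℂ) := rfl
  unfold cvolN
  rw [eq_div_iff Complex.I_ne_zero, hphi, sum_congr rfl hnode, sum_congr rfl hreg, hs1, hs2, hs3]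
  have hI := Complex.I_sq
  linear_combination (exp := 1) (2 * π ^ 2 * (n + 1) -
    π ^ 2 * ∑ i ∈ range (n + 1), g i * ((a i).natAbs : ℂ)) * hI

end CP

end Pool.Agent.Kashaev.KC
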