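import Pool.Agent.Kashaev.KC.SSm
import Pool.Agent.KSM.P16

/-!
The transfer matrices at the root of unity in terms of the functional `DG`.
Proof. Positive sign: as `ftwist_eq` (KX/Formula) with the additional even factor `pD N M z`
(invariant under `z ↦ -1 - z` and `z ↦ z + N`, `SS_reflect` applies to `QP` functions):
`pD N M z = exp (π i M ^ 2 / N) QM N M τ`, `τ = (z + 1/2) / N - 1/2` (`factor_eq`), so
`tp ζ p M (N - 1 - M') = ζ ^ M / qp ζ M * exp (π i M ^ 2 / N) * (-(fcp p N M' / (4 π i N))) *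
DF p N (QM N M * QM N M')`. Phases: `qp ζ M * fc0 N M = (-1) ^ M exp (π i M / N)`,
`qp ζ M * conj (fc0 N M) = exp (π i M ^ 2 / N)`,
`Ek ζ k fc0 N M' = conj (fc0 N M') / ζ` for `k = N - 1 - M'` (`fphase` and `|fc0| = 1 / PP`),
`fcp p N M' = 2 i ζ ^ (1 / 2) exp (π i p (1 - 1 / (2 N) - N / 2)) fc0 N M'`.
Negative sign: `MM ζ a = tp ζ⁻¹ p = conj (tp ζ p)` (`tp_conj`). Both signs give the stated formula.
-/

namespace Pool.Agent.Kashaev.KC

open Finset
open Pool.Agent.Kashaev.KW
open Pool.Agent.Kashaev.KV hiding cc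
open Pool.Agent.Kashaev.KX (fc0 fcp cc)

open scoped Real

private lemma mz_pD_reflect (N m : ℕ) (z : ℂ) : pD N m (-1 - z) = pD N m z := by
  unfold pD
  refine prod_congr rfl fun i _ => ?_
  have e1 : -1 - z + i + 1 = i - z := by ring
  have e2 : (i : ℂ) - (-1 - z) = z + i + 1 := by ring
  rw [e1, e2]
  ring

private lemma mz_pD_add {N : ℕ} (hN : 1 ≤ N) (m : ℕ) (z : ℂ) : pD N m (z + N) = pD N m z := by
  unfold pD
  refine prod_congr rfl fun i _ => ?_
  have e1 : z + N + i + 1 = z + i + 1 + N := by ring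
  have e2 : (i : ℂ) - (z + N) = i - z - N := by ring
  rw [e1, e2, eN_add_self hN, eN_sub_self hN]

private lemma mz_pD_diff (N m : ℕ) : Differentiable ℂ (pD N m) := by
  have : pD N m = ∏ i ∈ range m, fun z : ℂ => (1 - eN N (z + i + 1)) * (1 - eN N (i - z)) := by
    ext z
    rw [Finset.prod_apply]
    rfl
  rw [this]
  refine Differentiable.finsetProd fun i _ => Differentiable.mul ?_ ?_
  · exact (differentiable_const _).sub (eN_differentiable N (by fun_prop))
  · exact (differentiable_const _).sub (eN_differentiable N (by fun_prop))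

private lemma mz_prod_eN {N : ℕ} (hN : 1 ≤ N) (m : ℕ) :
    ∏ i ∈ range m, eN N (i + 1 / 2) = Complex.exp (π * Complex.I * m ^ 2 / N) := by
  have hN' : (N : ℂ) ≠ 0 := Nat.cast_ne_zero.2 (by omega)
  induction m with
  | zero => simp
  | succ m ih =>
    rw [prod_range_succ, ih]
    unfold eN
    rw [← Complex.exp_add]
    congr 1
    push_cast
    field_simp
    ring

private lemma mz_pD_eq {N : ℕ} (hN : 1 ≤ N) (m : ℕ) (z : ℂ) :
    pD N m z = Complex.exp (π * Complex.I * m ^ 2 / N) * QM N m ((z + 1 / 2) / N - 1 / 2) := by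
  rw [← mz_prod_eN hN]
  unfold pD QM
  rw [← prod_mul_distrib]
  refine prod_congr rfl fun i _ => ?_
  rw [factor_eq hN]
  have e : 2 * π * ((i : ℂ) + 1 / 2) / N = π * (2 * i + 1) / N := by ring
  rw [e]

private lemma mz_EF_diff (p N : ℕ) {f : ℂ → ℂ} (hf : Differentiable ℂ f) :
    Differentiable ℂ (EF p N f) := by
  unfold EF
  exact Differentiable.mul (by fun_prop) hf

private lemma mz_SS_exp {p N : ℕ} (hN : 1 ≤ N) {G : ℂ → ℂ} (hG : Differentiable ℂ G) (c : ℂ) :
    SS p N (fun z => Complex.exp (2 * π * Complex.I * p * z) *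
      (c * G ((z + 1 / 2) / N - 1 / 2))) =
      -(c / (2 * π * Complex.I * N)) * ∑ r ∈ range N, deriv G (tau N r) := by
  have hN' : (N : ℂ) ≠ 0 := Nat.cast_ne_zero.2 (by omega)
  have hI : (2 * π * Complex.I : ℂ) ≠ 0 := Complex.two_pi_I_ne_zero
  unfold SS
  rw [mul_sum]
  refine sum_congr rfl fun r _ => ?_
  have hexp : Complex.exp (2 * π * Complex.I * (p : ℂ) * (r : ℂ)) = 1 := by
    rw [Complex.exp_eq_one_iff]
    refine ⟨(p : ℤ) * r, ?_⟩
    push_cast
    ring
  have hd1 : HasDerivAt (fun z : ℂ => Complex.exp (2 * π * Complex.I * (p : ℂ) * z))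
      (2 * π * Complex.I * (p : ℂ)) r := by
    have := ((hasDerivAt_id' (r : ℂ)).const_mul (2 * π * Complex.I * (p : ℂ))).cexp
    rw [hexp] at this
    simpa using this
  have hd2 : HasDerivAt (fun z : ℂ => c * G ((z + 1 / 2) / N - 1 / 2))
      (c * (deriv G (tau N r) * (1 / N))) r := by
    have h4 : HasDerivAt (fun z : ℂ => (z + 1 / 2) / N - 1 / 2) (1 / N) (r : ℂ) :=
      (((hasDerivAt_id' (r : ℂ)).add_const _).div_const _).sub_const _
    have h5 : HasDerivAt G (deriv G (tau N r)) (((r : ℂ) + 1 / 2) / N - 1 / 2) :=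
      (hG _).hasDerivAt
    exact (h5.comp (r : ℂ) h4).const_mul c
  have hd3 : deriv (fun z : ℂ => Complex.exp (2 * π * Complex.I * (p : ℂ) * z) *
      (c * G ((z + 1 / 2) / N - 1 / 2))) r =
      2 * π * Complex.I * (p : ℂ) * (c * G (tau N r)) + c * (deriv G (tau N r) * (1 / N)) := by
    have h := (hd1.mul hd2).deriv
    rw [hexp, one_mul] at h
    exact h
  rw [hd3]
  simp only [hexp, one_mul]
  change (p : ℂ) * (c * G (tau N r)) - _ = _
  field_simp
  ring

private lemma mz_tp_eq {p N M M' : ℕ} (hp : 1 ≤ p) (hN : 2 ≤ N) (hM : M < N) (hM' : M' < N) :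
    tp (zeta N) p M (N - 1 - M') = zeta N ^ M / qp (zeta N) M *
      (-(fcp p N M' * Complex.exp (π * Complex.I * M ^ 2 / N) / (4 * π * Complex.I * N)) *
        DF p N (fun τ => QM N M τ * QM N M' τ)) := by
  have hN1 : 1 ≤ N := by omega
  have hN' : (N : ℂ) ≠ 0 := Nat.cast_ne_zero.2 (by omega)
  have hpi : (π : ℂ) ≠ 0 := by exact_mod_cast Real.pi_ne_zero
  have hIne := Complex.I_ne_zero
  rw [tp_eq_SS hp hN hM (by omega : N - 1 - M' < N)]
  congr 1
  set k := N - 1 - M' with hk
  have hOm := Om_QP hN1 p 1 k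
  have hQ : QP p N (fun z => pD N M z * Om p 1 N k z) :=
    ⟨(mz_pD_diff N M).mul hOm.diff, fun z => by rw [mz_pD_add hN1, hOm.per]; ring⟩
  have h1 := SS_reflect hN1 hQ
  have e1 : (fun z => (eN N (-z) - zeta N * eN N z) * (pD N M z * Om p 0 N k z)) =
      fun z => pD N M z * Om p 1 N k z + (-1) * (pD N M (-1 - z) * Om p 1 N k (-1 - z)) := by
    ext z
    rw [Om_succ, Om_succ, Om_zero_reflect, mz_pD_reflect]
    have e2 : eN N (-(-1 - z)) = zeta N * eN N z := by
      have := eN_natCast N 1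
      rw [pow_one, Nat.cast_one] at this
      rw [← this, ← eN_add]
      congr 1
      ring
    rw [e2]
    ring
  have hd : Differentiable ℂ (fun z => pD N M (-1 - z) * Om p 1 N k (-1 - z)) :=
    hQ.diff.comp (by fun_prop : Differentiable ℂ (fun z : ℂ => -1 - z))
  have h2 : SS p N (fun z => (eN N (-z) - zeta N * eN N z) * (pD N M z * Om p 0 N k z)) =
      2 * SS p N (fun z => pD N M z * Om p 1 N k z) := by
    rw [e1, SS_add _ _ hQ.diff (hd.const_mul _), SS_const_mul _ _ _ hd, h1]
    ring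
  have hG : Differentiable ℂ (EF p N (fun τ => QM N M τ * QM N M' τ)) :=
    mz_EF_diff p N ((QM_differentiable N M).mul (QM_differentiable N M'))
  have e3 : (fun z => (eN N (-z) - zeta N * eN N z) * (pD N M z * Om p 0 N k z)) =
      fun z => Complex.exp (2 * π * Complex.I * p * z) *
        ((fcp p N M' * Complex.exp (π * Complex.I * M ^ 2 / N)) *
          EF p N (fun τ => QM N M τ * QM N M' τ) ((z + 1 / 2) / N - 1 / 2)) := by
    ext z
    have h3 := Pool.Agent.Kashaev.KX.fsummand_eq hM' p z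
    rw [← hk] at h3
    rw [show (eN N (-z) - zeta N * eN N z) * (pD N M z * Om p 0 N k z) =
      pD N M z * ((eN N (-z) - zeta N * eN N z) * Om p 0 N k z) by ring, h3, mz_pD_eq hN1]
    unfold EF EE
    ring
  rw [e3, mz_SS_exp hN1 hG] at h2
  have h4 : SS p N (fun z => pD N M z * Om p 1 N k z) =
      (1 / 2 : ℂ) * (2 * SS p N (fun z => pD N M z * Om p 1 N k z)) := by ring
  rw [h4, ← h2]
  unfold DF
  field_simp
  ring

private lemma mz_one_sub_zeta {N j : ℕ} (hN : 1 ≤ N) :
    1 - zeta N ^ (j + 1) = Complex.exp (π * Complex.I * (j + 1) / N) *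
      (-Complex.I * ((2 * Real.sin (π * (j + 1) / N) : ℝ) : ℂ)) := by
  have hN' : (N : ℂ) ≠ 0 := Nat.cast_ne_zero.2 (by omega)
  have e1 : zeta N ^ (j + 1) = Complex.exp (π * Complex.I * (j + 1) / N) *
      Complex.exp (π * Complex.I * (j + 1) / N) := by
    unfold zeta
    rw [← Complex.exp_nat_mul, ← Complex.exp_add]
    congr 1
    push_cast
    ring
  have e2 : ((2 * Real.sin (π * (j + 1) / N) : ℝ) : ℂ) =
      (Complex.exp (-(π * Complex.I * (j + 1) / N)) - Complex.exp (π * Complex.I * (j + 1) / N)) *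
        Complex.I := by
    push_cast
    rw [Complex.sin]
    have a3 : -(π * ((j : ℂ) + 1) / N) * Complex.I = -(π * Complex.I * (j + 1) / N) := by ring
    have a4 : (π * ((j : ℂ) + 1) / N) * Complex.I = π * Complex.I * (j + 1) / N := by ring
    rw [a3, a4]
    ring
  have e3 : Complex.exp (π * Complex.I * (j + 1) / N) *
      Complex.exp (-(π * Complex.I * (j + 1) / N)) = 1 := by
    rw [← Complex.exp_add, add_neg_cancel, Complex.exp_zero]
  rw [e1, e2]
  linear_combination -e3 + (Complex.exp (π * Complex.I * (j + 1) / N) *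
    (Complex.exp (-(π * Complex.I * (j + 1) / N)) - Complex.exp (π * Complex.I * (j + 1) / N))) *
      Complex.I_sq

private lemma mz_sin_ne {N j : ℕ} (hj : j + 1 < N) :
    ((2 * Real.sin (π * (j + 1) / N) : ℝ) : ℂ) ≠ 0 := by
  have hNr : (0 : ℝ) < N := by exact_mod_cast (by omega : 0 < N)
  have hs : 0 < Real.sin (π * (j + 1) / N) := by
    apply Real.sin_pos_of_pos_of_lt_pi
    · positivity
    · rw [div_lt_iff₀ hNr]
      have : ((j : ℝ) + 1) < N := by exact_mod_cast hj
      exact mul_lt_mul_of_pos_left this Real.pi_pos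
  exact_mod_cast (by positivity : (2 * Real.sin (π * (j + 1) / N)) ≠ 0)

private lemma mz_fc0_succ {N M : ℕ} (hM : M + 1 < N) :
    fc0 N (M + 1) = fc0 N M * (-Complex.I * Complex.exp (-(π * Complex.I * M / N)) /
      ((2 * Real.sin (π * (M + 1) / N) : ℝ) : ℂ)) := by
  unfold fc0
  rw [prod_range_succ, Pool.Agent.Kashaev.KX.fc0_factor (by omega)]

private lemma mz_qp_fc0 {N M : ℕ} (hM : M < N) :
    qp (zeta N) M * fc0 N M = (-1) ^ M * Complex.exp (π * Complex.I * M / N) := by
  have hN' : (N : ℂ) ≠ 0 := Nat.cast_ne_zero.2 (by omega)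
  induction M with
  | zero => simp [qp, fc0]
  | succ M ih =>
    have ih' := ih (by omega)
    have hs := mz_sin_ne hM
    have e1 : qp (zeta N) (M + 1) = qp (zeta N) M * (1 - zeta N ^ (M + 1)) := by
      unfold qp
      rw [prod_range_succ]
    have e2 : Complex.exp (π * Complex.I * (M + 1) / N) * Complex.exp (-(π * Complex.I * M / N)) =
        Complex.exp (π * Complex.I / N) := by
      rw [← Complex.exp_add]
      congr 1
      ring
    have e3 : Complex.exp (π * Complex.I * ((M + 1 : ℕ) : ℂ) / N) =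
        Complex.exp (π * Complex.I * M / N) * Complex.exp (π * Complex.I / N) := by
      rw [← Complex.exp_add]
      congr 1
      push_cast
      ring
    rw [e1, mz_fc0_succ hM, mz_one_sub_zeta (by omega : 1 ≤ N), e3, pow_succ]
    generalize ((2 * Real.sin (π * (M + 1) / N) : ℝ) : ℂ) = s at *
    have e4 : qp (zeta N) M * (Complex.exp (π * Complex.I * (M + 1) / N) * (-Complex.I * s)) *
        (fc0 N M * (-Complex.I * Complex.exp (-(π * Complex.I * M / N)) / s)) =
        (qp (zeta N) M * fc0 N M) * (Complex.exp (π * Complex.I * (M + 1) / N) *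
          Complex.exp (-(π * Complex.I * M / N))) * Complex.I ^ 2 := by
      field_simp
    rw [e4, ih', e2, Complex.I_sq]
    ring

private lemma mz_qp_fc0c {N M : ℕ} (hM : M < N) :
    qp (zeta N) M * (starRingEnd ℂ) (fc0 N M) = Complex.exp (π * Complex.I * M ^ 2 / N) := by
  have hN' : (N : ℂ) ≠ 0 := Nat.cast_ne_zero.2 (by omega)
  induction M with
  | zero => simp [qp, fc0]
  | succ M ih =>
    have ih' := ih (by omega)
    have hs := mz_sin_ne hM
    have e1 : qp (zeta N) (M + 1) = qp (zeta N) M * (1 - zeta N ^ (M + 1)) := by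
      unfold qp
      rw [prod_range_succ]
    have e0 : (starRingEnd ℂ) (Complex.exp (-(π * Complex.I * M / N))) =
        Complex.exp (π * Complex.I * M / N) := by
      rw [← Complex.exp_conj]
      congr 1
      simp only [map_neg, map_div₀, map_mul, Complex.conj_ofReal, Complex.conj_I, map_natCast]
      ring
    have e3 : Complex.exp (π * Complex.I * ((M + 1 : ℕ) : ℂ) ^ 2 / N) =
        Complex.exp (π * Complex.I * M ^ 2 / N) * (Complex.exp (π * Complex.I * (M + 1) / N) *
          Complex.exp (π * Complex.I * M / N)) := by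
      rw [← Complex.exp_add, ← Complex.exp_add]
      congr 1
      push_cast
      ring
    rw [e1, mz_fc0_succ hM, mz_one_sub_zeta (by omega : 1 ≤ N), e3, map_mul, map_div₀, map_mul, map_neg,
      Complex.conj_I, e0, Complex.conj_ofReal]
    generalize ((2 * Real.sin (π * (M + 1) / N) : ℝ) : ℂ) = s at *
    have e4 : qp (zeta N) M * (Complex.exp (π * Complex.I * (M + 1) / N) * (-Complex.I * s)) *
        ((starRingEnd ℂ) (fc0 N M) * (- -Complex.I * Complex.exp (π * Complex.I * M / N) / s)) =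
        (qp (zeta N) M * (starRingEnd ℂ) (fc0 N M)) * (Complex.exp (π * Complex.I * (M + 1) / N) *
          Complex.exp (π * Complex.I * M / N)) * (-Complex.I ^ 2) := by
      field_simp
    rw [e4, ih', Complex.I_sq]
    ring

private lemma mz_qp_ne {N M : ℕ} (hM : M < N) : qp (zeta N) M ≠ 0 := by
  intro h
  have := mz_qp_fc0c hM
  rw [h, zero_mul] at this
  exact Complex.exp_ne_zero _ this.symm

private lemma mz_zeta_pow (N m : ℕ) : zeta N ^ m = Complex.exp (2 * π * Complex.I * m / N) := by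
  unfold zeta
  rw [← Complex.exp_nat_mul]
  congr 1
  ring

private lemma mz_even_mul (k : ℕ) : 2 ∣ k * (k + 3) := by
  rcases Nat.even_or_odd k with h | h
  · exact (h.two_dvd).mul_right _
  · have : Even (k + 3) := h.add_odd (by decide)
    exact (this.two_dvd).mul_left _

lemma mz_Ek_ne {q : ℂ} (hq : q ≠ 0) (k : ℕ) : Ek q k ≠ 0 := by
  unfold Ek
  exact mul_ne_zero (pow_ne_zero _ (by norm_num)) (pow_ne_zero _ hq)

/-- (B) -/
private lemma mz_phase_B {N M : ℕ} (hM : M < N) :
    Ek (zeta N) M * qp (zeta N) M * fc0 N M =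
      zeta N ^ (2 * M) * Complex.exp (π * Complex.I * M ^ 2 / N) := by
  have hN' : (N : ℂ) ≠ 0 := Nat.cast_ne_zero.2 (by omega)
  rw [mul_assoc, mz_qp_fc0 hM]
  unfold Ek
  rw [mz_zeta_pow, mz_zeta_pow, Nat.cast_div (mz_even_mul M) (by norm_num)]
  have h1 : ((-1 : ℂ)) ^ M * (-1) ^ M = 1 := by rw [← mul_pow]; norm_num
  have h2 : Complex.exp (2 * π * Complex.I * (((M * (M + 3) : ℕ) : ℂ) / ((2 : ℕ) : ℂ)) / N) *
      Complex.exp (π * Complex.I * M / N) =
      Complex.exp (2 * π * Complex.I * ((2 * M : ℕ) : ℂ) / N) *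
        Complex.exp (π * Complex.I * M ^ 2 / N) := by
    rw [← Complex.exp_add, ← Complex.exp_add]
    congr 1
    push_cast
    field_simp
    ring
  calc (-1) ^ M * Complex.exp (2 * π * Complex.I * (((M * (M + 3) : ℕ) : ℂ) / ((2 : ℕ) : ℂ)) / N) *
      ((-1) ^ M * Complex.exp (π * Complex.I * M / N)) =
      ((-1) ^ M * (-1) ^ M) * (Complex.exp (2 * π * Complex.I *
        (((M * (M + 3) : ℕ) : ℂ) / ((2 : ℕ) : ℂ)) / N) * Complex.exp (π * Complex.I * M / N)) := by
        ring
    _ = _ := by rw [h1, h2, one_mul]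

/-- The modulus of `fc0`. -/
lemma mz_fc0_conj {N M : ℕ} (hM : M < N) :
    fc0 N M * (starRingEnd ℂ) (fc0 N M) * ((PP N M : ℝ) : ℂ) ^ 2 = 1 := by
  have h3 := congrArg (fun z : ℂ => ‖z‖) (Pool.Agent.Kashaev.KX.fc0_sq hM)
  simp only [norm_mul, norm_pow, norm_neg, norm_one, one_pow, one_mul] at h3
  have h4 : ‖Complex.exp (-(π * Complex.I * (M * (M - 1)) / N))‖ = 1 := by
    have : (-(π * Complex.I * ((M : ℂ) * (M - 1)) / N) : ℂ) =
        ((-(π * (M * (M - 1)) / N) : ℝ) : ℂ) * Complex.I := by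
      push_cast
      ring
    rw [this, Complex.norm_exp_ofReal_mul_I]
  rw [h4, Complex.norm_real, Real.norm_eq_abs, sq_abs] at h3
  rw [Complex.mul_conj']
  exact_mod_cast h3

/-- (A) -/
lemma mz_phase_A {N M : ℕ} (hM : M < N) :
    Ek (zeta N) (N - 1 - M) * fc0 N M * zeta N = (starRingEnd ℂ) (fc0 N M) := by
  have hPP : ((PP N M : ℝ) : ℂ) ≠ 0 := by exact_mod_cast (PP_pos hM).ne'
  have h1 := Pool.Agent.Kashaev.KX.fphase hM
  have h2 := mz_fc0_conj hM
  have hf : fc0 N M ≠ 0 := by
    intro h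
    rw [h, zero_mul, zero_mul] at h2
    exact zero_ne_one h2
  have h3 : fc0 N M * ((PP N M : ℝ) : ℂ) ^ 2 ≠ 0 := mul_ne_zero hf (pow_ne_zero 2 hPP)
  refine mul_right_cancel₀ h3 ?_
  unfold Ek
  linear_combination h1 - h2

private lemma mz_exp_conj_neg (x : ℝ) : (starRingEnd ℂ) (Complex.exp (x * Complex.I)) =
    Complex.exp (-(x * Complex.I)) := by
  rw [← Complex.exp_conj]
  congr 1
  simp

private lemma mz_QM_conj (N M : ℕ) (τ : ℂ) :
    (starRingEnd ℂ) (QM N M ((starRingEnd ℂ) τ)) = QM N M τ := by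
  unfold QM
  rw [map_prod]
  refine prod_congr rfl fun j _ => ?_
  rw [map_add, map_mul, map_mul, ← Complex.cos_conj, ← Complex.cos_conj]
  simp only [map_mul, map_ofNat, Complex.conj_ofReal, Complex.conj_conj, map_div₀, map_add,
    map_natCast, map_one]

theorem MM_zeta {a : ℤ} (ha : a ≠ 0) {N M M' : ℕ} (hN : 2 ≤ N) (hM : M < N) (hM' : M' < N) :
    MM (zeta N) a M (N - 1 - M') =
      -(Complex.exp (Real.pi * Complex.I * a * (1 - 1 / (2 * N) - N / 2)) *
        Complex.exp (-(Real.pi * Complex.I * (2 * M + 1) / N)) * fc0 N M *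
          (starRingEnd ℂ) (fc0 N M') / (2 * Real.pi * N)) *
        DG (decide (0 < a)) a.natAbs N (fun τ => QM N M τ * QM N M' τ) := by
  have hN' : (N : ℂ) ≠ 0 := Nat.cast_ne_zero.2 (by omega)
  have hpi : (π : ℂ) ≠ 0 := by exact_mod_cast Real.pi_ne_zero
  have hIne := Complex.I_ne_zero
  have hp : 1 ≤ a.natAbs := by omega
  have hq := mz_qp_ne hM
  have hz0 : zeta N ≠ 0 := Complex.exp_ne_zero _
  have ht := mz_tp_eq hp hN hM hM'
  have hfcp : fcp a.natAbs N M' = 2 * Complex.I * eN N (1 / 2) *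
      Complex.exp (π * Complex.I * a.natAbs - π * Complex.I * a.natAbs / (2 * N) -
        π * Complex.I * a.natAbs * N / 2) * fc0 N M' := rfl
  have hX : Complex.exp (-(π * Complex.I * (2 * M + 1) / N)) * (zeta N ^ M * eN N (1 / 2)) =
      1 := by
    rw [mz_zeta_pow]
    unfold eN
    rw [← Complex.exp_add, ← Complex.exp_add]
    rw [show -(π * Complex.I * (2 * (M : ℂ) + 1) / N) + (2 * π * Complex.I * M / N +
      2 * π * Complex.I / N * (1 / 2)) = 0 by ring, Complex.exp_zero]
  rcases lt_or_gt_of_ne ha with hneg | hpos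
  · -- negative sign
    have hdec : decide (0 < a) = false := by
      rw [decide_eq_false_iff_not]; omega
    have hcast : ((a.natAbs : ℕ) : ℂ) = -(a : ℂ) := by
      have h1 : ((a.natAbs : ℕ) : ℤ) = -a := by omega
      have h2 : (((a.natAbs : ℕ) : ℤ) : ℂ) = ((-a : ℤ) : ℂ) := by rw [h1]
      rw [Int.cast_natCast, Int.cast_neg] at h2
      exact h2
    have hzc : (starRingEnd ℂ) (zeta N) = (zeta N)⁻¹ := by
      unfold zeta
      rw [← Complex.exp_conj, ← Complex.exp_neg]
      congr 1
      simp only [map_div₀, map_mul, Complex.conj_ofReal, Complex.conj_I, map_natCast, map_ofNat]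
      ring
    have hMM : MM (zeta N) a M (N - 1 - M') =
        (starRingEnd ℂ) (tp (zeta N) a.natAbs M (N - 1 - M')) := by
      unfold MM
      rw [if_neg (by omega), tp_conj, hzc]
    have hDG : DG (decide (0 < a)) a.natAbs N (fun τ => QM N M τ * QM N M' τ) =
        (starRingEnd ℂ) (DF a.natAbs N (fun τ => QM N M τ * QM N M' τ)) := by
      rw [hdec]
      unfold DG
      have h1 : cf false (fun τ => QM N M τ * QM N M' τ) = fun τ => QM N M τ * QM N M' τ := by
        ext τ
        unfold cf cc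
        simp only [Bool.false_eq_true, if_false, map_mul, mz_QM_conj]
      rw [h1]
      unfold cc
      simp
    have hPh : (starRingEnd ℂ) (Complex.exp (π * Complex.I * a.natAbs -
        π * Complex.I * a.natAbs / (2 * N) - π * Complex.I * a.natAbs * N / 2)) =
        Complex.exp (π * Complex.I * a * (1 - 1 / (2 * N) - N / 2)) := by
      rw [← Complex.exp_conj]
      congr 1
      simp only [map_sub, map_div₀, map_mul, Complex.conj_ofReal, Complex.conj_I, map_natCast,
        map_ofNat]
      rw [hcast]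
      ring
    have hXc : (starRingEnd ℂ) (zeta N ^ M * eN N (1 / 2)) =
        Complex.exp (-(π * Complex.I * (2 * M + 1) / N)) := by
      have h1 : zeta N ^ M * eN N (1 / 2) =
          Complex.exp (((π * (2 * M + 1) / N : ℝ) : ℂ) * Complex.I) := by
        rw [mz_zeta_pow]
        unfold eN
        rw [← Complex.exp_add]
        congr 1
        push_cast
        ring
      rw [h1, mz_exp_conj_neg]
      congr 1
      push_cast
      ring
    have hE2 := congrArg (starRingEnd ℂ) (mz_qp_fc0c hM)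
    rw [map_mul, Complex.conj_conj] at hE2
    have hqc : (starRingEnd ℂ) (qp (zeta N) M) ≠ 0 := by
      rw [Ne, map_eq_zero]; exact hq
    rw [hMM, ht, hDG, map_mul, map_mul, hfcp, ← mul_assoc]
    congr 1
    rw [map_div₀, map_neg, map_div₀, map_mul, map_mul, map_mul, map_mul, map_mul, hPh]
    simp only [map_mul, Complex.conj_I, map_ofNat, map_natCast, Complex.conj_ofReal]
    rw [← hXc, map_mul, ← hE2]
    field_simp
    ring
  · -- positive sign
    have hdec : decide (0 < a) = true := by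
      rw [decide_eq_true_iff]; exact hpos
    have hcast : ((a.natAbs : ℕ) : ℂ) = (a : ℂ) := by
      have h1 : ((a.natAbs : ℕ) : ℤ) = a := by omega
      have h2 : (((a.natAbs : ℕ) : ℤ) : ℂ) = ((a : ℤ) : ℂ) := by rw [h1]
      rw [Int.cast_natCast] at h2
      exact h2
    have hDG : DG (decide (0 < a)) a.natAbs N (fun τ => QM N M τ * QM N M' τ) =
        DF a.natAbs N (fun τ => QM N M τ * QM N M' τ) := by
      rw [hdec]
      unfold DG
      have h1 : cf true (fun τ => QM N M τ * QM N M' τ) = fun τ => QM N M τ * QM N M' τ := by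
        ext τ
        unfold cf cc
        simp
      rw [h1]
      unfold cc
      simp
    have hPh : Complex.exp (π * Complex.I * a.natAbs -
        π * Complex.I * a.natAbs / (2 * N) - π * Complex.I * a.natAbs * N / 2) =
        Complex.exp (π * Complex.I * a * (1 - 1 / (2 * N) - N / 2)) := by
      congr 1
      rw [hcast]
      ring
    have hA := mz_phase_A hM'
    have hB := mz_phase_B hM
    have hC := Pool.Agent.Kashaev.KX.feN_half_sq (N := N)
    have hEM := mz_Ek_ne hz0 M
    unfold MM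
    rw [if_pos hpos.le, ht, hDG, hfcp, hPh]
    rw [← mul_assoc, ← mul_assoc]
    congr 1
    rw [← hA]
    rw [mul_comm 2 M, pow_mul] at hB
    generalize Complex.exp (-(π * Complex.I * (2 * M + 1) / N)) = X at *
    generalize Complex.exp (π * Complex.I * a * (1 - 1 / (2 * N) - N / 2)) = Ph at *
    generalize Complex.exp (π * Complex.I * M ^ 2 / N) = E2 at *
    generalize Ek (zeta N) (N - 1 - M') = ek at *
    generalize Ek (zeta N) M = eM at *
    generalize qp (zeta N) M = q at *
    generalize eN N (1 / 2) = h at *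
    generalize zeta N ^ M = z at *
    generalize fc0 N M = f at *
    generalize fc0 N M' = f' at *
    generalize zeta N = y at *
    field_simp
    have key : z * h * E2 = X * f * y * eM * q := by
      have h1 : X * f * y * eM * q = X * y * (eM * q * f) := by ring
      rw [h1, hB, ← hC]
      linear_combination (-(z * h * E2)) * hX
    linear_combination (-4 * ek * f' * Ph) * key

end Pool.Agent.Kashaev.KC
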