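import Pool.Agent.KSM.P16
import Pool.Agent.Kashaev.KC.MMz

/-!
The exact formula for the Kashaev invariant.
Proof: put `G i M = DG (e i) (p i) N (fun σ => AK e p N i σ * QM N M σ)`. By induction on `i`
(from `AK_succ`, `DG_sum`, `DG_const_mul`, `MM_zeta`, reindexing `k = N - 1 - M` with
`sum_range_reflect`, `cyc N ζ k = (N / PP N M) ^ 2` (`weight_eq`, `fR_eq`), `|fc0 N M| = 1 / PP N M`):
`sZ a N i (N - 1 - M) = -(ph i * exp (-(π i / N)) conj (fc0 N M) / (2 π N)) * G i M * (2 π) ^ (-i)`,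
`ph i = exp (π i (a 0 + ... + a i) (1 - 1 / (2 N) - N / 2))`. In the last step
`(Ek ζ k)⁻¹ MM ζ (a n) 0 k = -(exp (π i a (...)) * exp (π i / N) * fc0 N M / (2 π N)) * DG (QM N M)`
(as `(Ek ζ k)⁻¹ conj (fc0 N M) = ζ fc0 N M`). `QM N 0 = 1`, `fc0 N 0 = 1`.
-/

namespace Pool.Agent.Kashaev.KC

open Finset Filter Topology
open Pool.Agent.Kashaev.KW
open Pool.Agent.Kashaev.KV hiding cc
open Pool.Agent.Kashaev.KX (fc0 sg)
open scoped Real

/-- the phase -/
private noncomputable def kzph (a : ℕ → ℤ) (N i : ℕ) : ℂ :=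
  Complex.exp (π * Complex.I * ((∑ j ∈ range (i + 1), a j : ℤ) : ℂ) * (1 - 1 / (2 * N) - N / 2))

private lemma phz_zero (a : ℕ → ℤ) (N : ℕ) :
    kzph a N 0 = Complex.exp (π * Complex.I * (a 0) * (1 - 1 / (2 * N) - N / 2)) := by
  unfold kzph
  simp

private lemma phz_succ (a : ℕ → ℤ) (N i : ℕ) : kzph a N (i + 1) =
    kzph a N i * Complex.exp (π * Complex.I * (a (i + 1)) * (1 - 1 / (2 * N) - N / 2)) := by
  unfold kzph
  rw [← Complex.exp_add]
  congr 1
  rw [sum_range_succ _ (i + 1)]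
  push_cast
  ring

/-- the coefficients of the states -/
private noncomputable def kzG (e : ℕ → Bool) (p : ℕ → ℕ) (N i M : ℕ) : ℂ :=
  DG (e i) (p i) N (fun σ => AK e p N i σ * QM N M σ)

private lemma kz_QM_zero (N : ℕ) (τ : ℂ) : QM N 0 τ = 1 := by simp [QM]

private lemma kz_cyc_eq {N M : ℕ} (hM : M < N) :
    cyc N (zeta N) (N - 1 - M) = (N / ((PP N M : ℝ) : ℂ)) ^ 2 := by
  unfold cyc
  rw [weight_eq (zeta_norm N) (zeta_prim (by omega)).pow_eq_one,
    Pool.Agent.Kashaev.KX.fR_eq hM]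
  push_cast
  rfl

private lemma kz_GG_succ (e : ℕ → Bool) (p : ℕ → ℕ) (N i M' : ℕ) :
    kzG e p N (i + 1) M' = ∑ M ∈ range N, kzG e p N i M / ((PP N M : ℝ) : ℂ) ^ 4 *
      DG (e (i + 1)) (p (i + 1)) N (fun σ => QM N M σ * QM N M' σ) := by
  unfold kzG
  have h1 : (fun σ => AK e p N (i + 1) σ * QM N M' σ) =
      fun σ => ∑ M ∈ range N, (DG (e i) (p i) N (fun σ => AK e p N i σ * QM N M σ) /
        ((PP N M : ℝ) : ℂ) ^ 4) * (QM N M σ * QM N M' σ) := by
    ext σ
    rw [AK_succ, sum_mul]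
    refine sum_congr rfl fun M _ => ?_
    ring
  have hd : ∀ M, Differentiable ℂ (fun σ => QM N M σ * QM N M' σ) := fun M =>
    (QM_differentiable N M).mul (QM_differentiable N M')
  rw [h1, DG_sum _ _ _ _ _ (fun M _ => (hd M).const_mul _)]
  refine sum_congr rfl fun M _ => ?_
  rw [DG_const_mul _ _ _ _ (hd M)]

private lemma kz_exp_reflect {N M : ℕ} (hM : M < N) :
    Complex.exp (-(π * Complex.I * (2 * ((N - 1 - M : ℕ) : ℂ) + 1) / N)) *
      Complex.exp (-(π * Complex.I * (2 * M + 1) / N)) = 1 := by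
  have hN' : (N : ℂ) ≠ 0 := Nat.cast_ne_zero.2 (by omega)
  have e3 : ((N - 1 - M : ℕ) : ℂ) = N - 1 - M := by
    rw [Nat.cast_sub (by omega), Nat.cast_sub (by omega)]
    push_cast
    ring
  rw [← Complex.exp_add, e3, Complex.exp_eq_one_iff]
  refine ⟨-1, ?_⟩
  push_cast
  field_simp
  ring

private lemma kz_sZ_eq {a : ℕ → ℤ} {N : ℕ} (hN : 2 ≤ N) (i : ℕ) (ha : ∀ j ≤ i, a j ≠ 0) :
    ∀ M < N, sZ a N i (N - 1 - M) =
      -(kzph a N i * Complex.exp (-(π * Complex.I / N)) * (starRingEnd ℂ) (fc0 N M) /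
        (2 * π * N)) * kzG (fun i => decide (0 < a i)) (fun i => (a i).natAbs) N i M /
          (2 * π) ^ i := by
  have hN' : (N : ℂ) ≠ 0 := Nat.cast_ne_zero.2 (by omega)
  have hpi : (π : ℂ) ≠ 0 := by exact_mod_cast Real.pi_ne_zero
  induction i with
  | zero =>
    intro M hM
    rw [sZ, MM_zeta (ha 0 le_rfl) hN (by omega : 0 < N) hM, phz_zero]
    have h1 : (fun τ => QM N 0 τ * QM N M τ) = fun τ => (1 : ℂ) * QM N M τ := by
      ext τ
      rw [kz_QM_zero]
    have h2 : fc0 N 0 = 1 := by simp [fc0]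
    have h3 : Complex.exp (-(π * Complex.I * (2 * ((0 : ℕ) : ℂ) + 1) / N)) =
        Complex.exp (-(π * Complex.I / N)) := by
      congr 1
      push_cast
      ring
    rw [h1, h2, h3]
    unfold kzG
    simp only [AK]
    rw [pow_zero]
    ring
  | succ i ih =>
    intro M' hM'
    have ih' := ih (fun j hj => ha j (by omega))
    rw [sZ, ← sum_range_reflect, kz_GG_succ, mul_sum, sum_div]
    refine sum_congr rfl fun M hM => ?_
    rw [mem_range] at hM
    have hPP : ((PP N M : ℝ) : ℂ) ≠ 0 := by exact_mod_cast (PP_pos hM).ne'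
    have hk : N - 1 - (N - 1 - M) = M := by omega
    have hX := kz_exp_reflect hM
    have hf := mz_fc0_conj hM
    rw [ih' M hM, kz_cyc_eq hM, hk, MM_zeta (ha (i + 1) le_rfl) hN hM hM', phz_succ]
    generalize DG (decide (0 < a (i + 1))) (a (i + 1)).natAbs N
      (fun τ => QM N M τ * QM N M' τ) = D at *
    generalize kzG (fun i => decide (0 < a i)) (fun i => (a i).natAbs) N i M = g at *
    generalize Complex.exp (-(π * Complex.I * (2 * ((N - 1 - M : ℕ) : ℂ) + 1) / N)) = X1 at *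
    generalize Complex.exp (-(π * Complex.I * (2 * (M : ℂ) + 1) / N)) = X2 at *
    generalize Complex.exp (π * Complex.I * (a (i + 1)) * (1 - 1 / (2 * N) - N / 2)) = E at *
    generalize kzph a N i = ph at *
    generalize Complex.exp (-(π * Complex.I / N)) = E1 at *
    generalize (starRingEnd ℂ) (fc0 N M') = f' at *
    generalize (starRingEnd ℂ) (fc0 N M) = fb at *
    generalize fc0 N M = f at *
    generalize ((PP N M : ℝ) : ℂ) = P at *
    rw [pow_succ (2 * (π : ℂ)) i]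
    have hpw : (2 * (π : ℂ)) ^ i ≠ 0 := pow_ne_zero _ (mul_ne_zero two_ne_zero hpi)
    generalize (2 * (π : ℂ)) ^ i = w at *
    have key : X1 * X2 * (f * fb * P ^ 2) = 1 := by rw [hX, hf, one_mul]
    have hgoal : -(ph * E1 * fb / (2 * π * N)) * g / w * (N / P) ^ 2 *
        (-X1 / N * (-(E * X2 * f * f' / (2 * π * N)) * D)) =
        -(ph * E * E1 * f' / (2 * π * N)) * (g / P ^ 4 * D) / (w * (2 * π)) *
          (X1 * X2 * (f * fb * P ^ 2)) := by
      field_simp
      try ring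
    rw [hgoal, key, mul_one]

theorem kashZ_eq {a : ℕ → ℤ} {n N : ℕ} (hn : 1 ≤ n) (ha : ∀ i ≤ n, a i ≠ 0) (hN : 2 ≤ N) :
    kashZ a n N = kashC (fun i => decide (0 < a i)) (fun i => (a i).natAbs) n N := by
  have hN' : (N : ℂ) ≠ 0 := Nat.cast_ne_zero.2 (by omega)
  have hpi : (π : ℂ) ≠ 0 := by exact_mod_cast Real.pi_ne_zero
  obtain ⟨i, rfl⟩ : ∃ i, n = i + 1 := ⟨n - 1, by omega⟩
  have hz0 : zeta N ≠ 0 := Complex.exp_ne_zero _
  have hpre : preC (fun i => decide (0 < a i)) (fun i => (a i).natAbs) (i + 1) N =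
      kzph a N (i + 1) := by
    unfold preC kzph
    congr 1
    congr 1
    congr 1
    push_cast
    refine sum_congr rfl fun j hj => ?_
    rw [mem_range] at hj
    have hj0 := ha j (by omega)
    rcases lt_or_gt_of_ne hj0 with h | h
    · have h1 : decide (0 < a j) = false := by rw [decide_eq_false_iff_not]; omega
      have h2 : (((a j).natAbs : ℕ) : ℤ) = -a j := by omega
      have h3 : (((((a j).natAbs : ℕ) : ℤ)) : ℂ) = ((-a j : ℤ) : ℂ) := by rw [h2]
      rw [Int.cast_natCast, Int.cast_neg] at h3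
      simp only [h1, sg, Bool.false_eq_true, if_false]
      rw [h3]
      push_cast
      ring
    · have h1 : decide (0 < a j) = true := by rw [decide_eq_true_iff]; exact h
      have h2 : (((a j).natAbs : ℕ) : ℤ) = a j := by omega
      have h3 : (((((a j).natAbs : ℕ) : ℤ)) : ℂ) = ((a j : ℤ) : ℂ) := by rw [h2]
      rw [Int.cast_natCast] at h3
      simp only [h1, sg, if_true]
      rw [h3]
      push_cast
      ring
  unfold kashC kashZ
  rw [hpre, Nat.add_sub_cancel, ← sum_range_reflect]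
  have hAK : AK (fun i => decide (0 < a i)) (fun i => (a i).natAbs) N (i + 1) =
      fun τ => ∑ M ∈ range N, (kzG (fun i => decide (0 < a i)) (fun i => (a i).natAbs) N i M /
        ((PP N M : ℝ) : ℂ) ^ 4) * QM N M τ := by
    ext τ
    rw [AK_succ]
    refine sum_congr rfl fun M _ => ?_
    unfold kzG
    ring
  rw [hAK, DG_sum _ _ _ _ _ (fun M _ => (QM_differentiable N M).const_mul _), mul_sum, sum_div]
  refine sum_congr rfl fun M hM => ?_
  rw [mem_range] at hM
  rw [DG_const_mul _ _ _ _ (QM_differentiable N M),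
    kz_sZ_eq hN i (fun j hj => ha j (by omega)) M hM, kz_cyc_eq hM,
    MM_zeta (ha (i + 1) le_rfl) hN (by omega : 0 < N) hM, phz_succ]
  have h1 : (fun τ => QM N 0 τ * QM N M τ) = QM N M := by
    ext τ
    rw [kz_QM_zero, one_mul]
  have h2 : fc0 N 0 = 1 := by simp [fc0]
  have h3 : Complex.exp (-(π * Complex.I * (2 * ((0 : ℕ) : ℂ) + 1) / N)) =
      Complex.exp (-(π * Complex.I / N)) := by
    congr 1
    push_cast
    ring
  rw [h1, h2, h3]
  have hPP : ((PP N M : ℝ) : ℂ) ≠ 0 := by exact_mod_cast (PP_pos hM).ne'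
  have hA := mz_phase_A hM
  have hf := mz_fc0_conj hM
  have hek := mz_Ek_ne hz0 (N - 1 - M)
  have hE1 : Complex.exp (-(π * Complex.I / N)) * Complex.exp (-(π * Complex.I / N)) * zeta N =
      1 := by
    unfold zeta
    rw [← Complex.exp_add, ← Complex.exp_add]
    rw [show -(π * Complex.I / N) + -(π * Complex.I / N) + 2 * π * Complex.I / (N : ℂ) = 0 by ring,
      Complex.exp_zero]
  generalize DG (decide (0 < a (i + 1))) (a (i + 1)).natAbs N (QM N M) = D at *
  generalize kzG (fun i => decide (0 < a i)) (fun i => (a i).natAbs) N i M = g at *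
  generalize Complex.exp (π * Complex.I * (a (i + 1)) * (1 - 1 / (2 * N) - N / 2)) = E at *
  generalize kzph a N i = ph at *
  generalize Complex.exp (-(π * Complex.I / N)) = E1 at *
  generalize (starRingEnd ℂ) (fc0 N M) = fb at *
  generalize fc0 N M = f at *
  generalize ((PP N M : ℝ) : ℂ) = P at *
  generalize Ek (zeta N) (N - 1 - M) = ek at *
  generalize zeta N = y at *
  rw [pow_succ (2 * (π : ℂ)) (i + 1), pow_succ (2 * (π : ℂ)) i]
  have hpw : (2 * (π : ℂ)) ^ i ≠ 0 := pow_ne_zero _ (mul_ne_zero two_ne_zero hpi)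
  generalize (2 * (π : ℂ)) ^ i = w at *
  have key : ek⁻¹ * E1 * E1 * fb * fb * P ^ 2 = 1 := by
    rw [inv_mul_eq_div, div_mul_eq_mul_div, div_mul_eq_mul_div, div_mul_eq_mul_div,
      div_mul_eq_mul_div, div_eq_one_iff_eq hek]
    calc E1 * E1 * fb * fb * P ^ 2 = E1 * E1 * (ek * f * y) * fb * P ^ 2 := by rw [hA]
      _ = ek * (E1 * E1 * y) * (f * fb * P ^ 2) := by ring
      _ = ek := by rw [hE1, hf]; ring
  have hgoal : -(ph * E1 * fb / (2 * π * N)) * g / w * ek⁻¹ * (N / P) ^ 2 *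
      (-(E * E1 * 1 * fb / (2 * π * N)) * D) =
      ph * E * (g / P ^ 4 * D) / (w * (2 * π) * (2 * π)) *
        (ek⁻¹ * E1 * E1 * fb * fb * P ^ 2) := by
    field_simp
    try ring
  rw [hgoal, key, mul_one]

theorem kash_tendsto {a : ℕ → ℤ} {n N : ℕ} (hn : 1 ≤ n) (ha : ∀ i ≤ n, a i ≠ 0) (hN : 2 ≤ N) :
    Tendsto (jones a n N) (𝓝[≠] (vN N))
      (𝓝 (kashC (fun i => decide (0 < a i)) (fun i => (a i).natAbs) n N)) := by
  rw [← kashZ_eq hn ha hN]
  exact jones_tendsto a hn hN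

end Pool.Agent.Kashaev.KC
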