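import Pool.Agent.Kashaev.KC.MainN
import Pool.Agent.KSM.P23
import Pool.Agent.Kashaev.KC.GeoC
import Pool.Agent.KSM.P22
import Pool.Agent.Kashaev.KC.KashZ

/-!
The final statement.
-/

namespace Pool.Agent.Kashaev.KC

open Finset Real Filter Topology
open Pool.Agent.Kashaev.KX (sg)

theorem all_chain {a : ℕ → ℤ} {n : ℕ} (hn : 1 ≤ n) (ha : ∀ i ≤ n, 1000 ≤ |a i|) :
    ∃ x z : ℕ → ℂ, IsShapeN a n x z ∧ (cvolN a n x z).re = volN n x z ∧ 0 < volN n x z ∧
      ∃ J : ℕ → ℂ, (∀ N : ℕ, 1 ≤ N → Tendsto (jones a n N) (𝓝[≠] (vN N)) (𝓝 (J N))) ∧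
      ∃ φ : ℕ → ℂ, φ 0 ≠ 0 ∧ ∀ K : ℕ, ∃ B : ℝ, ∀ N : ℕ, 1 ≤ N →
        ‖J N - ((N : ℝ) ^ (3 / 2 : ℝ) : ℝ) * Complex.exp (cvolN a n x z / (2 * π) * N) *
            ∑ k ∈ range K, φ k * (2 * π * Complex.I / N) ^ k‖ ≤
          B * ((N : ℝ) ^ (3 / 2 : ℝ) * Real.exp (volN n x z / (2 * π) * N)) / (N : ℝ) ^ K := by
  have hpi := Real.pi_pos
  have hpiC : (π : ℂ) ≠ 0 := Complex.ofReal_ne_zero.2 Real.pi_ne_zero
  have hp : ∀ i ≤ n, 1000 ≤ (a i).natAbs := fun i hi => by
    have := ha i hi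
    rw [Int.abs_eq_natAbs] at this
    exact_mod_cast this
  have ha0 : ∀ i ≤ n, a i ≠ 0 := fun i hi h => by
    have := hp i hi
    rw [h] at this
    simp at this
  obtain ⟨S⟩ := cp_exists hn (fun i => decide (0 < a i)) (p := fun i => (a i).natAbs) hp
  obtain ⟨φ, h0, hφ⟩ := S.expansionN hp hn
  have hC := S.cvol_eq hp
  have hV := S.vol_eq hp
  have hVp := S.V_pos hp hn
  set w : ℂ := ∑ i ∈ range (n + 1), (sg (decide (0 < a i)) : ℂ) * (a i).natAbs with hw
  have hwre : w.im = 0 := by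
    rw [hw, Complex.im_sum]
    refine sum_eq_zero fun i _ => ?_
    rw [← Complex.ofReal_natCast, ← Complex.ofReal_mul, Complex.ofReal_im]
  have hre : (S.PhiN S.x0N + π * Complex.I * (n + 1) - π * Complex.I * w / 2).re = S.V := by
    rw [← S.PhiN_re_zero hp]
    have e1 : (π * Complex.I * (n + 1) : ℂ) = ((π * (n + 1) : ℝ) : ℂ) * Complex.I := by
      push_cast
      ring
    have e2 : (π * Complex.I * w / 2 : ℂ) = ((π / 2 : ℝ) : ℂ) * (w * Complex.I) := by
      push_cast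
      ring
    rw [Complex.sub_re, Complex.add_re, e1, e2, Complex.re_ofReal_mul, Complex.re_ofReal_mul,
      Complex.mul_I_re, hwre]
    simp
  have hE1 : cvolN a n S.xx S.zz / (2 * π) =
      S.PhiN S.x0N + π * Complex.I * (n + 1) - π * Complex.I * w / 2 := by
    rw [← hC]
    field_simp
  have hE2 : volN n S.xx S.zz / (2 * π) = S.V := by
    rw [← hV]
    field_simp
  refine ⟨S.xx, S.zz, S.isShape hp, ?_, ?_,
    fun N => if N = 1 then 1 else kashC (fun i => decide (0 < a i)) (fun i => (a i).natAbs) n N,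
    ?_, φ, h0, ?_⟩
  · rw [← hC, ← hV, ← hre]
    have : (2 * π * (S.PhiN S.x0N + π * Complex.I * (n + 1) - π * Complex.I * w / 2) : ℂ) =
        ((2 * π : ℝ) : ℂ) *
          (S.PhiN S.x0N + π * Complex.I * (n + 1) - π * Complex.I * w / 2) := by
      push_cast
      ring
    rw [this, Complex.re_ofReal_mul]
  · rw [← hV]
    positivity
  · intro N hN
    by_cases h1 : N = 1
    · subst h1
      simp only [if_true]
      exact jones_one_tendsto a n
    · simp only [h1, if_false]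
      exact kash_tendsto hn ha0 (by omega)
  · intro K
    obtain ⟨B, hB⟩ := hφ K
    set r : ℂ := 1 - (((1 : ℕ) : ℝ) ^ (3 / 2 : ℝ) : ℝ) *
      Complex.exp (cvolN a n S.xx S.zz / (2 * π) * (1 : ℕ)) *
        ∑ k ∈ range K, φ k * (2 * π * Complex.I / (1 : ℕ)) ^ k with hr
    refine ⟨max B ‖r‖, fun N hN => ?_⟩
    by_cases h1 : N = 1
    · subst h1
      simp only [if_true]
      rw [← hr, hE2]
      have h2 : 1 ≤ Real.exp (S.V * (1 : ℕ)) := Real.one_le_exp (by positivity)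
      have h3 : ‖r‖ ≤ max B ‖r‖ := le_max_right _ _
      have h4 : 0 ≤ max B ‖r‖ := (norm_nonneg _).trans h3
      simp only [Nat.cast_one, Real.one_rpow, one_mul, one_pow, div_one] at h2 ⊢
      nlinarith
    · simp only [h1, if_false]
      rw [hE1, hE2]
      refine (hB N hN).trans ?_
      gcongr
      exact le_max_left _ _

end Pool.Agent.Kashaev.KC
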