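import Pool.Agent.KSM.P16
import Pool.Agent.KSM.P23

/-!
The iterated integral as an integral over the cube.
Proof: by induction on `i ≤ n`, for all `t` in the window `S.wt i`: `AL N i (S.tau i t) =
(∏ j < i, cN (e j) N) * N ^ i * ∫ x in closedBall (fun k : Fin (2 i) => S.x0 k) (1 / 10), WL N i (S.tau i t) (xf x)`.
For the step: `AL N i (S.tau i s)` is the integral over the cube with `2 i` coordinates; by Fubini
(`cube_snoc` for the coordinate `2 i + 1`, i.e. `θ`, then for `2 i`, i.e. `s`, after exchanging the integrals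
over `s` and `θ`, or use `cube_snoc'` first). `WL N (i + 1)` is continuous on the cube
(`RW_window`, `blk` is entire), `WL N i τ x` depends only on `x k` with `k < 2 i` (`xf_snoc_lt`,
`xf_snoc_last`). The last region is similar; `WL N n (S.tau n (x (2 n))) x * blk = Wn N x` by `WL_prod`.
-/

namespace Pool.Agent.Kashaev.KC

open Finset Real MeasureTheory
open Pool.Agent.Kashaev.KW
open Pool.Agent.Kashaev.KX (sg cc)

namespace CP

variable {n : ℕ} {e : ℕ → Bool} {p : ℕ → ℕ}

/-- The integrand of the local form of the state left of the region `i`. -/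
noncomputable def WL (S : CP n e p) (N : ℕ) : ℕ → ℂ → (ℕ → ℝ) → ℂ
  | 0, _, _ => 1
  | i + 1, τ, x => WL S N i (S.tau i (x (2 * i))) x * blk (e i) (p i) N (S.tau i (x (2 * i))) *
      RW N (S.The i (x (2 * i + 1))) (S.tau i (x (2 * i))) τ

theorem FubB_xf_cont {m : ℕ} (k : ℕ) : Continuous fun y : Fin m → ℝ => xf y k := by
  unfold xf
  by_cases h : k < m
  · simp only [h, dif_pos]
    exact continuous_apply _
  · simp only [h, dif_neg, not_false_eq_true]
    exact continuous_const

theorem FubB_mem {m : ℕ} (c : ℕ → ℝ) {δ : ℝ} {y : Fin m → ℝ}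
    (hy : y ∈ Metric.closedBall (fun k : Fin m => c k) δ) {k : ℕ} (hk : k < m) :
    |xf y k - c k| ≤ δ := by
  unfold xf
  rw [dif_pos hk]
  have h1 := dist_le_pi_dist y (fun k : Fin m => c k) ⟨k, hk⟩
  rw [Real.dist_eq] at h1
  exact h1.trans hy

theorem FubB_x0_even (S : CP n e p) (j : ℕ) : S.x0 (2 * j) = S.t j := by
  unfold x0
  rw [if_pos (Nat.mul_mod_right 2 j), Nat.mul_div_cancel_left j two_pos]

theorem FubB_x0_odd (S : CP n e p) (j : ℕ) : S.x0 (2 * j + 1) = S.θ j := by
  unfold x0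
  have h1 : (2 * j + 1) % 2 ≠ 0 := by omega
  have h2 : (2 * j + 1) / 2 = j := by omega
  rw [if_neg h1, h2]

theorem FubB_memt (S : CP n e p) {m : ℕ} {y : Fin m → ℝ}
    (hy : y ∈ Metric.closedBall (fun k : Fin m => S.x0 k) (1 / 10)) {j : ℕ} (hj : 2 * j < m) :
    xf y (2 * j) ∈ S.wt j := by
  have h := abs_le.1 (FubB_mem S.x0 hy hj)
  rw [FubB_x0_even] at h
  exact ⟨by linarith [h.1], by linarith [h.2]⟩

theorem FubB_memθ (S : CP n e p) {m : ℕ} {y : Fin m → ℝ}
    (hy : y ∈ Metric.closedBall (fun k : Fin m => S.x0 k) (1 / 10)) {j : ℕ}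
    (hj : 2 * j + 1 < m) : xf y (2 * j + 1) ∈ S.wθ j := by
  have h := abs_le.1 (FubB_mem S.x0 hy hj)
  rw [FubB_x0_odd] at h
  exact ⟨by linarith [h.1], by linarith [h.2]⟩

theorem FubB_tau_cont (S : CP n e p) (i : ℕ) : Continuous fun t : ℝ => S.tau i t := by
  unfold tau tauC
  fun_prop

theorem FubB_blk_cont (b : Bool) (q N : ℕ) : Continuous (blk b q N) := by
  unfold blk
  fun_prop

theorem FubB_RW1 (S : CP n e p) (hp : ∀ i ≤ n, 1000 ≤ p i) {j : ℕ} (hj : j < n) {N : ℕ}
    (hN : 1 ≤ N) {m : ℕ} (hm : 2 * (j + 1) < m) :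
    ContinuousOn (fun y : Fin m → ℝ => RW N (S.The j (xf y (2 * j + 1))) (S.tau j (xf y (2 * j)))
      (S.tau (j + 1) (xf y (2 * (j + 1)))))
      (Metric.closedBall (fun k : Fin m => S.x0 k) (1 / 10)) := by
  have h := S.RW_window hp hj hN
  have h2 : ContinuousOn (fun y : Fin m → ℝ => (xf y (2 * j), xf y (2 * (j + 1)),
      xf y (2 * j + 1))) (Metric.closedBall (fun k : Fin m => S.x0 k) (1 / 10)) :=
    ((FubB_xf_cont _).prodMk ((FubB_xf_cont _).prodMk (FubB_xf_cont _))).continuousOn
  have h3 : Set.MapsTo (fun y : Fin m → ℝ => (xf y (2 * j), xf y (2 * (j + 1)),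
      xf y (2 * j + 1))) (Metric.closedBall (fun k : Fin m => S.x0 k) (1 / 10))
      (S.wt j ×ˢ (S.wt (j + 1) ×ˢ S.wθ j)) := by
    intro y hy
    have a1 := FubB_memt S hy (j := j) (by omega)
    have a2 := FubB_memt S hy (j := j + 1) hm
    have a3 := FubB_memθ S hy (j := j) (by omega)
    exact Set.mk_mem_prod a1 (Set.mk_mem_prod a2 a3)
  have h4 := h.comp h2 h3
  simp only [Function.comp_def] at h4
  exact h4

theorem FubB_RW2 (S : CP n e p) (hp : ∀ i ≤ n, 1000 ≤ p i) {j : ℕ} (hj : j < n) {N : ℕ}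
    (hN : 1 ≤ N) {m : ℕ} (hm : 2 * j + 1 < m) {t : ℝ} (ht : t ∈ S.wt (j + 1)) :
    ContinuousOn (fun y : Fin m → ℝ => RW N (S.The j (xf y (2 * j + 1))) (S.tau j (xf y (2 * j)))
      (S.tau (j + 1) t)) (Metric.closedBall (fun k : Fin m => S.x0 k) (1 / 10)) := by
  have h := S.RW_window hp hj hN
  have h2 : ContinuousOn (fun y : Fin m → ℝ => (xf y (2 * j), t, xf y (2 * j + 1)))
      (Metric.closedBall (fun k : Fin m => S.x0 k) (1 / 10)) :=
    ((FubB_xf_cont _).prodMk (continuous_const.prodMk (FubB_xf_cont _))).continuousOn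
  have h3 : Set.MapsTo (fun y : Fin m → ℝ => (xf y (2 * j), t, xf y (2 * j + 1)))
      (Metric.closedBall (fun k : Fin m => S.x0 k) (1 / 10))
      (S.wt j ×ˢ (S.wt (j + 1) ×ˢ S.wθ j)) := by
    intro y hy
    have a1 := FubB_memt S hy (j := j) (by omega)
    have a3 := FubB_memθ S hy (j := j) hm
    exact Set.mk_mem_prod a1 (Set.mk_mem_prod ht a3)
  have h4 := h.comp h2 h3
  simp only [Function.comp_def] at h4
  exact h4

theorem FubB_WL_local (S : CP n e p) (N : ℕ) (i : ℕ) : ∀ (τ : ℂ) (z z' : ℕ → ℝ),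
    (∀ k < 2 * i, z k = z' k) → WL S N i τ z = WL S N i τ z' := by
  induction i with
  | zero =>
    intro τ z z' _
    rfl
  | succ i ih =>
    intro τ z z' h
    have h1 : z (2 * i) = z' (2 * i) := h _ (by omega)
    have h2 : z (2 * i + 1) = z' (2 * i + 1) := h _ (by omega)
    simp only [WL]
    rw [h1, h2, ih _ z z' fun k hk => h k (by omega)]

theorem WL_prod (S : CP n e p) (N i : ℕ) (x : ℕ → ℝ) :
    WL S N i (S.tau i (x (2 * i))) x = (∏ j ∈ range i, blk (e j) (p j) N (S.tau j (x (2 * j)))) *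
      ∏ j ∈ range i, RW N (S.The j (x (2 * j + 1))) (S.tau j (x (2 * j)))
        (S.tau (j + 1) (x (2 * (j + 1)))) := by
  induction i with
  | zero => simp [WL]
  | succ i ih =>
    rw [Finset.prod_range_succ, Finset.prod_range_succ]
    have e1 : WL S N (i + 1) (S.tau (i + 1) (x (2 * (i + 1)))) x =
        WL S N i (S.tau i (x (2 * i))) x * blk (e i) (p i) N (S.tau i (x (2 * i))) *
          RW N (S.The i (x (2 * i + 1))) (S.tau i (x (2 * i)))
            (S.tau (i + 1) (x (2 * (i + 1)))) := rfl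
    rw [e1, ih]
    ring

theorem FubB_WL_cont (S : CP n e p) (hp : ∀ i ≤ n, 1000 ≤ p i) {i : ℕ} (hi : i ≤ n) {N : ℕ}
    (hN : 1 ≤ N) {m : ℕ} (hm : 2 * i < m) :
    ContinuousOn (fun y : Fin m → ℝ => WL S N i (S.tau i (xf y (2 * i))) (xf y))
      (Metric.closedBall (fun k : Fin m => S.x0 k) (1 / 10)) := by
  simp_rw [WL_prod]
  refine ContinuousOn.mul ?_ ?_
  · refine continuousOn_finset_prod _ fun j _ => ?_
    exact ((FubB_blk_cont _ _ _).comp
      ((FubB_tau_cont S j).comp (FubB_xf_cont (2 * j)))).continuousOn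
  · refine continuousOn_finset_prod _ fun j hj => ?_
    rw [Finset.mem_range] at hj
    exact FubB_RW1 S hp (by omega) hN (by omega)

theorem FubB_zero (S : CP n e p) (N : ℕ) (τ : ℂ) :
    ∫ x in Metric.closedBall (fun k : Fin (2 * 0) => S.x0 k) (1 / 10), WL S N 0 τ (xf x) = 1 := by
  haveI : IsEmpty (Fin (2 * 0)) := Fin.isEmpty
  have h1 : Metric.closedBall (fun k : Fin (2 * 0) => S.x0 k) (1 / 10) = Set.univ := by
    ext x
    simp only [Metric.mem_closedBall, Set.mem_univ, iff_true]
    have : x = fun k : Fin (2 * 0) => S.x0 k := Subsingleton.elim _ _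
    rw [this, dist_self]
    norm_num
  rw [h1, Measure.restrict_univ, volume_pi, Measure.pi_of_empty _ (fun k => isEmptyElim k),
    integral_dirac]
  rfl

theorem AL_cube (S : CP n e p) (hp : ∀ i ≤ n, 1000 ≤ p i) {N : ℕ} (hN : 1 ≤ N) :
    ∀ i ≤ n, ∀ t ∈ S.wt i, S.AL N i (S.tau i t) =
      (∏ j ∈ range i, cN (e j) N) * (N : ℂ) ^ i *
        ∫ x in Metric.closedBall (fun k : Fin (2 * i) => S.x0 k) (1 / 10),
          WL S N i (S.tau i t) (xf x) := by
  intro i
  induction i with
  | zero =>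
    intro _ t _
    rw [FubB_zero]
    simp [CP.AL]
  | succ i ih =>
    intro hi t ht
    have hin : i ≤ n := by omega
    have hin' : i < n := by omega
    have ih' := ih hin
    obtain ⟨τ, hτ⟩ : ∃ τ, τ = S.tau (i + 1) t := ⟨_, rfl⟩
    rw [← hτ]
    obtain ⟨g, hg⟩ : ∃ g : (Fin (2 * i + 1 + 1) → ℝ) → ℂ, g = fun y =>
      WL S N i (S.tau i (xf y (2 * i))) (xf y) * blk (e i) (p i) N (S.tau i (xf y (2 * i))) *
        RW N (S.The i (xf y (2 * i + 1))) (S.tau i (xf y (2 * i))) τ := ⟨_, rfl⟩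
    have hgc : ContinuousOn g
        (Metric.closedBall (fun k : Fin (2 * i + 1 + 1) => S.x0 k) (1 / 10)) := by
      rw [hg, hτ]
      refine ((FubB_WL_cont S hp hin hN (by omega)).mul ?_).mul
        (FubB_RW2 S hp hin' hN (by omega) ht)
      exact ((FubB_blk_cont _ _ _).comp
        ((FubB_tau_cont S i).comp (FubB_xf_cont (2 * i)))).continuousOn
    have hδ : (0 : ℝ) < 1 / 10 := by norm_num
    have hA := cube_snoc (m := 2 * i + 1) S.x0 hδ g hgc
    have e0 : (∫ x in Metric.closedBall (fun k : Fin (2 * (i + 1)) => S.x0 k) (1 / 10),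
        WL S N (i + 1) τ (xf x)) =
        ∫ x in Metric.closedBall (fun k : Fin (2 * i + 1 + 1) => S.x0 k) (1 / 10), g x := by
      rw [hg]
      rfl
    rw [e0, hA, FubB_x0_odd]
    -- the inner integrals
    have hB : ∀ θ ∈ Set.uIcc (S.θ i - 1 / 10) (S.θ i + 1 / 10),
        (∫ x in Metric.closedBall (fun k : Fin (2 * i + 1) => S.x0 k) (1 / 10),
          g (Fin.snoc x θ)) =
        ∫ s in (S.t i - 1 / 10)..(S.t i + 1 / 10),
          (∫ x in Metric.closedBall (fun k : Fin (2 * i) => S.x0 k) (1 / 10),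
            WL S N i (S.tau i s) (xf x)) * blk (e i) (p i) N (S.tau i s) *
              RW N (S.The i θ) (S.tau i s) τ := by
      intro θ hθ
      rw [Set.uIcc_of_le (by linarith)] at hθ
      have hc : ContinuousOn (fun x : Fin (2 * i + 1) → ℝ =>
          g (Fin.snoc x θ : Fin (2 * i + 1 + 1) → ℝ))
          (Metric.closedBall (fun k : Fin (2 * i + 1) => S.x0 k) (1 / 10)) := by
        have e1 : (fun x : Fin (2 * i + 1) → ℝ =>
            g (Fin.snoc x θ : Fin (2 * i + 1 + 1) → ℝ)) = fun x =>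
            WL S N i (S.tau i (xf x (2 * i))) (xf x) *
              blk (e i) (p i) N (S.tau i (xf x (2 * i))) *
              RW N (S.The i θ) (S.tau i (xf x (2 * i))) τ := by
          funext x
          rw [hg]
          simp only
          rw [xf_snoc_last, xf_snoc_lt x θ (show 2 * i < 2 * i + 1 by omega),
            FubB_WL_local S N i _ (xf (Fin.snoc x θ : Fin (2 * i + 1 + 1) → ℝ)) (xf x)
              (fun k hk => xf_snoc_lt x θ (by omega))]
        rw [e1]
        refine ((FubB_WL_cont S hp hin hN (by omega)).mul ?_).mul ?_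
        · exact ((FubB_blk_cont _ _ _).comp
            ((FubB_tau_cont S i).comp (FubB_xf_cont (2 * i)))).continuousOn
        · have h := S.RW_window hp hin' hN
          have h2 : ContinuousOn (fun y : Fin (2 * i + 1) → ℝ => (xf y (2 * i), t, θ))
              (Metric.closedBall (fun k : Fin (2 * i + 1) => S.x0 k) (1 / 10)) :=
            ((FubB_xf_cont _).prodMk (continuous_const.prodMk continuous_const)).continuousOn
          have h3 : Set.MapsTo (fun y : Fin (2 * i + 1) → ℝ => (xf y (2 * i), t, θ))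
              (Metric.closedBall (fun k : Fin (2 * i + 1) => S.x0 k) (1 / 10))
              (S.wt i ×ˢ (S.wt (i + 1) ×ˢ S.wθ i)) := by
            intro y hy
            have a1 := FubB_memt S hy (j := i) (by omega)
            exact Set.mk_mem_prod a1 (Set.mk_mem_prod ht hθ)
          have h4 := h.comp h2 h3
          simp only [Function.comp_def] at h4
          rw [hτ]
          exact h4
      rw [cube_snoc (m := 2 * i) S.x0 hδ _ hc, FubB_x0_even]
      refine intervalIntegral.integral_congr fun s _ => ?_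
      have e2 : ∀ x : Fin (2 * i) → ℝ,
          g (Fin.snoc (Fin.snoc x s : Fin (2 * i + 1) → ℝ) θ : Fin (2 * i + 1 + 1) → ℝ) =
          WL S N i (S.tau i s) (xf x) *
            (blk (e i) (p i) N (S.tau i s) * RW N (S.The i θ) (S.tau i s) τ) := by
        intro x
        rw [hg]
        simp only
        rw [xf_snoc_last, xf_snoc_lt (Fin.snoc x s : Fin (2 * i + 1) → ℝ) θ
          (show 2 * i < 2 * i + 1 by omega), xf_snoc_last,
          FubB_WL_local S N i _ (xf (Fin.snoc (Fin.snoc x s : Fin (2 * i + 1) → ℝ) θ :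
            Fin (2 * i + 1 + 1) → ℝ)) (xf x) (fun k hk => by
              rw [xf_snoc_lt (Fin.snoc x s : Fin (2 * i + 1) → ℝ) θ (by omega),
                xf_snoc_lt x s hk]), mul_assoc]
      simp_rw [e2]
      rw [integral_mul_const, mul_assoc]
    rw [intervalIntegral.integral_congr hB]
    -- interchange
    have hF : IntegrableOn (Function.uncurry fun θ s : ℝ =>
        S.AL N i (S.tau i s) * blk (e i) (p i) N (S.tau i s) *
          RW N (S.The i θ) (S.tau i s) τ)
        (Set.uIoc (S.θ i - 1 / 10) (S.θ i + 1 / 10) ×ˢ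
          Set.uIoc (S.t i - 1 / 10) (S.t i + 1 / 10)) := by
      have hcont : ContinuousOn (Function.uncurry fun θ s : ℝ =>
          S.AL N i (S.tau i s) * blk (e i) (p i) N (S.tau i s) *
            RW N (S.The i θ) (S.tau i s) τ) (S.wθ i ×ˢ S.wt i) := by
        refine ContinuousOn.mul (ContinuousOn.mul ?_ ?_) ?_
        · exact (S.AL_cont hp hin hN).comp continuous_snd.continuousOn fun x hx => hx.2
        · exact ((FubB_blk_cont _ _ _).comp
            ((FubB_tau_cont S i).comp continuous_snd)).continuousOn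
        · have h2 : ContinuousOn (fun x : ℝ × ℝ => (x.2, t, x.1)) (S.wθ i ×ˢ S.wt i) := by
            fun_prop
          have h3 : Set.MapsTo (fun x : ℝ × ℝ => (x.2, t, x.1)) (S.wθ i ×ˢ S.wt i)
              (S.wt i ×ˢ (S.wt (i + 1) ×ˢ S.wθ i)) := by
            intro x hx
            exact Set.mk_mem_prod hx.2 (Set.mk_mem_prod ht hx.1)
          have h4 := (S.RW_window hp hin' hN).comp h2 h3
          simp only [Function.comp_def] at h4
          rw [hτ]
          exact h4
      have hcpt : IsCompact (S.wθ i ×ˢ S.wt i) := isCompact_Icc.prod isCompact_Icc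
      refine (hcont.integrableOn_compact hcpt).mono_set ?_
      refine Set.prod_mono ?_ ?_
      · rw [Set.uIoc_of_le (by linarith)]
        exact Set.Ioc_subset_Icc_self
      · rw [Set.uIoc_of_le (by linarith)]
        exact Set.Ioc_subset_Icc_self
    have hswap := intervalIntegral_intervalIntegral_swap hF
    have e3 : S.AL N (i + 1) τ = cN (e i) N * N * ∫ s in (S.t i - 1 / 10)..(S.t i + 1 / 10),
        S.AL N i (S.tau i s) * blk (e i) (p i) N (S.tau i s) *
          ∫ θ in (S.θ i - 1 / 10)..(S.θ i + 1 / 10), RW N (S.The i θ) (S.tau i s) τ := rfl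
    have e4 : (∫ s in (S.t i - 1 / 10)..(S.t i + 1 / 10),
        S.AL N i (S.tau i s) * blk (e i) (p i) N (S.tau i s) *
          ∫ θ in (S.θ i - 1 / 10)..(S.θ i + 1 / 10), RW N (S.The i θ) (S.tau i s) τ) =
        ∫ s in (S.t i - 1 / 10)..(S.t i + 1 / 10), ∫ θ in (S.θ i - 1 / 10)..(S.θ i + 1 / 10),
          S.AL N i (S.tau i s) * blk (e i) (p i) N (S.tau i s) *
            RW N (S.The i θ) (S.tau i s) τ := by
      refine intervalIntegral.integral_congr fun s _ => ?_
      rw [intervalIntegral.integral_const_mul]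
    have e5 : (∫ θ in (S.θ i - 1 / 10)..(S.θ i + 1 / 10),
        ∫ s in (S.t i - 1 / 10)..(S.t i + 1 / 10),
          S.AL N i (S.tau i s) * blk (e i) (p i) N (S.tau i s) *
            RW N (S.The i θ) (S.tau i s) τ) =
        (∏ j ∈ range i, cN (e j) N) * (N : ℂ) ^ i *
        ∫ θ in (S.θ i - 1 / 10)..(S.θ i + 1 / 10),
          ∫ s in (S.t i - 1 / 10)..(S.t i + 1 / 10),
            (∫ x in Metric.closedBall (fun k : Fin (2 * i) => S.x0 k) (1 / 10),
              WL S N i (S.tau i s) (xf x)) * blk (e i) (p i) N (S.tau i s) *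
                RW N (S.The i θ) (S.tau i s) τ := by
      rw [← intervalIntegral.integral_const_mul]
      refine intervalIntegral.integral_congr fun θ _ => ?_
      rw [← intervalIntegral.integral_const_mul]
      refine intervalIntegral.integral_congr fun s hs => ?_
      rw [Set.uIcc_of_le (by linarith)] at hs
      rw [ih' s hs]
      ring
    rw [e3, e4, ← hswap, e5, Finset.prod_range_succ]
    ring

theorem int_AL (S : CP n e p) (hp : ∀ i ≤ n, 1000 ≤ p i) {N : ℕ} (hN : 1 ≤ N) :
    cN (e n) N * N ^ 2 * ∫ t in (S.t n - 1 / 10)..(S.t n + 1 / 10),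
        S.AL N n (S.tau n t) * blk (e n) (p n) N (S.tau n t) =
      (∏ i ∈ range (n + 1), cN (e i) N) * N ^ (n + 2) *
        ∫ x in Metric.closedBall S.x0N (1 / 10), S.WnN N x := by
  have hδ : (0 : ℝ) < 1 / 10 := by norm_num
  have hWn : ∀ y : Fin (2 * n + 1) → ℝ, S.WnN N y =
      WL S N n (S.tau n (xf y (2 * n))) (xf y) * blk (e n) (p n) N (S.tau n (xf y (2 * n))) := by
    intro y
    unfold WnN Wn
    rw [WL_prod, Finset.prod_range_succ]
    ring
  have hgc : ContinuousOn (fun y : Fin (2 * n + 1) → ℝ => S.WnN N y)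
      (Metric.closedBall (fun k : Fin (2 * n + 1) => S.x0 k) (1 / 10)) := by
    simp_rw [hWn]
    refine (FubB_WL_cont S hp le_rfl hN (by omega)).mul ?_
    exact ((FubB_blk_cont _ _ _).comp
      ((FubB_tau_cont S n).comp (FubB_xf_cont (2 * n)))).continuousOn
  have hA := cube_snoc (m := 2 * n) S.x0 hδ _ hgc
  have e0 : (∫ x in Metric.closedBall S.x0N (1 / 10), S.WnN N x) =
      ∫ x in Metric.closedBall (fun k : Fin (2 * n + 1) => S.x0 k) (1 / 10), S.WnN N x := rfl
  rw [e0, hA, FubB_x0_even]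
  have e1 : ∀ t : ℝ, (∫ x in Metric.closedBall (fun k : Fin (2 * n) => S.x0 k) (1 / 10),
      S.WnN N (Fin.snoc x t : Fin (2 * n + 1) → ℝ)) =
      (∫ x in Metric.closedBall (fun k : Fin (2 * n) => S.x0 k) (1 / 10),
        WL S N n (S.tau n t) (xf x)) * blk (e n) (p n) N (S.tau n t) := by
    intro t
    rw [← integral_mul_const]
    refine integral_congr_ae (Filter.Eventually.of_forall fun x => ?_)
    change S.WnN N (Fin.snoc x t : Fin (2 * n + 1) → ℝ) = WL S N n (S.tau n t) (xf x) *
      blk (e n) (p n) N (S.tau n t)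
    rw [hWn, xf_snoc_last, FubB_WL_local S N n _ (xf (Fin.snoc x t : Fin (2 * n + 1) → ℝ)) (xf x)
      (fun k hk => xf_snoc_lt x t hk)]
  simp_rw [e1]
  have e2 : (∫ t in (S.t n - 1 / 10)..(S.t n + 1 / 10),
      S.AL N n (S.tau n t) * blk (e n) (p n) N (S.tau n t)) =
      (∏ j ∈ range n, cN (e j) N) * (N : ℂ) ^ n *
      ∫ t in (S.t n - 1 / 10)..(S.t n + 1 / 10),
        (∫ x in Metric.closedBall (fun k : Fin (2 * n) => S.x0 k) (1 / 10),
          WL S N n (S.tau n t) (xf x)) * blk (e n) (p n) N (S.tau n t) := by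
    rw [← intervalIntegral.integral_const_mul]
    refine intervalIntegral.integral_congr fun t ht => ?_
    rw [Set.uIcc_of_le (by linarith)] at ht
    rw [AL_cube S hp hN n le_rfl t ht]
    ring
  rw [e2, Finset.prod_range_succ]
  ring

end CP

end Pool.Agent.Kashaev.KC
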