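import Pool.Agent.KSM.P20
import Pool.Agent.KSM.P16

/-!
The induction hypotheses.
-/

namespace Pool.Agent.Kashaev.KC

open Finset Real MeasureTheory
open Pool.Agent.Kashaev.KW
open Pool.Agent.Kashaev.KX (sg cc kap)

namespace CP

variable {n : ℕ} {e : ℕ → Bool} {p : ℕ → ℕ}

/-- The weak form of the bounds for the state left of the region `i`. -/
structure Weak (S : CP n e p) (i : ℕ) : Prop where
  crude : ∃ (C : ℝ) (a : ℕ), 0 < C ∧ ∀ N : ℕ, 1 ≤ N → ∀ τ : ℂ, |τ.im| ≤ 0.00001 →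
    |τ.re| ≤ 1 / 2 → ‖AK e p N i τ‖ ≤ C * N ^ a * Real.exp (N * (S.al i + 0.001))
  sharp : ∃ (C : ℝ) (a : ℕ), 0 < C ∧ ∀ N : ℕ, 1 ≤ N → ∀ t : ℝ, |t - S.t i| ≤ 1 / 10 →
    ‖AK e p N i (S.tau i t)‖ ≤ C * N ^ a * Real.exp (N * (S.al i + S.tl i * (t - S.t i)))
  loc : ∃ C c : ℝ, 0 < C ∧ 0 < c ∧ ∀ N : ℕ, 1 ≤ N → ∀ t : ℝ, |t - S.t i| ≤ 1 / 10 →
    ‖AK e p N i (S.tau i t) - S.AL N i (S.tau i t)‖ ≤
      C * Real.exp (N * (S.al i + S.tl i * (t - S.t i) - c))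

/-- The strong form, for `0 < i`. -/
structure Strong (S : CP n e p) (i : ℕ) : Prop where
  crude : ∃ (C : ℝ) (a : ℕ), 0 < C ∧ ∀ N : ℕ, 1 ≤ N → ∀ τ : ℂ, |τ.im| ≤ 0.00001 →
    |τ.re| ≤ 1 / 2 → ‖AK e p N i τ‖ ≤ C * N ^ a * Real.exp (N * (S.al i + 0.001 - dd τ.re))
  sharp : ∃ (C : ℝ) (a : ℕ), 0 < C ∧ ∀ N : ℕ, 1 ≤ N → ∀ t : ℝ, |t - S.t i| ≤ 1 / 10 →
    ‖AK e p N i (S.tau i t)‖ ≤
      C * N ^ a * Real.exp (N * (S.al i + S.tl i * (t - S.t i) - 2 / 5 * (t - S.t i) ^ 2))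
  loc : ∃ C c : ℝ, 0 < C ∧ 0 < c ∧ ∀ N : ℕ, 1 ≤ N → ∀ t : ℝ, |t - S.t i| ≤ 1 / 10 →
    ‖AK e p N i (S.tau i t) - S.AL N i (S.tau i t)‖ ≤
      C * Real.exp (N * (S.al i + S.tl i * (t - S.t i) - c))

/-- The part of the next state from the window. -/
noncomputable def Dw (S : CP n e p) (N i : ℕ) (τ : ℂ) : ℂ :=
  cN (e i) N * N ^ 2 * ∫ s in (S.t i - 1 / 10)..(S.t i + 1 / 10),
    blk (e i) (p i) N (S.tau i s) * (AK e p N i (S.tau i s) * RR N (S.tau i s) τ) *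
      cc (e i) (kap N (s - S.y i * Complex.I))

lemma dd_nonneg (t : ℝ) : 0 ≤ dd t := by
  unfold dd
  positivity

theorem weak_zero (S : CP n e p) : S.Weak 0 where
  crude := ⟨1, 0, one_pos, fun N hN τ _ _ => by
    have h : (0 : ℝ) ≤ N := Nat.cast_nonneg N
    simp only [AK, al, norm_one, pow_zero, mul_one, one_mul, zero_add]
    exact Real.one_le_exp (by positivity)⟩
  sharp := ⟨1, 0, one_pos, fun N hN t _ => by simp [AK, al, tl]⟩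
  loc := ⟨1, 1, one_pos, one_pos, fun N hN t _ => by
    simp only [AK, AL, sub_self, norm_zero, one_mul]
    positivity⟩

theorem Strong.weak {S : CP n e p} {i : ℕ} (h : S.Strong i) : S.Weak i where
  crude := by
    obtain ⟨C, a, hC, H⟩ := h.crude
    refine ⟨C, a, hC, fun N hN τ h1 h2 => (H N hN τ h1 h2).trans ?_⟩
    have := dd_nonneg τ.re
    gcongr
    linarith
  sharp := by
    obtain ⟨C, a, hC, H⟩ := h.sharp
    refine ⟨C, a, hC, fun N hN t ht => (H N hN t ht).trans ?_⟩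
    have := sq_nonneg (t - S.t i)
    gcongr
    linarith
  loc := h.loc

end CP

end Pool.Agent.Kashaev.KC
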