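import Pool.Agent.Kashaev.KC.StepM

/-!
The sharp bound of the next state on the line of the critical point.
Proof: for `τ = S.tau (i + 1) t` (imaginary part at most `1e-6`, real part at most `0.1006`), `step_main` for
the difference: `al i + 2 Um - dd t - 0.006 ≤ al (i + 1) + tl (i + 1) u - 2 / 5 u ^ 2`, `u = t - t (i + 1)`,
because `2 Um ≤ fs i + 0.0001`, `|tl (i + 1) u| ≤ 0.0004`, `dd t ≥ 0.98 t ^ 2 ≥ 0.98 u ^ 2 - 0.001 |u|`.
`Dw` is bounded with `blk_norm`, `Weak.sharp`, `RR_sharp`, `kap_bound`; the exponent at `s` is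
`al i + tl i (s - t i) + 2 π y (2 p s - 1) + fs i + sl i (s - t i) + sr i u - 2 / 5 ((s - t i) ^ 2 + u ^ 2)`
`≤ al (i + 1) + tl (i + 1) u - 2 / 5 u ^ 2` by `slope_eq` (`tl (i + 1) = sr i`).
-/

namespace Pool.Agent.Kashaev.KC

open Finset Real MeasureTheory
open Pool.Agent.Kashaev.KW
open Pool.Agent.Kashaev.KX (sg cc kap)

namespace CP

variable {n : ℕ} {e : ℕ → Bool} {p : ℕ → ℕ}

lemma stb_tau_re (S : CP n e p) (i : ℕ) (t : ℝ) : (S.tau i t).re = t := by
  unfold tau tauC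
  simp

lemma stb_tau_im (S : CP n e p) (i : ℕ) (t : ℝ) : |(S.tau i t).im| = |S.y i| := by
  unfold tau tauC
  cases e i <;> simp [sg]

lemma stb_cN (b : Bool) (N : ℕ) : ‖cN b N‖ = 4 * π := by
  have hpi := Real.pi_pos
  have hs : ‖((sg b : ℝ) : ℂ)‖ = 1 := by cases b <;> simp [sg]
  unfold cN
  rw [norm_mul, norm_mul, norm_neg, hs, norm_pow, norm_neg, norm_one, one_pow, norm_mul, norm_mul,
    Complex.norm_I, Complex.norm_real, Real.norm_eq_abs, abs_of_pos hpi]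
  simp

lemma stb_dd {t u v : ℝ} (hu : |u| ≤ 1 / 10) (hv0 : 0 < v) (hv : v ≤ 0.000501) (h : t = u + v) :
    2 / 5 * u ^ 2 - dd t ≤ 0.00011 := by
  have hu2 : u ^ 2 ≤ 1 / 100 := by
    have := sq_le_sq' (neg_le_of_abs_le hu) (le_of_abs_le hu)
    norm_num at this ⊢
    exact this
  have h1 := (abs_le.1 hu).1
  have h2 := (abs_le.1 hu).2
  unfold dd
  rcases min_cases (t ^ 2) (1 / 100 : ℝ) with ⟨h3, -⟩ | ⟨h3, -⟩
  · rw [h3, h]
    nlinarith [mul_nonneg (sub_nonneg.2 h2) hv0.le, mul_nonneg (sub_nonneg.2 h1) hv0.le,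
      sq_nonneg u]
  · rw [h3]
    nlinarith

theorem step_sharp (S : CP n e p) (hp : ∀ i ≤ n, 1000 ≤ p i) {i : ℕ} (hi : i < n)
    (h : S.Weak i) : ∃ (C : ℝ) (a : ℕ), 0 < C ∧ ∀ N : ℕ, 1 ≤ N → ∀ t : ℝ,
      |t - S.t (i + 1)| ≤ 1 / 10 → ‖AK e p N (i + 1) (S.tau (i + 1) t)‖ ≤
        C * N ^ a * Real.exp (N * (S.al (i + 1) + S.tl (i + 1) * (t - S.t (i + 1)) -
          2 / 5 * (t - S.t (i + 1)) ^ 2)) := by
  obtain ⟨C1, a1, hC1, H1⟩ := S.step_main hp hi h
  obtain ⟨C2, a2, hC2, H2⟩ := h.sharp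
  obtain ⟨C3, hC3, H3⟩ := S.RR_sharp hp hi
  obtain ⟨C4, hC4, H4⟩ := kap_bound (S.hy0 i hi.le)
  have hch := Real.cosh_pos (2 * π * S.y i)
  have hpi := Real.pi_pos
  refine ⟨C1 + 4 * π * (Real.cosh (2 * π * S.y i) * (C2 * C3) * C4 * (1 / 5)), a1 + (2 + a2),
    by positivity, fun N hN t ht => ?_⟩
  have hN1 : (1 : ℝ) ≤ N := by exact_mod_cast hN
  have hN0 : (0 : ℝ) ≤ N := by linarith
  have hal : S.al (i + 1) = S.al i + 2 * π * S.y i * (2 * p i * S.t i - 1) + S.fs i := rfl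
  have htl : S.tl (i + 1) = S.sr i := by
    unfold tl
    simp
  obtain ⟨u, hu⟩ : ∃ u, u = t - S.t (i + 1) := ⟨_, rfl⟩
  rw [← hu] at ht ⊢
  obtain ⟨E, hE⟩ : ∃ E, E = S.al (i + 1) + S.tl (i + 1) * u - 2 / 5 * u ^ 2 := ⟨_, rfl⟩
  rw [← hE]
  obtain ⟨b1, -⟩ := S.blk_small hp hi.le
  obtain ⟨b2, -⟩ := S.fs_bounds hp hi
  obtain ⟨-, b3⟩ := S.slopes hp hi
  obtain ⟨b4, b5⟩ := S.t_pos hp (show i + 1 ≤ n from hi)
  obtain ⟨b6, -⟩ := S.y_le hp (show i + 1 ≤ n from hi)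
  have b7 := S.hy0 (i + 1) hi
  have b8 := S.slope_eq hp hi.le
  rw [if_pos hi] at b8
  have ht' : t = u + S.t (i + 1) := by rw [hu]; ring
  have c1 := (abs_le.1 ht).1
  have c2 := (abs_le.1 ht).2
  have c3 := (abs_le.1 b1).1
  -- the difference
  have hsr : -0.0004 ≤ S.sr i * u := by
    have : |S.sr i * u| ≤ 0.004 * (1 / 10) := by
      rw [abs_mul]
      exact mul_le_mul b3 ht (abs_nonneg _) (by norm_num)
    have := (abs_le.1 this).1
    norm_num at this ⊢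
    linarith
  have hdd := stb_dd ht b4 b5 ht'
  have hexp1 : S.al i + 2 * Um - dd t - 0.006 ≤ E := by
    rw [hE, hal, htl]
    norm_num at hsr hdd b2 c3 ⊢
    linarith
  have g1 : ‖AK e p N (i + 1) (S.tau (i + 1) t) - S.Dw N i (S.tau (i + 1) t)‖ ≤
      C1 * N ^ a1 * Real.exp (N * E) := by
    refine (H1 N hN (S.tau (i + 1) t) ?_ ?_).trans ?_
    · rw [stb_tau_im, abs_of_pos b7]
      norm_num at b6 ⊢
      linarith
    · rw [stb_tau_re, ht', abs_le]
      norm_num at b5 ⊢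
      constructor <;> linarith
    · rw [stb_tau_re]
      gcongr
  -- the integral
  have g2 : ∀ s ∈ Set.uIoc (S.t i - 1 / 10) (S.t i + 1 / 10),
      ‖blk (e i) (p i) N (S.tau i s) * (AK e p N i (S.tau i s) * RR N (S.tau i s)
        (S.tau (i + 1) t)) * cc (e i) (kap N (s - S.y i * Complex.I))‖ ≤
      Real.cosh (2 * π * S.y i) * (C2 * C3) * C4 * N ^ a2 * Real.exp (N * E) := by
    intro s hs
    rw [Set.uIoc_of_le (by linarith), Set.mem_Ioc] at hs
    have hs' : |s - S.t i| ≤ 1 / 10 := by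
      rw [abs_le]
      constructor <;> linarith [hs.1, hs.2]
    have k1 := blk_norm (e i) (p i) N s (S.y i)
    have k2 := H2 N hN s hs'
    have k3 := H3 N hN s t hs' (by rw [← hu]; exact ht)
    rw [← hu] at k3
    have k4 := (H4 N hN s).1
    have hsum : 2 * π * S.y i * (2 * p i * s - 1) + (S.al i + S.tl i * (s - S.t i)) +
        (S.fs i + S.sl i * (s - S.t i) + S.sr i * u - 2 / 5 * ((s - S.t i) ^ 2 + u ^ 2)) ≤ E := by
      rw [hE, hal, htl]
      have e1 : 2 * π * S.y i * (2 * p i * s - 1) = 2 * π * S.y i * (2 * p i * S.t i - 1) +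
          4 * π * p i * S.y i * (s - S.t i) := by ring
      have e2 : (S.tl i + S.sl i + 4 * π * p i * S.y i) * (s - S.t i) = 0 := by
        rw [b8, zero_mul]
      nlinarith [sq_nonneg (s - S.t i)]
    have hexp : Real.exp (N * (2 * π * S.y i * (2 * p i * s - 1))) *
        (Real.exp (N * (S.al i + S.tl i * (s - S.t i))) *
        Real.exp (N * (S.fs i + S.sl i * (s - S.t i) + S.sr i * u -
          2 / 5 * ((s - S.t i) ^ 2 + u ^ 2)))) ≤ Real.exp (N * E) := by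
      rw [← Real.exp_add, ← Real.exp_add]
      apply Real.exp_le_exp.2
      calc _ = N * (2 * π * S.y i * (2 * p i * s - 1) + (S.al i + S.tl i * (s - S.t i)) +
          (S.fs i + S.sl i * (s - S.t i) + S.sr i * u -
            2 / 5 * ((s - S.t i) ^ 2 + u ^ 2))) := by ring
        _ ≤ _ := mul_le_mul_of_nonneg_left hsum hN0
    rw [norm_mul, norm_mul, norm_mul, DGs.cc_norm]
    calc ‖blk (e i) (p i) N (S.tau i s)‖ * (‖AK e p N i (S.tau i s)‖ *
          ‖RR N (S.tau i s) (S.tau (i + 1) t)‖) * ‖kap N (s - S.y i * Complex.I)‖ ≤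
        (Real.cosh (2 * π * S.y i) * Real.exp (N * (2 * π * S.y i * (2 * p i * s - 1)))) *
        ((C2 * N ^ a2 * Real.exp (N * (S.al i + S.tl i * (s - S.t i)))) *
        (C3 * Real.exp (N * (S.fs i + S.sl i * (s - S.t i) + S.sr i * u -
          2 / 5 * ((s - S.t i) ^ 2 + u ^ 2))))) * C4 := by
          refine mul_le_mul (mul_le_mul k1 (mul_le_mul k2 k3 (norm_nonneg _) (by positivity))
            (by positivity) (by positivity)) k4 (norm_nonneg _) (by positivity)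
      _ = Real.cosh (2 * π * S.y i) * (C2 * C3) * C4 * N ^ a2 *
        (Real.exp (N * (2 * π * S.y i * (2 * p i * s - 1))) *
        (Real.exp (N * (S.al i + S.tl i * (s - S.t i))) *
        Real.exp (N * (S.fs i + S.sl i * (s - S.t i) + S.sr i * u -
          2 / 5 * ((s - S.t i) ^ 2 + u ^ 2))))) := by ring
      _ ≤ _ := mul_le_mul_of_nonneg_left hexp (by positivity)
  have g3 := intervalIntegral.norm_integral_le_of_norm_le_const g2
  have g4 : ‖S.Dw N i (S.tau (i + 1) t)‖ ≤ 4 * π * N ^ 2 *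
      (Real.cosh (2 * π * S.y i) * (C2 * C3) * C4 * N ^ a2 * Real.exp (N * E) * (1 / 5)) := by
    unfold Dw
    rw [norm_mul, norm_mul, stb_cN, norm_pow, Complex.norm_natCast]
    refine mul_le_mul_of_nonneg_left (g3.trans (le_of_eq ?_)) (by positivity)
    congr 1
    rw [show S.t i + 1 / 10 - (S.t i - 1 / 10) = 1 / 5 by ring]
    exact abs_of_pos (by norm_num)
  have g5 : ‖AK e p N (i + 1) (S.tau (i + 1) t)‖ ≤ C1 * N ^ a1 * Real.exp (N * E) + 4 * π * N ^ 2 *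
      (Real.cosh (2 * π * S.y i) * (C2 * C3) * C4 * N ^ a2 * Real.exp (N * E) * (1 / 5)) := by
    have e1 : AK e p N (i + 1) (S.tau (i + 1) t) =
        (AK e p N (i + 1) (S.tau (i + 1) t) - S.Dw N i (S.tau (i + 1) t)) +
          S.Dw N i (S.tau (i + 1) t) := by ring
    rw [e1]
    exact (norm_add_le _ _).trans (add_le_add g1 g4)
  refine g5.trans ?_
  have p1 : (N : ℝ) ^ a1 ≤ (N : ℝ) ^ (a1 + (2 + a2)) := pow_le_pow_right₀ hN1 (by omega)
  have p2 : (N : ℝ) ^ (2 + a2) ≤ (N : ℝ) ^ (a1 + (2 + a2)) := pow_le_pow_right₀ hN1 (by omega)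
  have hEp := Real.exp_pos (N * E)
  calc C1 * N ^ a1 * Real.exp (N * E) + 4 * π * N ^ 2 *
      (Real.cosh (2 * π * S.y i) * (C2 * C3) * C4 * N ^ a2 * Real.exp (N * E) * (1 / 5)) =
      C1 * Real.exp (N * E) * (N : ℝ) ^ a1 + 4 * π * (Real.cosh (2 * π * S.y i) * (C2 * C3) * C4 *
        (1 / 5)) * Real.exp (N * E) * (N : ℝ) ^ (2 + a2) := by
        rw [pow_add]
        ring
    _ ≤ C1 * Real.exp (N * E) * (N : ℝ) ^ (a1 + (2 + a2)) + 4 * π * (Real.cosh (2 * π * S.y i) *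
        (C2 * C3) * C4 * (1 / 5)) * Real.exp (N * E) * (N : ℝ) ^ (a1 + (2 + a2)) := by
        gcongr
    _ = _ := by ring

end CP

end Pool.Agent.Kashaev.KC
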