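import Pool.Agent.Kashaev.KC.StepM
import Pool.Agent.KSM.P16

/-!
The local form of the next state.
Proof: for `τ = S.tau (i + 1) t`, `u = t - t (i + 1)`; `AL N (i + 1) τ = cN N ^ 2 * ∫ s, AL N i (S.tau i s) * blk *
(1 / N * ∫ θ, RW)`. The difference `AK (i + 1) τ - AL (i + 1) τ` is the sum of
(1) `AK (i + 1) τ - Dw τ` (`step_main`, exponent at most `al (i + 1) + tl (i + 1) u - 0.005`, as in StepB);
(2) replace `kap` by `1` (`kap_bound`, `Weak.sharp`, `RR_sharp`): a factor `exp (-2 π N y i)`, `y i > 0`;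
(3) replace `RR` by `1 / N * ∫ RW` (`RR_loc`, `Weak.sharp`): `exp (-0.04 N)`;
(4) replace `AK i` by `AL i` (`Weak.loc`, `RW_sharp`): `exp (-c N)` with the `c` of `Weak.loc`.
In (2)-(4) the exponent at `s` is `al i + tl i (s - t i) + 2 π y (2 p s - 1) + fs i + sl i (s - t i) + sr i u`
`= al (i + 1) + tl (i + 1) u` by `slope_eq`, minus the gain. Powers of `N` are absorbed by a smaller `c`
(`N ^ a ≤ D * exp (c' N)`, see `pow_le_exp` in KX/MainS). All integrands are continuous in `s` on the window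
(`AK_differentiable`, `RR_differentiable`, `kap_continuous`, `AL_cont`, `RWint_cont`).
-/

namespace Pool.Agent.Kashaev.KC

open Finset Real MeasureTheory
open Pool.Agent.Kashaev.KW
open Pool.Agent.Kashaev.KX (sg cc kap)

namespace CP

variable {n : ℕ} {e : ℕ → Bool} {p : ℕ → ℕ}

private lemma stc_pow_le_exp (K : ℕ) {c : ℝ} (hc : 0 < c) :
    ∃ D : ℝ, 0 < D ∧ ∀ N : ℕ, (N : ℝ) ^ K ≤ D * Real.exp (c * N) := by
  refine ⟨K.factorial / c ^ K, by positivity, fun N => ?_⟩
  have h := Real.pow_div_factorial_le_exp (c * N) (by positivity) K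
  rw [div_le_iff₀ (by positivity), mul_pow] at h
  rw [div_mul_eq_mul_div, le_div_iff₀ (by positivity)]
  linarith

private lemma stc_norm_cc (e : Bool) (z : ℂ) : ‖cc e z‖ = ‖z‖ := by
  cases e <;> simp [KX.cc]

private lemma stc_cc_sub_one (e : Bool) (z : ℂ) : ‖cc e z - 1‖ = ‖z - 1‖ := by
  cases e
  · have : cc false z - 1 = (starRingEnd ℂ) (z - 1) := by simp [KX.cc]
    rw [this, RCLike.norm_conj]
  · simp [KX.cc]

private lemma stc_norm_cN (e : Bool) (N : ℕ) : ‖cN e N‖ = 4 * π := by
  unfold cN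
  have h1 : ‖((sg e : ℝ) : ℂ)‖ = 1 := by
    cases e <;> simp [KX.sg]
  have h2 : ‖((-1 : ℂ)) ^ N‖ = 1 := by simp
  rw [norm_mul, norm_mul, norm_neg, h1, h2, norm_mul, norm_mul, Complex.norm_I,
    Complex.norm_real, Real.norm_eq_abs, abs_of_pos Real.pi_pos]
  simp

private lemma stc_tauC_eq (e : Bool) (t y : ℝ) :
    tauC e t y = ((t : ℝ) : ℂ) + ((-(sg e * y) : ℝ) : ℂ) * Complex.I := by
  unfold tauC
  push_cast
  ring

private lemma stc_tau_re (S : CP n e p) (i : ℕ) (t : ℝ) : (S.tau i t).re = t := by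
  unfold tau
  rw [stc_tauC_eq]
  simp

private lemma stc_tau_im (S : CP n e p) (i : ℕ) (t : ℝ) : |(S.tau i t).im| = |S.Y i| := by
  unfold tau Y
  rw [stc_tauC_eq]
  simp

private lemma stc_tau_cont (S : CP n e p) (i : ℕ) : Continuous (S.tau i) := by
  unfold tau tauC
  fun_prop

private lemma stc_blk_cont (S : CP n e p) (e' : Bool) (p' N i : ℕ) :
    Continuous (fun s : ℝ => blk e' p' N (S.tau i s)) := by
  have h := S.stc_tau_cont i
  unfold blk
  fun_prop

private lemma stc_cc_cont (e : Bool) : Continuous (cc e) := by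
  cases e
  · have : cc false = (starRingEnd ℂ) := by
      funext z
      simp [KX.cc]
    rw [this]
    exact Complex.continuous_conj
  · have : cc true = id := by
      funext z
      simp [KX.cc]
    rw [this]
    exact continuous_id

/-- the exponents add up -/
private lemma stc_exponent (S : CP n e p) (hp : ∀ i ≤ n, 1000 ≤ p i) {i : ℕ} (hi : i < n)
    (s t : ℝ) :
    2 * π * S.y i * (2 * p i * s - 1) + (S.al i + S.tl i * (s - S.t i)) +
      (S.fs i + S.sl i * (s - S.t i) + S.sr i * (t - S.t (i + 1))) =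
      S.al (i + 1) + S.tl (i + 1) * (t - S.t (i + 1)) := by
  have h := S.slope_eq hp hi.le
  rw [if_pos hi] at h
  have h1 : S.tl (i + 1) = S.sr i := by
    unfold tl
    simp
  have h2 : S.al (i + 1) = S.al i + 2 * π * S.y i * (2 * p i * S.t i - 1) + S.fs i := rfl
  rw [h1, h2]
  have h3 : S.sl i = -(S.tl i + 4 * π * p i * S.y i) := by linarith
  rw [h3]
  ring

theorem step_loc (S : CP n e p) (hp : ∀ i ≤ n, 1000 ≤ p i) {i : ℕ} (hi : i < n)
    (h : S.Weak i) : ∃ C c : ℝ, 0 < C ∧ 0 < c ∧ ∀ N : ℕ, 1 ≤ N → ∀ t : ℝ,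
      |t - S.t (i + 1)| ≤ 1 / 10 →
      ‖AK e p N (i + 1) (S.tau (i + 1) t) - S.AL N (i + 1) (S.tau (i + 1) t)‖ ≤
        C * Real.exp (N * (S.al (i + 1) + S.tl (i + 1) * (t - S.t (i + 1)) - c)) := by
  have hpi := Real.pi_pos
  have hy := S.hy0 i hi.le
  obtain ⟨C1, a1, hC1, H1⟩ := S.step_main hp hi h
  obtain ⟨C2, a2, hC2, H2⟩ := h.sharp
  obtain ⟨C3, c3, hC3, hc3, H3⟩ := h.loc
  obtain ⟨C4, hC4, H4⟩ := S.RR_sharp hp hi
  obtain ⟨C5, hC5, H5⟩ := S.RR_loc hp hi
  obtain ⟨C6, hC6, H6⟩ := S.RW_sharp hp hi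
  obtain ⟨C7, hC7, H7⟩ := kap_bound hy
  set c0 : ℝ := min (min 0.005 (2 * π * S.y i)) (min 0.04 c3) with hc0
  have hc0p : 0 < c0 := by
    rw [hc0]
    refine lt_min (lt_min (by norm_num) (by positivity)) (lt_min (by norm_num) hc3)
  have l1 : c0 ≤ 0.005 := (min_le_left _ _).trans (min_le_left _ _)
  have l2 : c0 ≤ 2 * π * S.y i := (min_le_left _ _).trans (min_le_right _ _)
  have l3 : c0 ≤ 0.04 := (min_le_right _ _).trans (min_le_left _ _)
  have l4 : c0 ≤ c3 := (min_le_right _ _).trans (min_le_right _ _)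
  set Ch : ℝ := Real.cosh (2 * π * S.y i) with hCh
  have hChp : 0 < Ch := Real.cosh_pos _
  set K1 : ℝ := Ch * (C2 * C4 * C7 + C2 * C5 + C3 * C6) with hK1
  have hK1p : 0 < K1 := by positivity
  obtain ⟨D, hD, HD⟩ := stc_pow_le_exp (a1 + a2 + 2) (show 0 < c0 / 2 by linarith)
  refine ⟨(C1 + 4 * π * K1) * D, c0 / 2, by positivity, by linarith, fun N hN t ht => ?_⟩
  have hN0 : (0 : ℝ) ≤ N := Nat.cast_nonneg N
  have hN1 : (1 : ℝ) ≤ N := by exact_mod_cast hN
  have hNC : (N : ℂ) ≠ 0 := by
    rw [Nat.cast_ne_zero]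
    omega
  set X : ℝ := S.al (i + 1) + S.tl (i + 1) * (t - S.t (i + 1)) with hX
  set τ : ℂ := S.tau (i + 1) t with hτ
  have hi1 : i + 1 ≤ n := hi
  have hti1 := S.t_pos hp hi1
  have hti := S.t_pos hp hi.le
  have hyi1 := S.y_le hp hi1
  have hsl := S.slopes hp hi
  have hfs := S.fs_bounds hp hi
  have hbs := S.blk_small hp hi.le
  have hu := abs_le.1 ht
  have htl1 : S.tl (i + 1) = S.sr i := by
    unfold tl
    simp
  -- part (1)
  have part1 : ‖AK e p N (i + 1) τ - S.Dw N i τ‖ ≤
      C1 * N ^ a1 * Real.exp (N * (X - c0)) := by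
    refine (H1 N hN τ ?_ ?_).trans ?_
    · rw [hτ, stc_tau_im]
      linarith [hyi1.2]
    · rw [hτ, stc_tau_re, abs_le]
      constructor <;> linarith [hu.1, hu.2, hti1.1, hti1.2]
    · have hle : S.al i + 2 * Um - dd τ.re - 0.006 ≤ X - c0 := by
        have h1 := dd_nonneg τ.re
        have h2 : S.al (i + 1) = S.al i + 2 * π * S.y i * (2 * p i * S.t i - 1) + S.fs i := rfl
        have h3 := abs_le.1 hbs.1
        have h4 : |S.tl (i + 1) * (t - S.t (i + 1))| ≤ 0.004 * (1 / 10) := by
          rw [abs_mul, htl1]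
          exact mul_le_mul hsl.2 ht (abs_nonneg _) (by norm_num)
        have h5 := abs_le.1 h4
        rw [hX, h2]
        linarith [h3.1, h5.1, hfs.1]
      have : 0 ≤ C1 * (N : ℝ) ^ a1 := by positivity
      gcongr
  -- parts (2)-(4)
  set W : ℝ → ℂ := fun s => ∫ θ in (S.θ i - 1 / 10)..(S.θ i + 1 / 10),
      RW N (S.The i θ) (S.tau i s) τ with hW
  set F1 : ℝ → ℂ := fun s => blk (e i) (p i) N (S.tau i s) *
      (AK e p N i (S.tau i s) * RR N (S.tau i s) τ) *
      cc (e i) (kap N (s - S.y i * Complex.I)) with hF1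
  set F2 : ℝ → ℂ := fun s => S.AL N i (S.tau i s) * blk (e i) (p i) N (S.tau i s) *
      (1 / N * W s) with hF2
  have hle : S.t i - 1 / 10 ≤ S.t i + 1 / 10 := by linarith
  have hcF1 : IntervalIntegrable F1 volume (S.t i - 1 / 10) (S.t i + 1 / 10) := by
    have g1 := S.stc_blk_cont (e i) (p i) N i
    have g2 : Continuous (fun s : ℝ => AK e p N i (S.tau i s)) :=
      (AK_differentiable e p N i).continuous.comp (S.stc_tau_cont i)
    have g3 : Continuous (fun s : ℝ => RR N (S.tau i s) τ) :=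
      (RR_differentiable N τ).continuous.comp (S.stc_tau_cont i)
    have g4 : Continuous (fun s : ℝ => cc (e i) (kap N (s - S.y i * Complex.I))) :=
      (stc_cc_cont (e i)).comp (kap_continuous hy hN)
    exact ((g1.mul (g2.mul g3)).mul g4).intervalIntegrable _ _
  have hwt : Set.uIcc (S.t i - 1 / 10) (S.t i + 1 / 10) = S.wt i := by
    rw [Set.uIcc_of_le hle]
    rfl
  have htw : t ∈ S.wt (i + 1) := by
    unfold wt
    rw [Set.mem_Icc]
    constructor <;> linarith [hu.1, hu.2]
  have hcF2 : IntervalIntegrable F2 volume (S.t i - 1 / 10) (S.t i + 1 / 10) := by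
    apply ContinuousOn.intervalIntegrable
    rw [hwt]
    have g1 := (S.stc_blk_cont (e i) (p i) N i).continuousOn (s := S.wt i)
    have g2 := S.AL_cont hp hi.le hN
    have g3 : ContinuousOn W (S.wt i) := by
      have g4 := S.RWint_cont hp hi hN
      have g5 : ContinuousOn (fun s : ℝ => (s, t)) (S.wt i) := by fun_prop
      have g6 := g4.comp g5 (fun s hs => Set.mk_mem_prod hs htw)
      exact g6
    exact (g2.mul g1).mul (continuousOn_const.mul g3)
  have hDw : S.Dw N i τ = cN (e i) N * N ^ 2 * ∫ s in (S.t i - 1 / 10)..(S.t i + 1 / 10), F1 s :=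
    rfl
  have hAL : S.AL N (i + 1) τ =
      cN (e i) N * N ^ 2 * ∫ s in (S.t i - 1 / 10)..(S.t i + 1 / 10), F2 s := by
    have e1 : S.AL N (i + 1) τ = cN (e i) N * N *
        ∫ s in (S.t i - 1 / 10)..(S.t i + 1 / 10),
          S.AL N i (S.tau i s) * blk (e i) (p i) N (S.tau i s) * W s := rfl
    have e2 : ∀ s, F2 s = (1 / (N : ℂ)) *
        (S.AL N i (S.tau i s) * blk (e i) (p i) N (S.tau i s) * W s) := by
      intro s
      rw [hF2]
      ring
    rw [e1]
    simp only [e2]
    rw [intervalIntegral.integral_const_mul]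
    field_simp
  have part2 : ‖S.Dw N i τ - S.AL N (i + 1) τ‖ ≤
      4 * π * K1 * N ^ (a2 + 2) * Real.exp (N * (X - c0)) := by
    rw [hDw, hAL, ← mul_sub, ← intervalIntegral.integral_sub hcF1 hcF2, norm_mul, norm_mul,
      stc_norm_cN, norm_pow, Complex.norm_natCast]
    have hb : ∀ s ∈ Set.uIoc (S.t i - 1 / 10) (S.t i + 1 / 10),
        ‖F1 s - F2 s‖ ≤ K1 * N ^ a2 * Real.exp (N * (X - c0)) := by
      intro s hs
      rw [Set.uIoc_of_le hle] at hs
      have hs' : |s - S.t i| ≤ 1 / 10 := by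
        rw [abs_le]
        constructor <;> linarith [hs.1, hs.2]
      have b1 : ‖blk (e i) (p i) N (S.tau i s)‖ ≤
          Ch * Real.exp (N * (2 * π * S.y i * (2 * p i * s - 1))) :=
        blk_norm (e i) (p i) N s (S.y i)
      have b2 := H2 N hN s hs'
      have b3 := H3 N hN s hs'
      have b4 : ‖RR N (S.tau i s) τ‖ ≤ C4 * Real.exp (N * (S.fs i + S.sl i * (s - S.t i) +
          S.sr i * (t - S.t (i + 1)))) := by
        refine (H4 N hN s t hs' ht).trans ?_
        have : 0 ≤ 2 / 5 * ((s - S.t i) ^ 2 + (t - S.t (i + 1)) ^ 2) := by positivity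
        gcongr
        linarith
      have b5 : ‖RR N (S.tau i s) τ - 1 / N * W s‖ ≤ C5 * Real.exp (N * (S.fs i +
          S.sl i * (s - S.t i) + S.sr i * (t - S.t (i + 1)) - 0.04)) := H5 N hN s t hs' ht
      have b6 : ‖W s‖ ≤ C6 * Real.exp (N * (S.fs i + S.sl i * (s - S.t i) +
          S.sr i * (t - S.t (i + 1)))) := by
        have hθ : S.θ i - 1 / 10 ≤ S.θ i + 1 / 10 := by linarith
        have q : ∀ θ ∈ Set.uIoc (S.θ i - 1 / 10) (S.θ i + 1 / 10),
            ‖RW N (S.The i θ) (S.tau i s) τ‖ ≤ C6 * Real.exp (N * (S.fs i +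
              S.sl i * (s - S.t i) + S.sr i * (t - S.t (i + 1)))) := by
          intro θ hθs
          rw [Set.uIoc_of_le hθ] at hθs
          refine (H6 N hN θ s t ?_ hs' ht).trans ?_
          · rw [abs_le]
            constructor <;> linarith [hθs.1, hθs.2]
          · have : 0 ≤ 2 / 5 * ((s - S.t i) ^ 2 + (t - S.t (i + 1)) ^ 2) := by positivity
            gcongr
            linarith
        have q2 := intervalIntegral.norm_integral_le_of_norm_le_const q
        refine q2.trans ?_
        have q3 : |S.θ i + 1 / 10 - (S.θ i - 1 / 10)| ≤ 1 := by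
          rw [abs_le]
          constructor <;> linarith
        calc _ ≤ C6 * Real.exp (N * (S.fs i + S.sl i * (s - S.t i) +
              S.sr i * (t - S.t (i + 1)))) * 1 := by gcongr
          _ = _ := mul_one _
      have b6' : ‖(1 / (N : ℂ)) * W s‖ ≤ C6 * Real.exp (N * (S.fs i + S.sl i * (s - S.t i) +
          S.sr i * (t - S.t (i + 1)))) := by
        rw [norm_mul]
        have q4 : ‖(1 / (N : ℂ))‖ ≤ 1 := by
          rw [norm_div, norm_one, Complex.norm_natCast, div_le_one (by linarith)]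
          exact hN1
        calc ‖(1 / (N : ℂ))‖ * ‖W s‖ ≤ 1 * (C6 * Real.exp (N * (S.fs i +
              S.sl i * (s - S.t i) + S.sr i * (t - S.t (i + 1))))) := by gcongr
          _ = _ := one_mul _
      have b7 : ‖cc (e i) (kap N (s - S.y i * Complex.I)) - 1‖ ≤
          C7 * Real.exp (-(2 * π * N * S.y i)) := by
        rw [stc_cc_sub_one]
        exact (H7 N hN s).2
      have hexp := S.stc_exponent hp hi s t
      rw [← hX] at hexp
      -- abbreviations for the exponents
      set B : ℝ := 2 * π * S.y i * (2 * p i * s - 1) with hB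
      set A : ℝ := S.al i + S.tl i * (s - S.t i) with hA
      set R : ℝ := S.fs i + S.sl i * (s - S.t i) + S.sr i * (t - S.t (i + 1)) with hR
      have hNa : (1 : ℝ) ≤ (N : ℝ) ^ a2 := one_le_pow₀ hN1
      have split : F1 s - F2 s = blk (e i) (p i) N (S.tau i s) *
          (AK e p N i (S.tau i s) * RR N (S.tau i s) τ *
            (cc (e i) (kap N (s - S.y i * Complex.I)) - 1) +
          AK e p N i (S.tau i s) * (RR N (S.tau i s) τ - 1 / N * W s) +
          (AK e p N i (S.tau i s) - S.AL N i (S.tau i s)) * (1 / N * W s)) := by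
        rw [hF1, hF2]
        ring
      rw [split, norm_mul]
      have t1 : ‖AK e p N i (S.tau i s) * RR N (S.tau i s) τ *
            (cc (e i) (kap N (s - S.y i * Complex.I)) - 1)‖ ≤
          (C2 * N ^ a2 * Real.exp (N * A)) * (C4 * Real.exp (N * R)) *
            (C7 * Real.exp (-(2 * π * N * S.y i))) := by
        rw [norm_mul, norm_mul]
        gcongr
      have t2 : ‖AK e p N i (S.tau i s) * (RR N (S.tau i s) τ - 1 / N * W s)‖ ≤
          (C2 * N ^ a2 * Real.exp (N * A)) * (C5 * Real.exp (N * (R - 0.04))) := by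
        rw [norm_mul]
        gcongr
      have t3 : ‖(AK e p N i (S.tau i s) - S.AL N i (S.tau i s)) * (1 / N * W s)‖ ≤
          (C3 * Real.exp (N * (A - c3))) * (C6 * Real.exp (N * R)) := by
        rw [norm_mul]
        gcongr
      have t4 := (norm_add₃_le (a := AK e p N i (S.tau i s) * RR N (S.tau i s) τ *
            (cc (e i) (kap N (s - S.y i * Complex.I)) - 1))
          (b := AK e p N i (S.tau i s) * (RR N (S.tau i s) τ - 1 / N * W s))
          (c := (AK e p N i (S.tau i s) - S.AL N i (S.tau i s)) * (1 / N * W s))).trans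
        (add_le_add (add_le_add t1 t2) t3)
      have t5 : ‖blk (e i) (p i) N (S.tau i s)‖ * ‖AK e p N i (S.tau i s) *
            RR N (S.tau i s) τ * (cc (e i) (kap N (s - S.y i * Complex.I)) - 1) +
          AK e p N i (S.tau i s) * (RR N (S.tau i s) τ - 1 / N * W s) +
          (AK e p N i (S.tau i s) - S.AL N i (S.tau i s)) * (1 / N * W s)‖ ≤
          (Ch * Real.exp (N * B)) *
          ((C2 * N ^ a2 * Real.exp (N * A)) * (C4 * Real.exp (N * R)) *
            (C7 * Real.exp (-(2 * π * N * S.y i))) +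
          (C2 * N ^ a2 * Real.exp (N * A)) * (C5 * Real.exp (N * (R - 0.04))) +
          (C3 * Real.exp (N * (A - c3))) * (C6 * Real.exp (N * R))) :=
        mul_le_mul b1 t4 (norm_nonneg _) (by positivity)
      refine t5.trans ?_
      have x1 : Real.exp (N * B) * Real.exp (N * A) * Real.exp (N * R) *
          Real.exp (-(2 * π * N * S.y i)) ≤ Real.exp (N * (X - c0)) := by
        rw [← Real.exp_add, ← Real.exp_add, ← Real.exp_add]
        apply Real.exp_le_exp.2
        have : (N : ℝ) * B + N * A + N * R + -(2 * π * N * S.y i) =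
            N * (X - 2 * π * S.y i) := by
          rw [← hexp]
          ring
        rw [this]
        have := mul_le_mul_of_nonneg_left l2 hN0
        nlinarith
      have x2 : Real.exp (N * B) * Real.exp (N * A) * Real.exp (N * (R - 0.04)) ≤
          Real.exp (N * (X - c0)) := by
        rw [← Real.exp_add, ← Real.exp_add]
        apply Real.exp_le_exp.2
        have : (N : ℝ) * B + N * A + N * (R - 0.04) = N * (X - 0.04) := by
          rw [← hexp]
          ring
        rw [this]
        have := mul_le_mul_of_nonneg_left l3 hN0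
        nlinarith
      have x3 : Real.exp (N * B) * Real.exp (N * (A - c3)) * Real.exp (N * R) ≤
          Real.exp (N * (X - c0)) := by
        rw [← Real.exp_add, ← Real.exp_add]
        apply Real.exp_le_exp.2
        have : (N : ℝ) * B + N * (A - c3) + N * R = N * (X - c3) := by
          rw [← hexp]
          ring
        rw [this]
        have := mul_le_mul_of_nonneg_left l4 hN0
        nlinarith
      calc (Ch * Real.exp (N * B)) *
          ((C2 * N ^ a2 * Real.exp (N * A)) * (C4 * Real.exp (N * R)) *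
            (C7 * Real.exp (-(2 * π * N * S.y i))) +
          (C2 * N ^ a2 * Real.exp (N * A)) * (C5 * Real.exp (N * (R - 0.04))) +
          (C3 * Real.exp (N * (A - c3))) * (C6 * Real.exp (N * R))) =
          Ch * (C2 * C4 * C7) * N ^ a2 * (Real.exp (N * B) * Real.exp (N * A) *
            Real.exp (N * R) * Real.exp (-(2 * π * N * S.y i))) +
          Ch * (C2 * C5) * N ^ a2 * (Real.exp (N * B) * Real.exp (N * A) *
            Real.exp (N * (R - 0.04))) +
          Ch * (C3 * C6) * 1 * (Real.exp (N * B) * Real.exp (N * (A - c3)) *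
            Real.exp (N * R)) := by ring
        _ ≤ Ch * (C2 * C4 * C7) * N ^ a2 * Real.exp (N * (X - c0)) +
          Ch * (C2 * C5) * N ^ a2 * Real.exp (N * (X - c0)) +
          Ch * (C3 * C6) * N ^ a2 * Real.exp (N * (X - c0)) := by gcongr
        _ = K1 * N ^ a2 * Real.exp (N * (X - c0)) := by
          rw [hK1]
          ring
    have hint := intervalIntegral.norm_integral_le_of_norm_le_const hb
    have q3 : |S.t i + 1 / 10 - (S.t i - 1 / 10)| ≤ 1 := by
      rw [abs_le]
      constructor <;> linarith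
    calc 4 * π * (N : ℝ) ^ 2 * ‖∫ s in (S.t i - 1 / 10)..(S.t i + 1 / 10), (F1 s - F2 s)‖ ≤
        4 * π * (N : ℝ) ^ 2 * (K1 * N ^ a2 * Real.exp (N * (X - c0)) * 1) := by
          refine mul_le_mul_of_nonneg_left (hint.trans ?_) (by positivity)
          gcongr
      _ = 4 * π * K1 * N ^ (a2 + 2) * Real.exp (N * (X - c0)) := by
          rw [pow_add]
          ring
  have htot : ‖AK e p N (i + 1) τ - S.AL N (i + 1) τ‖ ≤
      C1 * N ^ a1 * Real.exp (N * (X - c0)) +
        4 * π * K1 * N ^ (a2 + 2) * Real.exp (N * (X - c0)) := by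
    have : AK e p N (i + 1) τ - S.AL N (i + 1) τ =
        (AK e p N (i + 1) τ - S.Dw N i τ) + (S.Dw N i τ - S.AL N (i + 1) τ) := by ring
    rw [this]
    exact (norm_add_le _ _).trans (add_le_add part1 part2)
  refine htot.trans ?_
  have p1 : (N : ℝ) ^ a1 ≤ (N : ℝ) ^ (a1 + a2 + 2) := pow_le_pow_right₀ hN1 (by omega)
  have p2 : (N : ℝ) ^ (a2 + 2) ≤ (N : ℝ) ^ (a1 + a2 + 2) := pow_le_pow_right₀ hN1 (by omega)
  have hDN := HD N
  calc C1 * N ^ a1 * Real.exp (N * (X - c0)) +
        4 * π * K1 * N ^ (a2 + 2) * Real.exp (N * (X - c0)) ≤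
      C1 * N ^ (a1 + a2 + 2) * Real.exp (N * (X - c0)) +
        4 * π * K1 * N ^ (a1 + a2 + 2) * Real.exp (N * (X - c0)) := by gcongr
    _ = (C1 + 4 * π * K1) * N ^ (a1 + a2 + 2) * Real.exp (N * (X - c0)) := by ring
    _ ≤ (C1 + 4 * π * K1) * (D * Real.exp (c0 / 2 * N)) * Real.exp (N * (X - c0)) := by gcongr
    _ = (C1 + 4 * π * K1) * D * (Real.exp (c0 / 2 * N) * Real.exp (N * (X - c0))) := by ring
    _ = (C1 + 4 * π * K1) * D * Real.exp (N * (X - c0 / 2)) := by
      rw [← Real.exp_add]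
      congr 2
      ring

end CP

end Pool.Agent.Kashaev.KC
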