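import Pool.Agent.Kashaev.KC.StepA
import Pool.Agent.Kashaev.KC.StepB
import Pool.Agent.Kashaev.KC.StepC

/-!
The induction and the last region.
Proof of `kash_loc`: `strong_all` for `i = n`. `DG_split` with `f = AK e p N n`, `η = 0.0005`; outside of the window the
exponent is `al n + 0.001 - 0.0098 + 0.0013 + 0.0005 ≤ V - 0.006` (`V = al n + 2 π y n (2 p n t n - 1)`).
In the window replace `kap` by `1` (`kap_bound`, `Strong.sharp`) and `AK n` by `AL n` (`Strong.loc`); the exponent
is `al n + tl n (t - t n) + 2 π y (2 p t - 1) = V` minus the gain, by `slope_eq` for `i = n`.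
-/

namespace Pool.Agent.Kashaev.KC

open Finset Real MeasureTheory
open Pool.Agent.Kashaev.KW
open Pool.Agent.Kashaev.KX (sg cc kap)

namespace CP

variable {n : ℕ} {e : ℕ → Bool} {p : ℕ → ℕ}

theorem strong_succ (S : CP n e p) (hp : ∀ i ≤ n, 1000 ≤ p i) {i : ℕ} (hi : i < n)
    (h : S.Weak i) : S.Strong (i + 1) :=
  ⟨S.step_crude hp hi h, S.step_sharp hp hi h, S.step_loc hp hi h⟩

theorem weak_all (S : CP n e p) (hp : ∀ i ≤ n, 1000 ≤ p i) : ∀ i ≤ n, S.Weak i
  | 0, _ => S.weak_zero
  | i + 1, hi => (S.strong_succ hp (by omega) (S.weak_all hp i (by omega))).weak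

theorem strong_all (S : CP n e p) (hp : ∀ i ≤ n, 1000 ≤ p i) (hn : 1 ≤ n) : S.Strong n := by
  obtain ⟨m, rfl⟩ : ∃ m, n = m + 1 := ⟨n - 1, by omega⟩
  exact S.strong_succ hp (by omega) (S.weak_all hp m (by omega))

private theorem pow_absorb (k : ℕ) {c : ℝ} (hc : 0 < c) :
    ∃ D > 0, ∀ N : ℕ, (N : ℝ) ^ k ≤ D * Real.exp (N * c) := by
  refine ⟨(k.factorial : ℝ) / c ^ k, by positivity, fun N => ?_⟩
  have h := Real.pow_div_factorial_le_exp ((N : ℝ) * c) (by positivity) k
  rw [div_le_iff₀ (by positivity), mul_pow] at h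
  rw [div_mul_eq_mul_div, le_div_iff₀ (by positivity)]
  linarith

private theorem cN_norm (e : Bool) (N : ℕ) : ‖cN e N‖ = 4 * π := by
  have hpi := Real.pi_pos
  unfold cN
  rw [norm_mul, norm_mul, norm_neg, norm_pow, norm_neg, norm_one, one_pow, mul_one, norm_mul,
    norm_mul, Complex.norm_I, mul_one, Complex.norm_real, Complex.norm_real, Real.norm_eq_abs,
    Real.norm_eq_abs, abs_of_pos hpi]
  cases e <;> simp [sg]

private theorem cc_kap_sub (e : Bool) (z : ℂ) : ‖cc e z - 1‖ = ‖z - 1‖ := by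
  have h : cc e z - 1 = cc e (z - 1) := by
    rw [DGs.cc_sub]
    congr 1
    cases e
    · simp [cc_false]
    · rw [cc_true]
  rw [h, DGs.cc_norm]

theorem kash_loc (S : CP n e p) (hp : ∀ i ≤ n, 1000 ≤ p i) (hn : 1 ≤ n) :
    ∃ C c : ℝ, 0 < C ∧ 0 < c ∧ ∀ N : ℕ, 1 ≤ N →
      ‖DG (e n) (p n) N (AK e p N n) - cN (e n) N * N ^ 2 *
          ∫ t in (S.t n - 1 / 10)..(S.t n + 1 / 10),
            S.AL N n (S.tau n t) * blk (e n) (p n) N (S.tau n t)‖ ≤
        C * Real.exp (N * (S.V - c)) := by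
  have hpi := Real.pi_pos
  have hS := S.strong_all hp hn
  obtain ⟨C1, a1, hC1, hcr⟩ := hS.crude
  obtain ⟨C2, a2, hC2, hsh⟩ := hS.sharp
  obtain ⟨C3, c3, hC3, hc3, hlo⟩ := hS.loc
  have hy := S.hy0 n le_rfl
  obtain ⟨hy6, -⟩ := S.y_le hp (le_refl n)
  obtain ⟨ht0, ht1⟩ := S.t_pos hp (le_refl n)
  obtain ⟨hb1, -, hb3, hb4⟩ := S.blk_small hp (le_refl n)
  have hb1' := (abs_le.1 hb1).1
  obtain ⟨C4, hC4, hspl⟩ := DG_split (p := p n) (by have := hp n le_rfl; omega) (e n)
    (y := S.y n) (t1 := S.t n - 1 / 10) (t2 := S.t n + 1 / 10) (η := 0.0005) hy (by linarith)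
    (by linarith) (by linarith) hb4 (by norm_num)
  obtain ⟨C5, hC5, hkap⟩ := kap_bound hy
  have hslope := S.slope_eq hp (le_refl n)
  rw [if_neg (lt_irrefl n), add_zero] at hslope
  have hV : S.V = S.al n + 2 * π * S.y n * (2 * p n * S.t n - 1) := rfl
  obtain ⟨D1, hD1, hD1'⟩ := pow_absorb (a1 + 2) (c := 0.003) (by norm_num)
  obtain ⟨D2, hD2, hD2'⟩ := pow_absorb (a2 + 2) (c := π * S.y n) (by positivity)
  obtain ⟨D3, hD3, hD3'⟩ := pow_absorb 2 (c := c3 / 2) (by positivity)
  set H : ℝ := Real.cosh (2 * π * S.y n) with hH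
  have hH0 : 0 < H := Real.cosh_pos _
  set c : ℝ := min 0.003 (min (π * S.y n) (c3 / 2)) with hc
  have hc0 : 0 < c := by
    rw [hc]
    exact lt_min (by norm_num) (lt_min (by positivity) (by positivity))
  have hcA : c ≤ 0.003 := min_le_left _ _
  have hcB : c ≤ π * S.y n := (min_le_right _ _).trans (min_le_left _ _)
  have hcC : c ≤ c3 / 2 := (min_le_right _ _).trans (min_le_right _ _)
  refine ⟨C4 * C1 * D1 + 4 * π * (H * C2 * C5 * D2 + H * C3 * D3), c, by positivity, hc0,
    fun N hN => ?_⟩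
  have hN0 : (0 : ℝ) < N := by exact_mod_cast hN
  -- first part
  have hA := hspl N hN (AK e p N n) (AK_differentiable e p N n) (AK_even e p N n)
    (C1 * N ^ a1 * Real.exp (N * (S.al n + 0.001 - 0.0098))) (by positivity) (by
      intro τ h1 h2 h3
      refine (hcr N hN τ (h1.trans (by linarith)) h2).trans ?_
      have hdd : 0.0098 ≤ dd τ.re := by
        unfold dd
        refine le_min ?_ (by norm_num)
        rcases h3 with h3 | h3
        · nlinarith
        · nlinarith
      gcongr)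
  have hA' : C4 * N ^ 2 * Real.exp (N * (2 * π * S.y n * (2 * p n * (S.t n + 1 / 10) - 1) + 0.0005)) *
      (C1 * N ^ a1 * Real.exp (N * (S.al n + 0.001 - 0.0098))) ≤
      C4 * C1 * D1 * Real.exp (N * (S.V - c)) := by
    have e1 : C4 * N ^ 2 * Real.exp (N * (2 * π * S.y n * (2 * p n * (S.t n + 1 / 10) - 1) + 0.0005)) *
        (C1 * N ^ a1 * Real.exp (N * (S.al n + 0.001 - 0.0098))) =
        C4 * C1 * (N : ℝ) ^ (a1 + 2) * Real.exp (N * (2 * π * S.y n *
          (2 * p n * (S.t n + 1 / 10) - 1) + 0.0005 + (S.al n + 0.001 - 0.0098))) := by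
      rw [mul_add (N : ℝ) (2 * π * S.y n * (2 * p n * (S.t n + 1 / 10) - 1) + 0.0005), Real.exp_add]
      ring
    rw [e1]
    calc C4 * C1 * (N : ℝ) ^ (a1 + 2) * Real.exp (N * (2 * π * S.y n *
          (2 * p n * (S.t n + 1 / 10) - 1) + 0.0005 + (S.al n + 0.001 - 0.0098)))
        ≤ C4 * C1 * (D1 * Real.exp (N * 0.003)) * Real.exp (N * (S.V - 0.006)) := by
          have h1 := hD1' N
          gcongr
          rw [hV]
          linarith
      _ = C4 * C1 * D1 * Real.exp (N * (S.V - 0.003)) := by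
          have : (N : ℝ) * (S.V - 0.003) = N * 0.003 + N * (S.V - 0.006) := by ring
          rw [this, Real.exp_add]
          ring
      _ ≤ _ := by gcongr
  -- second part
  set F : ℝ → ℂ := fun t => blk (e n) (p n) N (tauC (e n) t (S.y n)) *
    AK e p N n (tauC (e n) t (S.y n)) * cc (e n) (kap N (t - S.y n * Complex.I)) with hF
  set G : ℝ → ℂ := fun t => S.AL N n (S.tau n t) * blk (e n) (p n) N (S.tau n t) with hG
  have hle : S.t n - 1 / 10 ≤ S.t n + 1 / 10 := by linarith
  have htc : Continuous fun t : ℝ => tauC (e n) t (S.y n) := by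
    unfold tauC
    fun_prop
  have hblk : Continuous fun t : ℝ => blk (e n) (p n) N (tauC (e n) t (S.y n)) := by
    unfold blk
    fun_prop
  have hAKc : Continuous fun t : ℝ => AK e p N n (tauC (e n) t (S.y n)) :=
    (AK_differentiable e p N n).continuous.comp htc
  have hccc : Continuous fun t : ℝ => cc (e n) (kap N (t - S.y n * Complex.I)) := by
    have h1 := kap_continuous hy hN
    cases e n
    · simp only [cc_false]
      exact Complex.continuous_conj.comp h1
    · simp only [cc_true]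
      exact h1
  have hFc : Continuous F := (hblk.mul hAKc).mul hccc
  have hGc : ContinuousOn G (Set.uIcc (S.t n - 1 / 10) (S.t n + 1 / 10)) := by
    rw [Set.uIcc_of_le hle]
    exact (S.AL_cont hp (le_refl n) hN).mul hblk.continuousOn
  have hpt : ∀ t ∈ Set.uIoc (S.t n - 1 / 10) (S.t n + 1 / 10), ‖F t - G t‖ ≤
      H * C2 * C5 * N ^ a2 * Real.exp (N * (S.V - 2 * π * S.y n)) +
        H * C3 * Real.exp (N * (S.V - c3)) := by
    intro t ht
    rw [Set.uIoc_of_le hle] at ht
    have hta : |t - S.t n| ≤ 1 / 10 := abs_le.2 ⟨by linarith [ht.1], by linarith [ht.2]⟩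
    have e1 : F t - G t = blk (e n) (p n) N (tauC (e n) t (S.y n)) *
        (AK e p N n (S.tau n t) * (cc (e n) (kap N (t - S.y n * Complex.I)) - 1)) +
        blk (e n) (p n) N (tauC (e n) t (S.y n)) *
          (AK e p N n (S.tau n t) - S.AL N n (S.tau n t)) := by
      rw [hF, hG]
      simp only [tau]
      ring
    have h1 := blk_norm (e n) (p n) N t (S.y n)
    rw [← hH] at h1
    have h2 := hsh N hN t hta
    have h2' : ‖AK e p N n (S.tau n t)‖ ≤
        C2 * N ^ a2 * Real.exp (N * (S.al n + S.tl n * (t - S.t n))) := by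
      refine h2.trans ?_
      have := sq_nonneg (t - S.t n)
      gcongr
      linarith
    have h3 := hlo N hN t hta
    have h4 : ‖cc (e n) (kap N (t - S.y n * Complex.I)) - 1‖ ≤
        C5 * Real.exp (-(2 * π * N * S.y n)) := by
      rw [cc_kap_sub]
      exact (hkap N hN t).2
    have hexp : 2 * π * S.y n * (2 * p n * t - 1) + (S.al n + S.tl n * (t - S.t n)) = S.V := by
      rw [hV]
      have : S.tl n = -(4 * π * p n * S.y n) := by linarith
      rw [this]
      ring
    rw [e1]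
    refine (norm_add_le _ _).trans (add_le_add ?_ ?_)
    · rw [norm_mul, norm_mul]
      calc ‖blk (e n) (p n) N (tauC (e n) t (S.y n))‖ * (‖AK e p N n (S.tau n t)‖ *
            ‖cc (e n) (kap N (t - S.y n * Complex.I)) - 1‖)
          ≤ (H * Real.exp (N * (2 * π * S.y n * (2 * p n * t - 1)))) *
            ((C2 * N ^ a2 * Real.exp (N * (S.al n + S.tl n * (t - S.t n)))) *
              (C5 * Real.exp (-(2 * π * N * S.y n)))) := by gcongr
        _ = H * C2 * C5 * N ^ a2 * (Real.exp (N * (2 * π * S.y n * (2 * p n * t - 1))) *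
              Real.exp (N * (S.al n + S.tl n * (t - S.t n))) *
              Real.exp (-(2 * π * N * S.y n))) := by ring
        _ = _ := by
            rw [← Real.exp_add, ← Real.exp_add, ← mul_add, hexp]
            congr 2
            ring
    · rw [norm_mul]
      calc ‖blk (e n) (p n) N (tauC (e n) t (S.y n))‖ *
            ‖AK e p N n (S.tau n t) - S.AL N n (S.tau n t)‖
          ≤ (H * Real.exp (N * (2 * π * S.y n * (2 * p n * t - 1)))) *
            (C3 * Real.exp (N * (S.al n + S.tl n * (t - S.t n) - c3))) := by gcongr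
        _ = H * C3 * (Real.exp (N * (2 * π * S.y n * (2 * p n * t - 1))) *
              Real.exp (N * (S.al n + S.tl n * (t - S.t n) - c3))) := by ring
        _ = _ := by
            rw [← Real.exp_add, ← mul_add, ← hexp]
            congr 3
            ring
  have hB : ‖(∫ t in (S.t n - 1 / 10)..(S.t n + 1 / 10), F t) -
      ∫ t in (S.t n - 1 / 10)..(S.t n + 1 / 10), G t‖ ≤
      H * C2 * C5 * N ^ a2 * Real.exp (N * (S.V - 2 * π * S.y n)) +
        H * C3 * Real.exp (N * (S.V - c3)) := by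
    rw [← intervalIntegral.integral_sub (hFc.intervalIntegrable _ _) hGc.intervalIntegrable]
    refine (intervalIntegral.norm_integral_le_of_norm_le_const hpt).trans ?_
    have e2 : |S.t n + 1 / 10 - (S.t n - 1 / 10)| = 1 / 5 := by
      rw [show S.t n + 1 / 10 - (S.t n - 1 / 10) = 1 / 5 by ring]
      exact abs_of_pos (by norm_num)
    rw [e2]
    have : 0 ≤ H * C2 * C5 * N ^ a2 * Real.exp (N * (S.V - 2 * π * S.y n)) +
        H * C3 * Real.exp (N * (S.V - c3)) := by positivity
    linarith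
  have hB' : (N : ℝ) ^ 2 * (H * C2 * C5 * N ^ a2 * Real.exp (N * (S.V - 2 * π * S.y n)) +
        H * C3 * Real.exp (N * (S.V - c3))) ≤
      (H * C2 * C5 * D2 + H * C3 * D3) * Real.exp (N * (S.V - c)) := by
    have e3 : (N : ℝ) ^ 2 * (H * C2 * C5 * N ^ a2 * Real.exp (N * (S.V - 2 * π * S.y n)) +
        H * C3 * Real.exp (N * (S.V - c3))) =
        H * C2 * C5 * ((N : ℝ) ^ (a2 + 2) * Real.exp (N * (S.V - 2 * π * S.y n))) +
        H * C3 * ((N : ℝ) ^ 2 * Real.exp (N * (S.V - c3))) := by ring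
    rw [e3, add_mul]
    apply add_le_add
    · have h1 : (N : ℝ) ^ (a2 + 2) * Real.exp (N * (S.V - 2 * π * S.y n)) ≤
          D2 * Real.exp (N * (S.V - c)) := by
        calc (N : ℝ) ^ (a2 + 2) * Real.exp (N * (S.V - 2 * π * S.y n))
            ≤ D2 * Real.exp (N * (π * S.y n)) * Real.exp (N * (S.V - 2 * π * S.y n)) := by
              have := hD2' N
              gcongr
          _ = D2 * Real.exp (N * (S.V - π * S.y n)) := by
              rw [mul_assoc, ← Real.exp_add]
              congr 2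
              ring
          _ ≤ _ := by gcongr
      calc H * C2 * C5 * ((N : ℝ) ^ (a2 + 2) * Real.exp (N * (S.V - 2 * π * S.y n)))
          ≤ H * C2 * C5 * (D2 * Real.exp (N * (S.V - c))) := by gcongr
        _ = _ := by ring
    · have h1 : (N : ℝ) ^ 2 * Real.exp (N * (S.V - c3)) ≤
          D3 * Real.exp (N * (S.V - c)) := by
        calc (N : ℝ) ^ 2 * Real.exp (N * (S.V - c3))
            ≤ D3 * Real.exp (N * (c3 / 2)) * Real.exp (N * (S.V - c3)) := by
              have := hD3' N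
              gcongr
          _ = D3 * Real.exp (N * (S.V - c3 / 2)) := by
              rw [mul_assoc, ← Real.exp_add]
              congr 2
              ring
          _ ≤ _ := by gcongr
      calc H * C3 * ((N : ℝ) ^ 2 * Real.exp (N * (S.V - c3)))
          ≤ H * C3 * (D3 * Real.exp (N * (S.V - c))) := by gcongr
        _ = _ := by ring
  have hfin : DG (e n) (p n) N (AK e p N n) - cN (e n) N * N ^ 2 *
      (∫ t in (S.t n - 1 / 10)..(S.t n + 1 / 10), G t) =
      (DG (e n) (p n) N (AK e p N n) - cN (e n) N * N ^ 2 *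
        ∫ t in (S.t n - 1 / 10)..(S.t n + 1 / 10), F t) +
      cN (e n) N * N ^ 2 * ((∫ t in (S.t n - 1 / 10)..(S.t n + 1 / 10), F t) -
        ∫ t in (S.t n - 1 / 10)..(S.t n + 1 / 10), G t) := by ring
  rw [hfin]
  refine (norm_add_le _ _).trans ?_
  rw [add_mul]
  refine add_le_add (hA.trans hA') ?_
  rw [norm_mul, norm_mul, cN_norm, norm_pow, Complex.norm_natCast]
  calc 4 * π * (N : ℝ) ^ 2 * ‖(∫ t in (S.t n - 1 / 10)..(S.t n + 1 / 10), F t) -
        ∫ t in (S.t n - 1 / 10)..(S.t n + 1 / 10), G t‖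
      ≤ 4 * π * (N : ℝ) ^ 2 * (H * C2 * C5 * N ^ a2 * Real.exp (N * (S.V - 2 * π * S.y n)) +
        H * C3 * Real.exp (N * (S.V - c3))) := by gcongr
    _ = 4 * π * ((N : ℝ) ^ 2 * (H * C2 * C5 * N ^ a2 * Real.exp (N * (S.V - 2 * π * S.y n)) +
        H * C3 * Real.exp (N * (S.V - c3)))) := by ring
    _ ≤ 4 * π * ((H * C2 * C5 * D2 + H * C3 * D3) * Real.exp (N * (S.V - c))) := by gcongr
    _ = _ := by ring

end CP

end Pool.Agent.Kashaev.KC
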