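import Pool.Agent.Kashaev.KC.KashL
import Pool.Agent.Kashaev.KC.FubB
import Pool.Agent.KSM.P23
import Pool.Agent.KSM.P17
import Pool.Agent.KSM.P19
import Pool.Agent.KSM.P13

/-!
The expansion at a critical point.
Proof. `KX.finish` (KX/MainC) with `w = π i ∑ sg (e i) p i`, `v = Φ x0 + π i (n + 1)` (real part `V`),
`A = ∏ i, (-2 i sg (e i))` (`≠ 0`), `J N = N ^ (n - 1) * (-1) ^ (N (n + 1)) * ∫ x in closedBall x0 (1/10), Wn N x`:
`kashC = exp (w (1 - 1/(2N) - N/2)) * DG / (2 π) ^ (n + 1)`, `kash_loc` and `int_AL` (the prefactor has absolute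
value one, `(∏ cN (e i) N) / (2 π) ^ (n + 1) = A * (-1) ^ (N (n + 1))`), and `laplaceN` with `m = 2 n + 1`, `δ = 1 / 10`,
`c = 2 / 5`, `U = UN n`: `√N ^ 3 * exp (-N v) * J N = √N ^ (2 n + 1) * exp (-N Φ x0) * ∫ Wn`
(`exp (-N π i (n + 1)) * (-1) ^ (N (n + 1)) = 1`). `φ 0 = A exp w ψ 0`, and
`ψ 0 = Am x0 * ∫ exp (1/2 * D²Φ y y) ≠ 0` by `AmN_ne` and `gaussN_ne_zero` (the second derivative is symmetric,
`ContDiffAt.isSymmSndFDerivAt`, its real part is negative definite by the second and first conclusions of `local_expN`).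
-/

namespace Pool.Agent.Kashaev.KC

open Finset Real MeasureTheory
open Pool.Agent.Kashaev.KW
open Pool.Agent.Kashaev.KX (sg cc)

namespace CP

variable {n : ℕ} {e : ℕ → Bool} {p : ℕ → ℕ}

theorem mainN_exp_pi (k : ℕ) : Complex.exp (-(k * (π * Complex.I))) = (-1) ^ k := by
  have h : Complex.exp (-(k * (π * Complex.I))) = (Complex.exp (π * Complex.I) ^ k)⁻¹ := by
    rw [Complex.exp_neg, Complex.exp_nat_mul]
  rw [h, Complex.exp_pi_mul_I, ← inv_pow]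
  norm_num

theorem mainN_neg_one_sq (k : ℕ) : ((-1 : ℂ)) ^ k * (-1) ^ k = 1 := by
  rw [← mul_pow]
  norm_num

theorem mainN_prod (e : ℕ → Bool) (n N : ℕ) :
    (∏ i ∈ range (n + 1), cN (e i) N) / (2 * π : ℂ) ^ (n + 1) =
      (∏ i ∈ range (n + 1), (-(2 * Complex.I * (sg (e i) : ℂ)))) * (-1) ^ (N * (n + 1)) := by
  have h2 : (2 * π : ℂ) ≠ 0 := by
    simp [Real.pi_ne_zero]
  have h1 : ∀ i ∈ range (n + 1), cN (e i) N =
      (2 * π : ℂ) * ((-(2 * Complex.I * (sg (e i) : ℂ))) * (-1) ^ N) := by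
    intro i _
    unfold cN
    ring
  have h3 : ∏ i ∈ range (n + 1), cN (e i) N = (2 * π : ℂ) ^ (n + 1) *
      ((∏ i ∈ range (n + 1), (-(2 * Complex.I * (sg (e i) : ℂ)))) * ((-1) ^ N) ^ (n + 1)) := by
    rw [prod_congr rfl h1, prod_mul_distrib (f := fun _ => (2 * π : ℂ)), prod_const, card_range,
      prod_mul_distrib (g := fun _ => ((-1 : ℂ)) ^ N), prod_const, card_range]
  rw [h3, mul_div_cancel_left₀ _ (pow_ne_zero _ h2), ← pow_mul]

theorem mainN_gauss (S : CP n e p) (hp : ∀ i ≤ n, 1000 ≤ p i) (hn : 1 ≤ n) :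
    (∫ y : Fin (2 * n + 1) → ℝ,
      Complex.exp (1 / 2 * (fderiv ℝ (fderiv ℝ S.PhiN) S.x0N y) y)) ≠ 0 := by
  have hsub := S.ball_sub hp
  have hre : ∀ x ∈ Metric.closedBall S.x0N (1 / 10),
      (S.PhiN x).re ≤ (S.PhiN S.x0N).re - 2 / 5 * nsqN (x - S.x0N) := by
    intro x hx
    rw [S.PhiN_re_zero hp]
    exact S.PhiN_re hp hn hx
  obtain ⟨bb, hbb, -⟩ := S.WnN_expansion hp
  obtain ⟨Q, P, hQ1, hQ2, -, -, -⟩ := local_expN (by norm_num : (0 : ℝ) < 1 / 10)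
    (by norm_num : (0 : ℝ) < 2 / 5) S.x0N (UN n) (UN_open n) hsub S.PhiN S.AmN bb
    S.PhiN_smooth S.AmN_smooth hbb (S.PhiN_fderiv hp) hre
  refine gaussN_ne_zero (fderiv ℝ (fderiv ℝ S.PhiN) S.x0N) ?_ (c := 4 / 5) (by norm_num) ?_
  · have hx0 : S.x0N ∈ UN n := hsub (Metric.mem_closedBall_self (by norm_num))
    have hcd : ContDiffAt ℝ 2 S.PhiN S.x0N :=
      (S.PhiN_smooth.contDiffAt ((UN_open n).mem_nhds hx0)).of_le
        (WithTop.coe_le_coe.2 (le_top : (2 : ℕ∞) ≤ ⊤))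
    have hs : IsSymmSndFDerivAt ℝ S.PhiN S.x0N := hcd.isSymmSndFDerivAt (by simp)
    intro x y
    exact hs x y
  · intro x
    have h1 := hQ2 x
    rw [hQ1 x] at h1
    have h2 : (1 / 2 * (fderiv ℝ (fderiv ℝ S.PhiN) S.x0N x) x : ℂ).re =
        1 / 2 * ((fderiv ℝ (fderiv ℝ S.PhiN) S.x0N x) x).re := by
      have : (1 / 2 : ℂ) = ((1 / 2 : ℝ) : ℂ) := by push_cast; rfl
      rw [this, Complex.re_ofReal_mul]
    rw [h2] at h1
    unfold nsqN at h1
    linarith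

theorem mainN_pre (e : ℕ → Bool) (p : ℕ → ℕ) (n N : ℕ) : preC e p n N =
    Complex.exp (π * Complex.I * (∑ i ∈ range (n + 1), (sg (e i) : ℂ) * p i) *
      (1 - 1 / (2 * N) - N / 2)) := by
  unfold preC
  push_cast
  rfl

theorem mainN_w (e : ℕ → Bool) (p : ℕ → ℕ) (n : ℕ) :
    (π * Complex.I * (∑ i ∈ range (n + 1), (sg (e i) : ℂ) * p i) : ℂ) =
      ((π * (∑ i ∈ range (n + 1), sg (e i) * p i) : ℝ) : ℂ) * Complex.I := by
  push_cast
  ring

theorem mainN_pre_norm (e : ℕ → Bool) (p : ℕ → ℕ) (n N : ℕ) : ‖preC e p n N‖ = 1 := by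
  rw [mainN_pre, mainN_w]
  have : (((π * (∑ i ∈ range (n + 1), sg (e i) * p i) : ℝ) : ℂ) * Complex.I *
      (1 - 1 / (2 * N) - N / 2) : ℂ) =
      ((π * (∑ i ∈ range (n + 1), sg (e i) * p i) * (1 - 1 / (2 * N) - N / 2) : ℝ) : ℂ) *
        Complex.I := by
    push_cast
    ring
  rw [this, Complex.norm_exp_ofReal_mul_I]

theorem mainN_v (S : CP n e p) (hp : ∀ i ≤ n, 1000 ≤ p i) :
    (S.PhiN S.x0N + π * Complex.I * (n + 1)).re = S.V := by
  have h : (π * Complex.I * (n + 1) : ℂ) = ((π * (n + 1) : ℝ) : ℂ) * Complex.I := by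
    push_cast
    ring
  rw [Complex.add_re, S.PhiN_re_zero hp, h]
  simp

theorem expansionN (S : CP n e p) (hp : ∀ i ≤ n, 1000 ≤ p i) (hn : 1 ≤ n) :
    ∃ φ : ℕ → ℂ, φ 0 ≠ 0 ∧ ∀ K : ℕ, ∃ B : ℝ, ∀ N : ℕ, 1 ≤ N →
      ‖kashC e p n N - ((N : ℝ) ^ (3 / 2 : ℝ) : ℝ) *
          Complex.exp ((S.PhiN S.x0N + π * Complex.I * (n + 1) -
            π * Complex.I * (∑ i ∈ range (n + 1), (sg (e i) : ℂ) * p i) / 2) * N) *
          ∑ k ∈ range K, φ k * (2 * π * Complex.I / N) ^ k‖ ≤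
        B * ((N : ℝ) ^ (3 / 2 : ℝ) * Real.exp (S.V * N)) / (N : ℝ) ^ K := by
  have hsub := S.ball_sub hp
  have hre : ∀ x ∈ Metric.closedBall S.x0N (1 / 10),
      (S.PhiN x).re ≤ (S.PhiN S.x0N).re - 2 / 5 * nsqN (x - S.x0N) := by
    intro x hx
    rw [S.PhiN_re_zero hp]
    exact S.PhiN_re hp hn hx
  obtain ⟨bb, hbb, hexp⟩ := S.WnN_expansion hp
  obtain ⟨ψ, hψ0, hψ⟩ := laplaceN (by norm_num : (0 : ℝ) < 1 / 10)
    (by norm_num : (0 : ℝ) < 2 / 5) S.x0N (UN n) (UN_open n) hsub S.PhiN S.AmN bb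
    S.PhiN_smooth S.AmN_smooth hbb (S.PhiN_fderiv hp) hre S.WnN
    (fun N hN => (S.WnN_cont hN).mono hsub) hexp
  obtain ⟨C, c, hC, hc, hloc⟩ := S.kash_loc hp hn
  set w : ℂ := π * Complex.I * (∑ i ∈ range (n + 1), (sg (e i) : ℂ) * p i) with hw
  set v : ℂ := S.PhiN S.x0N + π * Complex.I * (n + 1) with hv
  have hvre : v.re = S.V := S.mainN_v hp
  set A : ℂ := ∏ i ∈ range (n + 1), (-(2 * Complex.I * (sg (e i) : ℂ))) with hA
  set J : ℕ → ℂ := fun N => (N : ℂ) ^ (n - 1) * (-1) ^ (N * (n + 1)) *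
    ∫ x in Metric.closedBall S.x0N (1 / 10), S.WnN N x with hJ
  have hwre : w.re = 0 := by
    rw [hw, mainN_w]
    simp
  have hA0 : A ≠ 0 := by
    rw [hA]
    refine prod_ne_zero_iff.mpr fun i _ => neg_ne_zero.mpr (mul_ne_zero (mul_ne_zero two_ne_zero
      Complex.I_ne_zero) ?_)
    refine Complex.ofReal_ne_zero.2 ?_
    unfold KX.sg
    split_ifs <;> norm_num
  have hpi : (1 : ℝ) ≤ (2 * π) ^ (n + 1) := by
    apply one_le_pow₀
    have := Real.pi_gt_three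
    linarith
  have hf : ∀ N ≥ 1, ‖kashC e p n N - Complex.exp (w * (1 - 1 / (2 * N) - N / 2)) *
      (A * (N : ℂ) ^ 3 * J N)‖ ≤ C * Real.exp (N * (v.re - c)) := by
    intro N hN
    have h1 := hloc N hN
    rw [S.int_AL hp hN] at h1
    rw [hvre]
    have hpre : Complex.exp (w * (1 - 1 / (2 * N) - N / 2)) = preC e p n N := by
      rw [mainN_pre]
    rw [hpre]
    have hpow : (N : ℂ) ^ (n + 2) = (N : ℂ) ^ 3 * (N : ℂ) ^ (n - 1) := by
      rw [← pow_add]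
      congr 1
      omega
    have e1 : kashC e p n N - preC e p n N * (A * (N : ℂ) ^ 3 * J N) =
        preC e p n N * (DG (e n) (p n) N (AK e p N n) -
          (∏ i ∈ range (n + 1), cN (e i) N) * N ^ (n + 2) *
          ∫ x in Metric.closedBall S.x0N (1 / 10), S.WnN N x) / (2 * π : ℂ) ^ (n + 1) := by
      have h2 : A * (N : ℂ) ^ 3 * J N = (∏ i ∈ range (n + 1), cN (e i) N) /
          (2 * π : ℂ) ^ (n + 1) * (N : ℂ) ^ (n + 2) *
          ∫ x in Metric.closedBall S.x0N (1 / 10), S.WnN N x := by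
        rw [mainN_prod, hpow]
        simp only [hJ]
        ring
      rw [h2]
      unfold kashC
      ring
    rw [e1, norm_div, norm_mul, mainN_pre_norm, one_mul, norm_pow]
    have e2 : ‖(2 * π : ℂ)‖ = 2 * π := by
      rw [norm_mul, Complex.norm_real, Real.norm_of_nonneg Real.pi_pos.le]
      simp
    rw [e2]
    exact (div_le_self (norm_nonneg _) hpi).trans h1
  have hJexp : ∀ K : ℕ, ∃ (B : ℝ) (N0 : ℕ), ∀ N ≥ N0,
      ‖((√N : ℝ) : ℂ) ^ 3 * Complex.exp (-(N * v)) * J N - ∑ j ∈ range K, ψ j / (N : ℂ) ^ j‖ ≤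
        B / (N : ℝ) ^ K := by
    intro K
    obtain ⟨B, N0, hB⟩ := hψ K
    refine ⟨B, N0, fun N hN => ?_⟩
    have h1 := hB N hN
    have e1 : ((√N : ℝ) : ℂ) ^ 3 * Complex.exp (-(N * v)) * J N =
        ((√N : ℝ) : ℂ) ^ (2 * n + 1) * Complex.exp (-(N * S.PhiN S.x0N)) *
          (∫ x in Metric.closedBall S.x0N (1 / 10), S.WnN N x) := by
      have h2 : Complex.exp (-(N * v)) = Complex.exp (-(N * S.PhiN S.x0N)) *
          (-1) ^ (N * (n + 1)) := by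
        rw [← mainN_exp_pi, ← Complex.exp_add]
        congr 1
        rw [hv]
        push_cast
        ring
      have h3 : (N : ℂ) = ((√N : ℝ) : ℂ) ^ 2 := by
        rw [← Complex.ofReal_pow, Real.sq_sqrt (Nat.cast_nonneg N), Complex.ofReal_natCast]
      have h4 : ((√N : ℝ) : ℂ) ^ 3 * (N : ℂ) ^ (n - 1) = ((√N : ℝ) : ℂ) ^ (2 * n + 1) := by
        conv_lhs => rw [h3]
        rw [← pow_mul, ← pow_add]
        congr 1
        omega
      rw [h2, ← h4]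
      simp only [hJ]
      have h5 := mainN_neg_one_sq (N * (n + 1))
      linear_combination (((√N : ℝ) : ℂ) ^ 3 * (N : ℂ) ^ (n - 1) *
        Complex.exp (-(N * S.PhiN S.x0N)) *
        (∫ x in Metric.closedBall S.x0N (1 / 10), S.WnN N x)) * h5
    rw [e1]
    exact h1
  obtain ⟨φ, hφ0, hφ⟩ := KX.finish (f := kashC e p n) (J := J) (v := v) (A := A) (w := w) hwre hc
    hf (ψ := ψ) hJexp
  rw [hvre] at hφ
  refine ⟨φ, ?_, hφ⟩
  rw [hφ0, hψ0]
  exact mul_ne_zero (mul_ne_zero hA0 (Complex.exp_ne_zero _))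
    (mul_ne_zero (S.AmN_ne hp) (S.mainN_gauss hp hn))

end CP

end Pool.Agent.Kashaev.KC
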