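import Pool.Agent.KSM.P16

/-!
The powers of the twist operator at the root of unity, by the summation functional `SS`.
Proof: induction on `m`. For `m = 0` this is `W_one` and `W_eq_SS` (KV/Explicit) with `twist_eq_tp`.
For the step: `pD N (m + 1) z = pD N m z * ((1 + ζ ^ (2 m + 1)) - ζ ^ m L z)` with
`L z = ζ eN N z + eN N (-z)`, and `L z * Om p 1 N k z = ζ ^ (-k) (1 + ζ ^ (2 k + 1)) Om p 1 N k z -
ζ ^ (-k) (1 - ζ ^ k) Om p 1 N (k - 1) z` (`KK_step`, `Om_step` for `k - 1`; for `k = 0` check directly that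
`((1 + ζ) - L z) * KK N 0 z = (1 - eN N (z + 1)) (1 - eN N (-z)) * KK N 0 z` is killed by `SS`
together with the factor: it is a multiple of `AA N ·` times `BB N ·`, see the proof of `SS_zero`; all
derivatives at the integers vanish because of double zeros; compare `SS_zero` and `KK_zero_left/right`).
Compare with `tp_rec`, `1 - ζ ^ (m + 1) ≠ 0` for `m + 1 < N`. Linearity: `SS_add`, `SS_const_mul`.
-/

namespace Pool.Agent.Kashaev.KC

open Finset KV Real

/-- The product over the low indices. -/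
noncomputable def pD (N m : ℕ) (z : ℂ) : ℂ :=
  ∏ i ∈ range m, ((1 - eN N (z + i + 1)) * (1 - eN N (i - z)))

theorem pD_zero (N : ℕ) (z : ℂ) : pD N 0 z = 1 := by simp [pD]

theorem pD_succ (N m : ℕ) (z : ℂ) : pD N (m + 1) z = pD N m z *
    ((1 + zeta N ^ (2 * m + 1)) - zeta N ^ m * (zeta N * eN N z + eN N (-z))) := by
  unfold pD
  rw [prod_range_succ]
  congr 1
  have e1 : z + m + 1 = z + ((m + 1 : ℕ) : ℂ) := by
    push_cast
    ring
  have e2 : (m : ℂ) - z = -z + ((m : ℕ) : ℂ) := by ring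
  rw [e1, e2, eN_add_nat, eN_add_nat]
  have e3 : eN N z * eN N (-z) = 1 := by rw [← eN_add, add_neg_cancel, eN_zero]
  linear_combination zeta N ^ (2 * m + 1) * e3

theorem pD_differentiable (N m : ℕ) : Differentiable ℂ (pD N m) := by
  have h : pD N m = fun z : ℂ => ∏ i ∈ range m, ((1 - eN N (z + i + 1)) * (1 - eN N (i - z))) := rfl
  rw [h]
  exact Differentiable.fun_finsetProd (u := range m)
    (f := fun i (z : ℂ) => (1 - eN N (z + i + 1)) * (1 - eN N (i - z)))
    fun i _ => (factor_differentiable N i).mul (factor_differentiable' N i)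

theorem pOm_differentiable (p N m k : ℕ) :
    Differentiable ℂ (fun z => pD N m z * Om p 1 N k z) :=
  (pD_differentiable N m).mul (Om_differentiable p 1 N k)

/-- The recursion in `m`. -/
theorem SS_rec {p N m k : ℕ} (hk : k + 1 < N) :
    zeta N ^ (k + 1) * SS p N (fun z => pD N (m + 1) z * Om p 1 N (k + 1) z) =
      (zeta N ^ (k + 1) * (1 + zeta N ^ (2 * m + 1)) -
        zeta N ^ m * (1 + zeta N ^ (2 * (k + 1) + 1))) *
          SS p N (fun z => pD N m z * Om p 1 N (k + 1) z) +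
        zeta N ^ m * (1 - zeta N ^ (k + 1)) * SS p N (fun z => pD N m z * Om p 1 N k z) := by
  have e : (fun z => zeta N ^ (k + 1) * (pD N (m + 1) z * Om p 1 N (k + 1) z)) =
      fun z => (zeta N ^ (k + 1) * (1 + zeta N ^ (2 * m + 1)) -
        zeta N ^ m * (1 + zeta N ^ (2 * (k + 1) + 1))) * (pD N m z * Om p 1 N (k + 1) z) +
        zeta N ^ m * (1 - zeta N ^ (k + 1)) * (pD N m z * Om p 1 N k z) := by
    ext z
    have e1 : eN N z * eN N (-z) = 1 := by rw [← eN_add, add_neg_cancel, eN_zero]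
    have h := Om_step hk p 1 z
    rw [pD_succ]
    linear_combination (-(zeta N ^ m * pD N m z)) * h +
      (-(zeta N ^ m * pD N m z * zeta N ^ (2 * (k + 1) + 1) * Om p 1 N (k + 1) z)) * e1
  have hD := pOm_differentiable
  have h := congrArg (SS p N) e
  rw [SS_const_mul p N _ (hD _ _ _ _), SS_add p N ((hD _ _ _ _).const_mul _)
    ((hD _ _ _ _).const_mul _), SS_const_mul p N _ (hD _ _ _ _),
    SS_const_mul p N _ (hD _ _ _ _)] at h
  exact h

/-- Double zeros at all the integers of a period. -/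
theorem SS_zero_m {p N m : ℕ} (hN : 1 ≤ N) :
    SS p N (fun z => pD N (m + 1) z * Om p 1 N 0 z) = 0 := by
  have hf : ∀ z : ℂ, pD N (m + 1) z * Om p 1 N 0 z =
      (∏ i ∈ range N, (1 - eN N (z + i + 1))) * ((∏ i ∈ range N, (1 - eN N (i - z))) *
        ((∏ i ∈ range m, ((1 - eN N (z + ((i + 1 : ℕ) : ℂ) + 1)) * (1 - eN N (((i + 1 : ℕ) : ℂ) - z)))) *
          eN N (p * z ^ 2 + (p - 1) * z) / DD N 0)) := by
    intro z
    rw [Om, KK_eq, pD, prod_range_succ']
    have e1 : ∏ i ∈ range N, (1 - eN N (z + i + 1)) = (1 - eN N (z + ((0 : ℕ) : ℂ) + 1)) * AA N 0 z := by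
      rw [AA, range_eq_Ico, prod_eq_prod_Ico_succ_bot (by omega)]
    have e2 : ∏ i ∈ range N, (1 - eN N (i - z)) = (1 - eN N (((0 : ℕ) : ℂ) - z)) * BB N 0 z := by
      rw [BB, range_eq_Ico, prod_eq_prod_Ico_succ_bot (by omega)]
    rw [e1, e2]
    push_cast
    ring
  have hz : ∀ l ∈ range N, ((p : ℂ) * (fun z : ℂ => pD N (m + 1) z * Om p 1 N 0 z) l -
      deriv (fun z : ℂ => pD N (m + 1) z * Om p 1 N 0 z) l / (2 * π * Complex.I)) = 0 := by
    intro l hl
    rw [mem_range] at hl
    have hP : (∏ i ∈ range N, (1 - eN N ((l : ℂ) + i + 1))) = 0 := by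
      refine prod_eq_zero (i := N - 1 - l) (by rw [mem_range]; omega) ?_
      have e : (l : ℂ) + ((N - 1 - l : ℕ) : ℂ) + 1 = N := by
        have : l + (N - 1 - l) + 1 = N := by omega
        exact_mod_cast congrArg (Nat.cast : ℕ → ℂ) this
      rw [e, eN_self hN, sub_self]
    have hQ : (∏ i ∈ range N, (1 - eN N ((i : ℂ) - l))) = 0 := by
      refine prod_eq_zero (i := l) (by rw [mem_range]; exact hl) ?_
      rw [sub_self, eN_zero, sub_self]
    have hd1 : Differentiable ℂ (fun z : ℂ => ∏ i ∈ range N, (1 - eN N (z + i + 1))) :=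
      prodA_differentiable N _
    have hd2 : Differentiable ℂ (fun z : ℂ => ∏ i ∈ range N, (1 - eN N (i - z))) :=
      prodB_differentiable N _
    have hd3 : Differentiable ℂ (fun z : ℂ => (∏ i ∈ range m,
        ((1 - eN N (z + ((i + 1 : ℕ) : ℂ) + 1)) * (1 - eN N (((i + 1 : ℕ) : ℂ) - z)))) *
          eN N (p * z ^ 2 + (p - 1) * z) / DD N 0) := by
      refine Differentiable.div_const (Differentiable.mul ?_ ?_) _
      · exact Differentiable.fun_finsetProd (u := range m)
          (f := fun i (z : ℂ) => (1 - eN N (z + ((i + 1 : ℕ) : ℂ) + 1)) *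
            (1 - eN N (((i + 1 : ℕ) : ℂ) - z)))
          fun i _ => (factor_differentiable N (i + 1)).mul (factor_differentiable' N (i + 1))
      · exact eN_differentiable N (by fun_prop)
    have h1 := hasDerivAt_mul_zero (z := (l : ℂ)) (hd1 (l : ℂ)).hasDerivAt
      ((hd2.mul hd3) (l : ℂ)) hP
    have h2 : HasDerivAt (fun z : ℂ => pD N (m + 1) z * Om p 1 N 0 z) 0 (l : ℂ) := by
      have e3 : (fun z : ℂ => pD N (m + 1) z * Om p 1 N 0 z) = fun z : ℂ =>
          (∏ i ∈ range N, (1 - eN N (z + i + 1))) * ((∏ i ∈ range N, (1 - eN N (i - z))) *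
        ((∏ i ∈ range m, ((1 - eN N (z + ((i + 1 : ℕ) : ℂ) + 1)) * (1 - eN N (((i + 1 : ℕ) : ℂ) - z)))) *
          eN N (p * z ^ 2 + (p - 1) * z) / DD N 0)) := funext hf
      rw [e3]
      have h3 := h1
      rw [Pi.mul_apply, hQ, zero_mul, mul_zero] at h3
      exact h3
    rw [h2.deriv]
    show (p : ℂ) * (pD N (m + 1) (l : ℂ) * Om p 1 N 0 (l : ℂ)) - 0 / (2 * π * Complex.I) = 0
    rw [hf, hP]
    ring
  unfold SS
  exact sum_eq_zero hz

theorem qp_succ' (q : ℂ) (n : ℕ) : qp q (n + 1) = qp q n * (1 - q ^ (n + 1)) := by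
  unfold qp
  rw [prod_range_succ]

theorem tp_eq_SS {p N m k : ℕ} (hp : 1 ≤ p) (hN : 2 ≤ N) (hm : m < N) (hk : k < N) :
    tp (zeta N) p m k = zeta N ^ m / qp (zeta N) m *
      SS p N (fun z => pD N m z * Om p 1 N k z) := by
  have hq : zeta N ≠ 0 := Complex.exp_ne_zero _
  induction m generalizing k with
  | zero =>
    obtain ⟨P, rfl⟩ : ∃ P, p = P + 1 := ⟨p - 1, by omega⟩
    rw [← twist_eq_tp, ← W_one, W_eq_SS P hN k hk 1 (by omega)]
    simp only [pD_zero, one_mul, pow_zero, qp, range_zero, prod_empty, div_one]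
  | succ m ih =>
    rcases k with _ | k
    · rw [tp_zero (by omega), SS_zero_m (by omega), mul_zero]
    · have h0 : 1 - zeta N ^ (m + 1) ≠ 0 := one_sub_zeta_ne (by omega) hm
      have hqk : zeta N ^ (k + 1) ≠ 0 := pow_ne_zero _ hq
      have hqp : qp (zeta N) m ≠ 0 := by
        unfold qp
        refine prod_ne_zero_iff.2 fun i hi => ?_
        rw [mem_range] at hi
        exact one_sub_zeta_ne (by omega) (by omega)
      have h1 := tp_rec hq p m (k + 1)
      rw [Nat.add_sub_cancel, ih (by omega) hk, ih (by omega) (by omega)] at h1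
      have h2 := SS_rec (p := p) (m := m) hk
      apply mul_left_cancel₀ (mul_ne_zero hqk h0)
      rw [h1, qp_succ']
      have h3 : zeta N ^ (k + 1) * (1 - zeta N ^ (m + 1)) * (zeta N ^ (m + 1) /
          (qp (zeta N) m * (1 - zeta N ^ (m + 1))) *
            SS p N (fun z => pD N (m + 1) z * Om p 1 N (k + 1) z)) =
          zeta N ^ (m + 1) / qp (zeta N) m *
            (zeta N ^ (k + 1) * SS p N (fun z => pD N (m + 1) z * Om p 1 N (k + 1) z)) := by
        field_simp
      rw [h3, h2]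
      ring

end Pool.Agent.Kashaev.KC
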