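import Pool.Agent.Kashaev.KC.StepM

/-!
The crude bound of the next state.
Proof: `step_main` for the difference; `Dw` is bounded by the length of the window times the maximum of the
integrand: `blk_norm`, `Weak.sharp` (on the line of the critical point), `RR_le` (the imaginary part of
`S.tau i s` is at most `1e-6`), `kap_bound` (`‖cc e z‖ = ‖z‖`). The exponent is
`2 π y (2 p s - 1) + al i + tl i (s - t i) + 2 Um - dd s - dd τ.re + 0.0002`; with `u = s - t i` this is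
`al i + 2 π y (2 p (t i) - 1) + (tl i + 4 π p y) u - dd s + 2 Um + 0.0002 - dd τ.re`, where
`|tl i + 4 π p y| ≤ 0.0167` (`slopes`, `blk_small`; `tl 0 = 0`), `dd s ≥ 0.98 s ^ 2` for `|s| ≤ 0.1006`,
`s ^ 2 ≥ u ^ 2 - 0.001002 |u|`, so `0.0167 |u| - dd s ≤ 0.0177 |u| - 0.98 u ^ 2 ≤ 0.0001`;
and `2 Um ≤ fs i + 0.0001`. Total: at most `al (i + 1) - dd τ.re + 0.0004`.
-/

namespace Pool.Agent.Kashaev.KC

open Finset Real MeasureTheory
open Pool.Agent.Kashaev.KW
open Pool.Agent.Kashaev.KX (sg cc kap)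

namespace CP

variable {n : ℕ} {e : ℕ → Bool} {p : ℕ → ℕ}

private theorem dd_gap {t s c : ℝ} (ht0 : 0 < t) (ht1 : t ≤ 0.000501) (hs : |s - t| ≤ 1 / 10)
    (hc : |c| ≤ 0.0167) : c * (s - t) - dd s ≤ 0.0007 := by
  have h1 : c * (s - t) ≤ 0.0167 * |s - t| := by
    refine (le_abs_self _).trans ?_
    rw [abs_mul]
    exact mul_le_mul_of_nonneg_right hc (abs_nonneg _)
  obtain ⟨u, hu⟩ : ∃ u, u = |s - t| := ⟨_, rfl⟩
  have hu0 : 0 ≤ u := hu ▸ abs_nonneg _
  have hu2 : u ^ 2 = (s - t) ^ 2 := by rw [hu, sq_abs]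
  have hus : -u ≤ s - t := by rw [hu]; exact neg_abs_le _
  rw [← hu] at h1 hs
  unfold dd
  rcases le_total (s ^ 2) (1 / 100) with h | h
  · rw [min_eq_left h]
    have h2 : s ^ 2 = u ^ 2 + 2 * (s - t) * t + t ^ 2 := by rw [hu2]; ring
    have h3 : -(0.001002 * u) ≤ 2 * (s - t) * t := by nlinarith
    nlinarith [sq_nonneg (u - 0.00885), sq_nonneg t]
  · rw [min_eq_right h]
    nlinarith

theorem step_crude (S : CP n e p) (hp : ∀ i ≤ n, 1000 ≤ p i) {i : ℕ} (hi : i < n)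
    (h : S.Weak i) : ∃ (C : ℝ) (a : ℕ), 0 < C ∧ ∀ N : ℕ, 1 ≤ N → ∀ τ : ℂ,
      |τ.im| ≤ 0.00001 → |τ.re| ≤ 1 / 2 →
      ‖AK e p N (i + 1) τ‖ ≤
        C * N ^ a * Real.exp (N * (S.al (i + 1) + 0.001 - dd τ.re)) := by
  obtain ⟨C0, a0, hC0, H0⟩ := S.step_main hp hi h
  obtain ⟨C1, a1, hC1, H1⟩ := h.sharp
  obtain ⟨C2, hC2, H2⟩ := RR_le
  obtain ⟨C3, hC3, H3⟩ := kap_bound (S.hy0 i hi.le)
  have ht := S.t_pos hp hi.le
  have hy := S.y_le hp hi.le
  have hy0 := S.hy0 i hi.le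
  have hb := S.blk_small hp hi.le
  have hf := S.fs_bounds hp hi
  have hal : S.al (i + 1) = S.al i + 2 * π * S.y i * (2 * p i * S.t i - 1) + S.fs i := rfl
  have hpy0 : 0 ≤ 4 * π * p i * S.y i := by positivity
  have htl : |S.tl i| ≤ 0.004 := by
    unfold tl
    split_ifs with h0
    · exact (S.slopes hp (j := i - 1) (by omega)).2
    · norm_num
  have hc : |S.tl i + 4 * π * p i * S.y i| ≤ 0.0167 := by
    rw [abs_le] at htl ⊢
    have := hb.2.1
    constructor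
    · linarith [htl.1]
    · linarith [htl.2]
  have hsmall := abs_le.1 hb.1
  have hcosh : 0 < Real.cosh (2 * π * S.y i) := Real.cosh_pos _
  have htau_re : ∀ s : ℝ, (S.tau i s).re = s := by
    intro s
    simp [tau, tauC]
  have htau_im : ∀ s : ℝ, |(S.tau i s).im| ≤ 0.00001 := by
    intro s
    have h1 : (S.tau i s).im = -(sg (e i) * S.y i) := by
      simp [tau, tauC]
    rw [h1, abs_neg]
    have h2 := hy.2
    unfold Y at h2
    refine h2.trans (by norm_num)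
  obtain ⟨K, hK⟩ : ∃ K, K = Real.cosh (2 * π * S.y i) * C1 * C2 * C3 := ⟨_, rfl⟩
  have hK0 : 0 < K := by rw [hK]; positivity
  have key : ∀ N : ℕ, 1 ≤ N → ∀ τ : ℂ, |τ.im| ≤ 0.00001 → |τ.re| ≤ 1 / 2 → ∀ s : ℝ,
      |s - S.t i| ≤ 1 / 10 →
      ‖blk (e i) (p i) N (S.tau i s) * (AK e p N i (S.tau i s) * RR N (S.tau i s) τ) *
        cc (e i) (kap N (s - S.y i * Complex.I))‖ ≤
        K * (N : ℝ) ^ (a1 + 1) * Real.exp (N * (S.al (i + 1) + 0.001 - dd τ.re)) := by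
    intro N hN τ hτ1 hτ2 s hs
    have hsabs : |s| ≤ 1 / 2 := by
      rw [abs_le] at hs ⊢
      constructor <;> linarith [hs.1, hs.2, ht.1, ht.2]
    have e1 := blk_norm (e i) (p i) N s (S.y i)
    have e2 := H1 N hN s hs
    have e3 := H2 N hN (S.tau i s) τ (htau_im s) (by rw [htau_re]; exact hsabs) hτ1 hτ2
    have e4 := (H3 N hN s).1
    rw [htau_re] at e3
    have e1' : ‖blk (e i) (p i) N (S.tau i s)‖ ≤
        Real.cosh (2 * π * S.y i) * Real.exp (N * (2 * π * S.y i * (2 * p i * s - 1))) := e1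
    rw [norm_mul, norm_mul, norm_mul, DGs.cc_norm]
    have hN0 : (0 : ℝ) ≤ N := Nat.cast_nonneg N
    have hexp : N * (2 * π * S.y i * (2 * p i * s - 1)) +
        N * (S.al i + S.tl i * (s - S.t i)) + N * (2 * Um - dd s - dd τ.re + 0.0002) ≤
        N * (S.al (i + 1) + 0.001 - dd τ.re) := by
      rw [← mul_add, ← mul_add]
      refine mul_le_mul_of_nonneg_left ?_ hN0
      have h5 := dd_gap ht.1 ht.2 hs hc
      have h6 : 2 * π * S.y i * (2 * p i * s - 1) =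
          2 * π * S.y i * (2 * p i * S.t i - 1) + 4 * π * p i * S.y i * (s - S.t i) := by ring
      rw [hal, h6]
      linarith [hf.1]
    calc ‖blk (e i) (p i) N (S.tau i s)‖ * (‖AK e p N i (S.tau i s)‖ * ‖RR N (S.tau i s) τ‖) *
          ‖kap N (s - S.y i * Complex.I)‖
        ≤ (Real.cosh (2 * π * S.y i) * Real.exp (N * (2 * π * S.y i * (2 * p i * s - 1)))) *
          ((C1 * N ^ a1 * Real.exp (N * (S.al i + S.tl i * (s - S.t i)))) *
            (C2 * N * Real.exp (N * (2 * Um - dd s - dd τ.re + 0.0002)))) * C3 := by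
          gcongr
      _ = K * (N : ℝ) ^ (a1 + 1) * Real.exp (N * (2 * π * S.y i * (2 * p i * s - 1)) +
          N * (S.al i + S.tl i * (s - S.t i)) + N * (2 * Um - dd s - dd τ.re + 0.0002)) := by
          rw [Real.exp_add, Real.exp_add, hK, pow_succ]
          ring
      _ ≤ K * (N : ℝ) ^ (a1 + 1) * Real.exp (N * (S.al (i + 1) + 0.001 - dd τ.re)) := by
          gcongr
  have hcN : ∀ N : ℕ, ‖cN (e i) N‖ = 4 * π := by
    intro N
    unfold cN
    have h1 : ‖((sg (e i) : ℝ) : ℂ)‖ = 1 := by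
      cases e i <;> simp [sg]
    rw [norm_mul, norm_mul, norm_neg, h1, norm_pow, norm_neg, norm_one, one_pow, mul_one, one_mul,
      norm_mul, norm_mul, Complex.norm_I, Complex.norm_real, Real.norm_eq_abs,
      abs_of_pos Real.pi_pos]
    norm_num
  refine ⟨C0 + 4 * π * K, a0 + (a1 + 3), by positivity, fun N hN τ hτ1 hτ2 => ?_⟩
  have hN1 : (1 : ℝ) ≤ N := by exact_mod_cast hN
  have hN0 : (0 : ℝ) ≤ N := by linarith
  have hD : ‖S.Dw N i τ‖ ≤ 4 * π * K * (N : ℝ) ^ (a1 + 3) *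
      Real.exp (N * (S.al (i + 1) + 0.001 - dd τ.re)) := by
    unfold Dw
    rw [norm_mul, norm_mul, hcN, norm_pow, Complex.norm_natCast]
    have h1 := intervalIntegral.norm_integral_le_of_norm_le_const
      (a := S.t i - 1 / 10) (b := S.t i + 1 / 10)
      (f := fun s : ℝ => blk (e i) (p i) N (S.tau i s) *
        (AK e p N i (S.tau i s) * RR N (S.tau i s) τ) * cc (e i) (kap N (s - S.y i * Complex.I)))
      (C := K * (N : ℝ) ^ (a1 + 1) * Real.exp (N * (S.al (i + 1) + 0.001 - dd τ.re))) (by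
        intro s hs
        refine key N hN τ hτ1 hτ2 s ?_
        rw [Set.uIoc_of_le (by linarith)] at hs
        rw [abs_le]
        constructor <;> linarith [hs.1, hs.2])
    have h2 : |S.t i + 1 / 10 - (S.t i - 1 / 10)| ≤ 1 := by
      rw [abs_le]; constructor <;> linarith
    have h3 := h1.trans (mul_le_of_le_one_right (by positivity) h2)
    calc 4 * π * (N : ℝ) ^ 2 * _ ≤ 4 * π * (N : ℝ) ^ 2 *
          (K * (N : ℝ) ^ (a1 + 1) * Real.exp (N * (S.al (i + 1) + 0.001 - dd τ.re))) :=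
          mul_le_mul_of_nonneg_left h3 (by positivity)
      _ = 4 * π * K * (N : ℝ) ^ (a1 + 3) *
          Real.exp (N * (S.al (i + 1) + 0.001 - dd τ.re)) := by
          rw [show a1 + 3 = 2 + (a1 + 1) by ring, pow_add]
          ring
  have hM : ‖AK e p N (i + 1) τ - S.Dw N i τ‖ ≤
      C0 * N ^ a0 * Real.exp (N * (S.al (i + 1) + 0.001 - dd τ.re)) := by
    refine (H0 N hN τ hτ1 hτ2).trans ?_
    refine mul_le_mul_of_nonneg_left (Real.exp_le_exp.2 ?_) (by positivity)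
    refine mul_le_mul_of_nonneg_left ?_ hN0
    rw [hal]
    linarith [hf.1, hsmall.1]
  have hp1 : (N : ℝ) ^ a0 ≤ (N : ℝ) ^ (a0 + (a1 + 3)) := pow_le_pow_right₀ hN1 (by omega)
  have hp2 : (N : ℝ) ^ (a1 + 3) ≤ (N : ℝ) ^ (a0 + (a1 + 3)) := pow_le_pow_right₀ hN1 (by omega)
  calc ‖AK e p N (i + 1) τ‖ = ‖(AK e p N (i + 1) τ - S.Dw N i τ) + S.Dw N i τ‖ := by
        rw [sub_add_cancel]
    _ ≤ ‖AK e p N (i + 1) τ - S.Dw N i τ‖ + ‖S.Dw N i τ‖ := norm_add_le _ _
    _ ≤ C0 * N ^ a0 * Real.exp (N * (S.al (i + 1) + 0.001 - dd τ.re)) +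
        4 * π * K * (N : ℝ) ^ (a1 + 3) *
          Real.exp (N * (S.al (i + 1) + 0.001 - dd τ.re)) := add_le_add hM hD
    _ ≤ C0 * (N : ℝ) ^ (a0 + (a1 + 3)) * Real.exp (N * (S.al (i + 1) + 0.001 - dd τ.re)) +
        4 * π * K * (N : ℝ) ^ (a0 + (a1 + 3)) *
          Real.exp (N * (S.al (i + 1) + 0.001 - dd τ.re)) := by
        gcongr
    _ = (C0 + 4 * π * K) * (N : ℝ) ^ (a0 + (a1 + 3)) *
        Real.exp (N * (S.al (i + 1) + 0.001 - dd τ.re)) := by ring

end CP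

end Pool.Agent.Kashaev.KC
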