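import Pool.Agent.Kashaev.KC.Ind

/-!
The next state is given by the window, up to small terms.
Proof: `DG_split` with `η = 0.0005`, `t1 = t i - 1 / 10`, `t2 = t i + 1 / 10`,
`f σ = AK e p N i σ * RR N σ τ` (`AK_differentiable`, `AK_even`, `RR_differentiable`, `RR_even`),
`B` from `Weak.crude` and `RR_le`: outside of the window `dd σ.re ≥ 0.0098`. The exponents:
`0.001 + 0.0002 - 0.0098 + 0.0013 + 0.0005 ≤ -0.006`.
-/

namespace Pool.Agent.Kashaev.KC

open Finset Real MeasureTheory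
open Pool.Agent.Kashaev.KW
open Pool.Agent.Kashaev.KX (sg cc kap)

namespace CP

variable {n : ℕ} {e : ℕ → Bool} {p : ℕ → ℕ}

theorem step_main (S : CP n e p) (hp : ∀ i ≤ n, 1000 ≤ p i) {i : ℕ} (hi : i < n)
    (h : S.Weak i) : ∃ (C : ℝ) (a : ℕ), 0 < C ∧ ∀ N : ℕ, 1 ≤ N → ∀ τ : ℂ,
      |τ.im| ≤ 0.00001 → |τ.re| ≤ 1 / 2 →
      ‖AK e p N (i + 1) τ - S.Dw N i τ‖ ≤
        C * N ^ a * Real.exp (N * (S.al i + 2 * Um - dd τ.re - 0.006)) := by
  have hi' : i ≤ n := hi.le
  have hpi : (1000 : ℝ) ≤ p i := by exact_mod_cast hp i hi'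
  have ht0 := S.ht0 i hi'
  have ht1 := S.ht1 i hi'
  have hy0 := S.hy0 i hi'
  have hy1 := S.hy1 i hi'
  have htpos : 0 ≤ S.t i := by
    by_contra hcon
    push Not at hcon
    have : 2 * (p i : ℝ) * S.t i ≤ 0 := mul_nonpos_of_nonneg_of_nonpos (by positivity) hcon.le
    linarith
  have htle : S.t i ≤ 0.000501 := by
    have : 2000 * S.t i ≤ 2 * p i * S.t i := by
      have h2 : (2000 : ℝ) ≤ 2 * p i := by linarith
      exact mul_le_mul_of_nonneg_right h2 htpos
    linarith
  have hyle : S.y i ≤ 0.000001 := by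
    have : 2000 * S.y i ≤ 2 * p i * S.y i := by
      have h2 : (2000 : ℝ) ≤ 2 * p i := by linarith
      exact mul_le_mul_of_nonneg_right h2 hy0.le
    linarith
  obtain ⟨C1, a, hC1, H1⟩ := h.crude
  obtain ⟨C2, hC2, H2⟩ := RR_le
  obtain ⟨C3, hC3, H3⟩ := DG_split (p := p i) (by have := hp i hi'; omega) (e i) (y := S.y i)
    (t1 := S.t i - 1 / 10) (t2 := S.t i + 1 / 10) (η := 0.0005) hy0 (by linarith) (by linarith)
    (by linarith) (by nlinarith) (by norm_num)
  refine ⟨C3 * (C1 * C2), a + 3, by positivity, fun N hN τ hτ1 hτ2 => ?_⟩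
  have hN0 : (0 : ℝ) ≤ N := Nat.cast_nonneg N
  set B : ℝ := C1 * C2 * N ^ (a + 1) *
    Real.exp (N * (S.al i + 0.001 + (2 * Um - 0.0098 - dd τ.re + 0.0002))) with hB
  have hB0 : 0 ≤ B := by positivity
  have h4 := H3 N hN (fun σ => AK e p N i σ * RR N σ τ)
    ((AK_differentiable e p N i).mul (RR_differentiable N τ))
    (fun σ => by rw [AK_even, RR_even]) B hB0 (by
      intro σ h1 h2 h3
      have hσim : |σ.im| ≤ 0.00001 := h1.trans (by linarith)
      have hdd : 0.0098 ≤ dd σ.re := by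
        unfold dd
        refine le_min ?_ (by norm_num)
        rcases h3 with h3 | h3
        · nlinarith
        · nlinarith
      rw [norm_mul]
      have h5 := H1 N hN σ hσim h2
      have h6 := H2 N hN σ τ hσim h2 hτ1 hτ2
      have h7 : Real.exp (N * (2 * Um - dd σ.re - dd τ.re + 0.0002)) ≤
          Real.exp (N * (2 * Um - 0.0098 - dd τ.re + 0.0002)) := by
        rw [Real.exp_le_exp]
        refine mul_le_mul_of_nonneg_left ?_ hN0
        linarith
      calc ‖AK e p N i σ‖ * ‖RR N σ τ‖ ≤ (C1 * N ^ a * Real.exp (N * (S.al i + 0.001))) *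
            (C2 * N * Real.exp (N * (2 * Um - 0.0098 - dd τ.re + 0.0002))) := by
            refine mul_le_mul h5 (h6.trans ?_) (norm_nonneg _) (by positivity)
            gcongr
        _ = C1 * C2 * N ^ (a + 1) * (Real.exp (N * (S.al i + 0.001)) *
            Real.exp (N * (2 * Um - 0.0098 - dd τ.re + 0.0002))) := by ring
        _ = B := by
            rw [← Real.exp_add, hB, mul_add (N : ℝ) (S.al i + 0.001)])
  have h5 : AK e p N (i + 1) τ - S.Dw N i τ = DG (e i) (p i) N (fun σ => AK e p N i σ * RR N σ τ) -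
      cN (e i) N * N ^ 2 * ∫ t in (S.t i - 1 / 10)..(S.t i + 1 / 10),
        blk (e i) (p i) N (tauC (e i) t (S.y i)) *
          (fun σ => AK e p N i σ * RR N σ τ) (tauC (e i) t (S.y i)) *
            cc (e i) (kap N (t - S.y i * Complex.I)) := rfl
  rw [h5]
  refine h4.trans ?_
  have hexp : 2 * π * S.y i * (2 * p i * (S.t i + 1 / 10) - 1) + 0.0005 ≤ 0.0018 := by
    have hpi4 := Real.pi_lt_d2
    have hpi0 := Real.pi_pos
    have e1 : S.y i * (2 * p i * (S.t i + 1 / 10) - 1) ≤ 0.000201 := by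
      have e2 : S.y i * (2 * p i * (S.t i + 1 / 10) - 1) =
          S.y i * (2 * p i * S.t i - 1) + (2 * p i * S.y i) / 10 := by ring
      have e3 : S.y i * (2 * p i * S.t i - 1) ≤ 0.000001 * 0.002 := by
        refine (mul_le_mul_of_nonneg_left (by linarith : 2 * p i * S.t i - 1 ≤ 0.002)
          hy0.le).trans ?_
        exact mul_le_mul_of_nonneg_right hyle (by norm_num)
      rw [e2]
      linarith
    have e4 : 2 * π * S.y i * (2 * p i * (S.t i + 1 / 10) - 1) =
        2 * π * (S.y i * (2 * p i * (S.t i + 1 / 10) - 1)) := by ring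
    have e5 : 2 * π * (S.y i * (2 * p i * (S.t i + 1 / 10) - 1)) ≤ 2 * π * 0.000201 :=
      mul_le_mul_of_nonneg_left e1 (by positivity)
    rw [e4]
    have e6 : 2 * π * 0.000201 ≤ 2 * 3.15 * 0.000201 := by nlinarith
    linarith
  have h8 : Real.exp (N * (2 * π * S.y i * (2 * p i * (S.t i + 1 / 10) - 1) + 0.0005)) ≤
      Real.exp (N * 0.0018) := by
    rw [Real.exp_le_exp]
    exact mul_le_mul_of_nonneg_left hexp hN0
  calc C3 * N ^ 2 * Real.exp (N * (2 * π * S.y i * (2 * p i * (S.t i + 1 / 10) - 1) + 0.0005)) * B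
      ≤ C3 * N ^ 2 * Real.exp (N * 0.0018) * B := by gcongr
    _ = C3 * (C1 * C2) * N ^ (a + 3) * (Real.exp (N * 0.0018) *
        Real.exp (N * (S.al i + 0.001 + (2 * Um - 0.0098 - dd τ.re + 0.0002)))) := by
        rw [hB]
        ring
    _ ≤ _ := by
        rw [← Real.exp_add]
        have h9 : N * 0.0018 + N * (S.al i + 0.001 + (2 * Um - 0.0098 - dd τ.re + 0.0002)) ≤
            (N : ℝ) * (S.al i + 2 * Um - dd τ.re - 0.006) := by
          rw [← mul_add]
          refine mul_le_mul_of_nonneg_left ?_ hN0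
          linarith
        have h10 := Real.exp_le_exp.2 h9
        gcongr

end CP

end Pool.Agent.Kashaev.KC
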